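import Pool.Agent.K1H81.T3.Stm
import Pool.Agent.K1H81.TT.ANA

/-! ANA3: the root numbers cancel. -/

set_option autoImplicit false

namespace Pool.Agent.K1H81.T3
namespace ANA3

open Finset Filter Topology
open Pool.Agent.K1H81.TT (QQ gg mm)
open Pool.Agent.K1H81.TT.ANA (jac_abs mm_abs cast_abs_one Keys Keys_card QQ_pos gg_pos gg_dvd_QQ gg_dvd
  gg_congr sg sg_or sg_pos)

lemma w3_abs (A D : ℤ) : |w3 A D| ≤ 1 := by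
  unfold w3
  rw [abs_neg, abs_mul, abs_prod, abs_prod]
  have h1 : ∏ _p ∈ D.natAbs.primeFactors, |(-1 : ℤ)| ≤ 1 :=
    prod_le_one (fun _ _ => abs_nonneg _) (fun p _ => by simp)
  have h2 : ∏ p ∈ (E3 A D).natAbs.primeFactors, |-jacobiSym (p : ℤ) 3| ≤ 1 :=
    prod_le_one (fun _ _ => abs_nonneg _) (fun p _ => by rw [abs_neg]; exact jac_abs _ _)
  have h3 : 0 ≤ ∏ p ∈ (E3 A D).natAbs.primeFactors, |-jacobiSym (p : ℤ) 3| :=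
    prod_nonneg (fun _ _ => abs_nonneg _)
  have h4 : 0 ≤ ∏ _p ∈ D.natAbs.primeFactors, |(-1 : ℤ)| := prod_nonneg (fun _ _ => abs_nonneg _)
  nlinarith

/-- the class and signs of a pair -/
noncomputable def key (M : ℕ) (z : ℤ × ℤ) : (ℤ × ℤ) × (Bool × Bool × Bool) :=
  ((z.1 % M, z.2 % M), (decide (0 < z.2), decide (0 < E3 z.1 z.2), decide (0 < 12 * z.2 - z.1 ^ 3)))

lemma key_mem {M : ℕ} (hM : 0 < M) (z : ℤ × ℤ) : key M z ∈ Keys M := by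
  have hM' : (0 : ℤ) < M := by exact_mod_cast hM
  simp only [Keys, key, mem_product, mem_Ico, mem_univ, and_true]
  exact ⟨⟨Int.emod_nonneg _ hM'.ne', Int.emod_lt_of_pos _ hM'⟩,
    ⟨Int.emod_nonneg _ hM'.ne', Int.emod_lt_of_pos _ hM'⟩⟩

lemma E3_congr {M A D A' D' : ℤ} (h1 : A ≡ A' [ZMOD M]) (h2 : D ≡ D' [ZMOD M]) :
    E3 A D ≡ E3 A' D' [ZMOD M] := by
  unfold E3
  exact (h1.pow 3).sub (h2.mul_left 27)

lemma F_ne {a c : ℤ} (h : ¬ (3 : ℤ) ∣ a) : 12 * c - a ^ 3 ≠ 0 := by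
  intro h0
  apply h
  have h1 : (3 : ℤ) ∣ a ^ 3 := ⟨4 * c, by linarith⟩
  exact Int.prime_three.dvd_of_dvd_pow h1

open Classical in
/-- the pairs of the region with a given key -/
noncomputable def Hk (M N : ℕ) (Y η : ℝ) (k : (ℤ × ℤ) × (Bool × Bool × Bool)) :
    Finset (ℤ × ℤ) :=
  (Bx3 N).filter fun z => Reg3 Y z.1 z.2 ∧ η * N ≤ (z.1 : ℝ) ∧ z.1 < 2 * N ∧ z.2 ≠ 0 ∧
    E3 z.1 z.2 ≠ 0 ∧ ¬ (3 : ℤ) ∣ z.1 ∧ key M z = k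

lemma sum_Hk {y K N : ℕ} {Y η : ℝ} (hη : 0 < η * N) {k : (ℤ × ℤ) × (Bool × Bool × Bool)}
    (hk : k ∈ Keys (24 * QQ y K)) (hα : ¬ (3 : ℤ) ∣ k.1.1) {L U : ℤ → ℤ}
    (hb : ∀ A, -(N : ℤ) ^ 3 ≤ L A ∧ L A ≤ U A ∧ U A ≤ (N : ℤ) ^ 3)
    (hR : ∀ a c : ℤ, η * N ≤ (a : ℝ) → (a : ℝ) ≤ 2 * N → ¬ (3 : ℤ) ∣ a →
      ((Reg3 Y a c ∧ 0 < sg k.2.1 * c ∧ 0 < sg k.2.2.1 * E3 a c ∧
        0 < sg k.2.2.2 * (12 * c - a ^ 3)) ↔ (L a < c ∧ c ≤ U a))) :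
    ∑ z ∈ Hk (24 * QQ y K) N Y η k, mm y K z.2 * mm y K (E3 z.1 z.2) =
      ∑ A ∈ Ico ⌈η * N⌉ (2 * (N : ℤ)), ∑ D ∈ Ioc (L A) (U A),
        cor3 (24 * QQ y K) (gg y K k.1.2) (gg y K (E3 k.1.1 k.1.2)) k.1.1 k.1.2 A D := by
  classical
  obtain ⟨⟨α, δ⟩, bD, bE, bF⟩ := k
  simp only at hR hα ⊢
  set M := 24 * QQ y K with hM
  have hk' : (0 ≤ α ∧ α < M) ∧ (0 ≤ δ ∧ δ < M) := by
    simpa [Keys, mem_product, mem_Ico] using hk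
  obtain ⟨⟨ha0, ha1⟩, hd0, hd1⟩ := hk'
  have hcl : ∀ x a : ℤ, 0 ≤ a → a < M → (x % M = a ↔ x ≡ a [ZMOD M]) := by
    intro x a h0 h1
    unfold Int.ModEq
    rw [Int.emod_eq_of_lt h0 h1]
  have hc0 : 0 < ⌈η * N⌉ := Int.ceil_pos.2 hη
  have e1 : ∑ z ∈ Hk M N Y η ((α, δ), bD, bE, bF), mm y K z.2 * mm y K (E3 z.1 z.2) =
      ∑ z ∈ Hk M N Y η ((α, δ), bD, bE, bF),
        cor3 M (gg y K δ) (gg y K (E3 α δ)) α δ z.1 z.2 := by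
    apply sum_congr rfl
    intro z hz
    simp only [Hk, mem_filter, key, Prod.mk.injEq] at hz
    obtain ⟨-, -, -, -, -, -, -, ⟨h1, h2⟩, -⟩ := hz
    rw [hcl _ _ ha0 ha1] at h1
    rw [hcl _ _ hd0 hd1] at h2
    unfold cor3 mm
    rw [if_pos ⟨h1, h2⟩, gg_congr h2, gg_congr (E3_congr h1 h2)]
  rw [e1]
  have e2 : ∑ A ∈ Ico ⌈η * N⌉ (2 * (N : ℤ)), ∑ D ∈ Ioc (L A) (U A),
        cor3 M (gg y K δ) (gg y K (E3 α δ)) α δ A D =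
      ∑ z ∈ (Ico ⌈η * N⌉ (2 * (N : ℤ)) ×ˢ Icc (-(N : ℤ) ^ 3) ((N : ℤ) ^ 3)).filter
        (fun z => L z.1 < z.2 ∧ z.2 ≤ U z.1), cor3 M (gg y K δ) (gg y K (E3 α δ)) α δ z.1 z.2 := by
    rw [sum_filter, sum_product]
    apply sum_congr rfl
    intro A _
    rw [← sum_filter]
    apply sum_congr _ (fun _ _ => rfl)
    ext D
    simp only [mem_Ioc, mem_filter, mem_Icc]
    have := hb A
    constructor
    · rintro ⟨h1, h2⟩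
      exact ⟨⟨by omega, by omega⟩, h1, h2⟩
    · rintro ⟨_, h⟩; exact h
  rw [e2]
  apply sum_subset
  · intro z hz
    simp only [Hk, Bx3, mem_filter, mem_product, mem_Icc, key, Prod.mk.injEq] at hz
    obtain ⟨⟨⟨a1, a2⟩, a3, a4⟩, h1, h2, h3, h4, h5, h5', -, h6, h7, h8⟩ := hz
    simp only [mem_filter, mem_product, mem_Icc, mem_Ico]
    have habs : (z.1 : ℝ) ≤ 2 * N := by exact_mod_cast a2
    exact ⟨⟨⟨Int.ceil_le.2 h2, h3⟩, a3, a4⟩, (hR z.1 z.2 h2 habs h5').1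
      ⟨h1, (sg_pos h4).1 h6, (sg_pos h5).1 h7, (sg_pos (F_ne h5')).1 h8⟩⟩
  · intro z hz hz'
    unfold cor3
    apply if_neg
    rintro ⟨h1, h2⟩
    apply hz'
    simp only [mem_filter, mem_product, mem_Icc, mem_Ico] at hz
    obtain ⟨⟨⟨b1, b3⟩, b6, b7⟩, b8⟩ := hz
    have habs : (z.1 : ℝ) ≤ 2 * N := by exact_mod_cast b3.le
    have h3 : ¬ (3 : ℤ) ∣ z.1 := by
      have h4 : z.1 ≡ α [ZMOD 3] := by
        apply h1.of_dvd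
        rw [hM]
        push_cast
        exact ⟨8 * (QQ y K : ℤ), by ring⟩
      intro h5
      exact hα (h4.dvd_iff.1 h5)
    obtain ⟨c1, c2, c3, c4⟩ := (hR z.1 z.2 (Int.ceil_le.1 b1) habs h3).2 b8
    have d1 : z.2 ≠ 0 := by rintro h0; rw [h0] at c2; simp at c2
    have d2 : E3 z.1 z.2 ≠ 0 := by rintro h0; rw [h0] at c3; simp at c3
    simp only [Hk, Bx3, mem_filter, mem_product, mem_Icc, key, Prod.mk.injEq]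
    exact ⟨⟨⟨by omega, b3.le⟩, b6, b7⟩, c1, Int.ceil_le.1 b1, b3, d1, d2, h3,
      ⟨(hcl _ _ ha0 ha1).2 h1, (hcl _ _ hd0 hd1).2 h2⟩,
      (sg_pos d1).2 c2, (sg_pos d2).2 c3, (sg_pos (F_ne h3)).2 c4⟩

lemma inner_split {N : ℕ} {L U : ℤ → ℤ} (f : ℤ → ℤ → ℤ)
    (hb : ∀ A, -(N : ℤ) ^ 3 ≤ L A ∧ L A ≤ U A ∧ U A ≤ (N : ℤ) ^ 3) (S : Finset ℤ) :
    ∑ A ∈ S, ∑ D ∈ Ioc (L A) (U A), f A D =
      ∑ A ∈ S, ∑ D ∈ Ioc (-(N : ℤ) ^ 3) (U A), f A D - ∑ A ∈ S, ∑ D ∈ Ioc (-(N : ℤ) ^ 3) (L A), f A D := by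
  rw [← sum_sub_distrib]
  apply sum_congr rfl
  intro A _
  obtain ⟨h1, h2, h3⟩ := hb A
  have h : Ioc (-(N : ℤ) ^ 3) (U A) = Ioc (-(N : ℤ) ^ 3) (L A) ∪ Ioc (L A) (U A) := by
    ext D; simp only [mem_union, mem_Ioc]; omega
  have hd : Disjoint (Ioc (-(N : ℤ) ^ 3) (L A)) (Ioc (L A) (U A)) := by
    rw [disjoint_left]; intro D; simp only [mem_Ioc]; omega
  rw [h, sum_union hd]; ring

lemma Hk_bound (hCor : S_COR32) {y K : ℕ} {η V ε : ℝ} (hη : 0 < η) (hV : 0 < V) (hε : 0 < ε)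
    (k : (ℤ × ℤ) × (Bool × Bool × Bool)) (hk : k ∈ Keys (24 * QQ y K)) (hα : ¬ (3 : ℤ) ∣ k.1.1) :
    ∃ N0 : ℕ, ∀ N : ℕ, N0 ≤ N → 1 ≤ N → ∀ (Y : ℝ) (L U : ℤ → ℤ),
      (∀ A, -(N : ℤ) ^ 3 ≤ L A ∧ L A ≤ U A ∧ U A ≤ (N : ℤ) ^ 3) →
      (∑ A ∈ Ico (0 : ℤ) (2 * N), |((L (A + 1) - L A : ℤ) : ℝ)| ≤ V * (N : ℝ) ^ 3) →
      (∑ A ∈ Ico (0 : ℤ) (2 * N), |((U (A + 1) - U A : ℤ) : ℝ)| ≤ V * (N : ℝ) ^ 3) →
      (∀ a c : ℤ, η * N ≤ (a : ℝ) → (a : ℝ) ≤ 2 * N → ¬ (3 : ℤ) ∣ a →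
        ((Reg3 Y a c ∧ 0 < sg k.2.1 * c ∧ 0 < sg k.2.2.1 * E3 a c ∧
          0 < sg k.2.2.2 * (12 * c - a ^ 3)) ↔ (L a < c ∧ c ≤ U a))) →
      |((∑ z ∈ Hk (24 * QQ y K) N Y η k, mm y K z.2 * mm y K (E3 z.1 z.2) : ℤ) : ℝ)| ≤
        2 * ε * (N : ℝ) ^ 4 := by
  have hM : 0 < 24 * QQ y K := Nat.mul_pos (by norm_num) (QQ_pos y K)
  obtain ⟨N0, hN0⟩ := hCor (24 * QQ y K) (gg y K k.1.2) (gg y K (E3 k.1.1 k.1.2)) hM (gg_pos _ _ _)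
    (gg_pos _ _ _) ((gg_dvd_QQ _ _ _).mul_left 24) ((gg_dvd_QQ _ _ _).mul_left 24) k.1.1 k.1.2
    (gg_dvd _ _ _) (gg_dvd _ _ _) V ε hV hε
  refine ⟨N0, fun N hN hN1 Y L U hb hL hU hR => ?_⟩
  have hNr : (1 : ℝ) ≤ N := by exact_mod_cast hN1
  have hηN : 0 < η * N := by positivity
  rw [sum_Hk hηN hk hα hb hR, inner_split _ hb]
  push_cast
  refine (abs_sub _ _).trans ?_
  have hb1 : ∀ A, -(N : ℤ) ^ 3 ≤ U A ∧ U A ≤ (N : ℤ) ^ 3 := fun A => ⟨(hb A).1.trans (hb A).2.1, (hb A).2.2⟩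
  have hb2 : ∀ A, -(N : ℤ) ^ 3 ≤ L A ∧ L A ≤ (N : ℤ) ^ 3 := fun A => ⟨(hb A).1, (hb A).2.1.trans (hb A).2.2⟩
  have hc : 0 < ⌈η * N⌉ := Int.ceil_pos.2 hηN
  have h1 := hN0 N hN ⌈η * N⌉ (2 * N) hc.le le_rfl U hb1 hU
  have h2 := hN0 N hN ⌈η * N⌉ (2 * N) hc.le le_rfl L hb2 hL
  push_cast at h1 h2
  linarith

open Classical in
/-- the admissible, not exceptional pairs of the region -/
noncomputable def GG (y K N : ℕ) (Y η : ℝ) : Finset (ℤ × ℤ) :=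
  (Bx3 N).filter fun z => Adm3 z.1 z.2 ∧ Reg3 Y z.1 z.2 ∧
    η * N ≤ (z.1 : ℝ) ∧ z.1 < 2 * N ∧ ¬ Bad3 y K z.1 z.2

open Classical in
/-- the exceptional pairs -/
noncomputable def BB (y K N : ℕ) : Finset (ℤ × ℤ) :=
  (Bx3 N).filter fun z => ¬ (3 : ℤ) ∣ z.1 ∧ z.2 ≠ 0 ∧ E3 z.1 z.2 ≠ 0 ∧ Bad3 y K z.1 z.2

lemma key_eq {M : ℕ} {z z' : ℤ × ℤ} (h : key M z = key M z') : z.1 ≡ z'.1 [ZMOD M] ∧
    z.2 ≡ z'.2 [ZMOD M] ∧ (0 < z.2 ↔ 0 < z'.2) ∧ (0 < E3 z.1 z.2 ↔ 0 < E3 z'.1 z'.2) := by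
  simp only [key, Prod.mk.injEq, decide_eq_decide] at h
  exact ⟨h.1.1, h.1.2, h.2.1, h.2.2.1⟩

/-- a pair congruent to an admissible pair is admissible or exceptional -/
lemma adm_of {y K : ℕ} (hK : 1 ≤ K) {A D A' D' : ℤ} (h : Adm3 A' D') (h1 : A ≡ A' [ZMOD (24 * QQ y K : ℕ)])
    (h2 : D ≡ D' [ZMOD (24 * QQ y K : ℕ)]) (hD : D ≠ 0) (hE : E3 A D ≠ 0) (hB : ¬ Bad3 y K A D) :
    Adm3 A D := by
  refine ⟨?_, hD, hE, ?_⟩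
  · have h3 : A ≡ A' [ZMOD 3] := by
      apply h1.of_dvd
      push_cast
      exact ⟨8 * (QQ y K : ℤ), by ring⟩
    exact fun h4 => h.1 (h3.dvd_iff.1 h4)
  · rw [Int.isCoprime_iff_gcd_eq_one]
    by_contra hg
    obtain ⟨p, hp, hpd⟩ := Nat.exists_prime_and_dvd hg
    have hpA : (p : ℤ) ∣ A := (Int.natCast_dvd_natCast.2 hpd).trans (Int.gcd_dvd_left ..)
    have hpD : (p : ℤ) ∣ D := (Int.natCast_dvd_natCast.2 hpd).trans (Int.gcd_dvd_right ..)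
    rcases lt_or_ge y p with hy | hy
    · exact hB ⟨p, hp, Or.inl ⟨hy, Or.inr (Or.inr ⟨hpA, hpD⟩)⟩⟩
    · have hpQ : (p : ℤ) ∣ (24 * QQ y K : ℕ) := by
        apply Int.natCast_dvd_natCast.2
        apply Dvd.dvd.mul_left
        unfold QQ
        exact dvd_pow ((Nat.Prime.dvd_factorial hp).2 hy) (by omega)
      have hpA' : (p : ℤ) ∣ A' := by
        have := (hpQ.trans h1.dvd)
        have h5 := dvd_add this hpA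
        rwa [sub_add_cancel] at h5
      have hpD' : (p : ℤ) ∣ D' := by
        have := (hpQ.trans h2.dvd)
        have h5 := dvd_add this hpD
        rwa [sub_add_cancel] at h5
      have h6 := h.2.2.2.isUnit_of_dvd' hpA' hpD'
      have := Int.isUnit_iff_natAbs_eq.1 h6
      simp at this
      exact hp.one_lt.ne' this

lemma fibre (hInv : S_INV3) {y K N : ℕ} (hK : 1 ≤ K) {Y η : ℝ}
    (k : (ℤ × ℤ) × (Bool × Bool × Bool)) (T : ℝ) (hT : 0 ≤ T)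
    (hk : ¬ (3 : ℤ) ∣ k.1.1 →
      |((∑ z ∈ Hk (24 * QQ y K) N Y η k, mm y K z.2 * mm y K (E3 z.1 z.2) : ℤ) : ℝ)| ≤ T) :
    |((∑ z ∈ (GG y K N Y η).filter (fun z => key (24 * QQ y K) z = k), w3 z.1 z.2 : ℤ) : ℝ)| ≤
      T + (((BB y K N).filter (fun z => key (24 * QQ y K) z = k)).card : ℝ) := by
  classical
  set M := 24 * QQ y K with hM
  set Gk := (GG y K N Y η).filter (fun z => key M z = k) with hGk
  rcases Gk.eq_empty_or_nonempty with h0 | ⟨z0, hz0⟩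
  · rw [h0]; simp only [sum_empty, Int.cast_zero, abs_zero]; positivity
  obtain ⟨hI1, hI2⟩ := hInv y K hK
  have hz0' : Adm3 z0.1 z0.2 ∧ ¬ Bad3 y K z0.1 z0.2 ∧ key M z0 = k := by
    simp only [hGk, GG, mem_filter] at hz0
    exact ⟨hz0.1.2.1, hz0.1.2.2.2.2.2, hz0.2⟩
  obtain ⟨hA0, hB0, hk0⟩ := hz0'
  have h3dvd : ∀ {x x' : ℤ}, x ≡ x' [ZMOD M] → ((3 : ℤ) ∣ x ↔ (3 : ℤ) ∣ x') := by
    intro x x' h
    have h3 : x ≡ x' [ZMOD 3] := by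
      apply h.of_dvd
      rw [hM]
      push_cast
      exact ⟨8 * (QQ y K : ℤ), by ring⟩
    exact h3.dvd_iff
  have hα : ¬ (3 : ℤ) ∣ k.1.1 := by
    have h1 : k.1.1 = z0.1 % M := by rw [← hk0]; rfl
    rw [h1, h3dvd (Int.mod_modEq z0.1 M)]
    exact hA0.1
  have hTb := hk hα
  set c : ℤ := w3 z0.1 z0.2 * mm y K z0.2 * mm y K (E3 z0.1 z0.2) with hc
  have hcabs : |c| ≤ 1 := by
    rw [hc, abs_mul, abs_mul]
    have h1 := w3_abs z0.1 z0.2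
    have h2 := mm_abs y K z0.2
    have h3 := mm_abs y K (E3 z0.1 z0.2)
    exact mul_le_one₀ (mul_le_one₀ h1 (abs_nonneg _) h2) (abs_nonneg _) h3
  have hw : ∀ z ∈ Gk, w3 z.1 z.2 = c * (mm y K z.2 * mm y K (E3 z.1 z.2)) := by
    intro z hz
    simp only [hGk, GG, mem_filter] at hz
    obtain ⟨⟨-, hA, -, -, -, hB⟩, hkz⟩ := hz
    obtain ⟨k1, k2, k4, k5⟩ := key_eq (hkz.trans hk0.symm)
    have h1 := hI2 z.1 z.2 z0.1 z0.2 hA hA0 hB hB0 k1 k2 k4 k5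
    obtain ⟨s1, s2⟩ := hI1 z.1 z.2 hA hB
    rw [hc, ← h1]
    calc w3 z.1 z.2 = w3 z.1 z.2 * (mm y K z.2 ^ 2) * (mm y K (E3 z.1 z.2) ^ 2) := by rw [s1, s2]; ring
      _ = _ := by ring
  have hsub : Gk ⊆ Hk M N Y η k := by
    intro z hz
    simp only [hGk, GG, mem_filter] at hz
    obtain ⟨⟨hbx, hA, hR, hη, hlt, hB⟩, hkz⟩ := hz
    simp only [Hk, mem_filter]
    exact ⟨hbx, hR, hη, hlt, hA.2.1, hA.2.2.1, hA.1, hkz⟩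
  have hdiff : Hk M N Y η k \ Gk ⊆ (BB y K N).filter (fun z => key M z = k) := by
    intro z hz
    obtain ⟨hz1, hz2⟩ := Finset.mem_sdiff.1 hz
    simp only [Hk, mem_filter] at hz1
    obtain ⟨hbx, hR, hη, hlt, hD, hE, h3, hkz⟩ := hz1
    obtain ⟨k1, k2, k4, k5⟩ := key_eq (hkz.trans hk0.symm)
    have hbad : Bad3 y K z.1 z.2 := by
      by_contra hB
      apply hz2
      have hA := adm_of hK hA0 k1 k2 hD hE hB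
      simp only [hGk, GG, mem_filter]
      exact ⟨⟨hbx, hA, hR, hη, hlt, hB⟩, hkz⟩
    simp only [BB, mem_filter]
    exact ⟨⟨hbx, h3, hD, hE, hbad⟩, hkz⟩
  rw [sum_congr rfl hw, ← mul_sum]
  push_cast
  push_cast at hTb
  rw [abs_mul]
  have h1 : |(c : ℝ)| ≤ 1 := cast_abs_one hcabs
  have h2 : (∑ z ∈ Gk, ((mm y K z.2 : ℝ) * (mm y K (E3 z.1 z.2) : ℝ))) =
      ∑ z ∈ Hk M N Y η k, ((mm y K z.2 : ℝ) * (mm y K (E3 z.1 z.2) : ℝ)) -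
        ∑ z ∈ Hk M N Y η k \ Gk, ((mm y K z.2 : ℝ) * (mm y K (E3 z.1 z.2) : ℝ)) := by
    rw [← sum_sdiff hsub]; ring
  have h3 : |∑ z ∈ Hk M N Y η k \ Gk, ((mm y K z.2 : ℝ) * (mm y K (E3 z.1 z.2) : ℝ))| ≤
      (((BB y K N).filter (fun z => key M z = k)).card : ℝ) := by
    refine (abs_sum_le_sum_abs _ _).trans ?_
    have : ∀ z ∈ Hk M N Y η k \ Gk, |((mm y K z.2 : ℝ) * (mm y K (E3 z.1 z.2) : ℝ))| ≤ 1 := by
      intro z _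
      rw [abs_mul]
      exact mul_le_one₀ (cast_abs_one (mm_abs _ _ _)) (abs_nonneg _) (cast_abs_one (mm_abs _ _ _))
    refine (sum_le_sum this).trans ?_
    rw [sum_const, nsmul_eq_mul, mul_one]
    exact_mod_cast card_le_card hdiff
  rw [h2]
  calc |(c : ℝ)| * |∑ z ∈ Hk M N Y η k, ((mm y K z.2 : ℝ) * (mm y K (E3 z.1 z.2) : ℝ)) -
        ∑ z ∈ Hk M N Y η k \ Gk, ((mm y K z.2 : ℝ) * (mm y K (E3 z.1 z.2) : ℝ))|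
      ≤ 1 * |∑ z ∈ Hk M N Y η k, ((mm y K z.2 : ℝ) * (mm y K (E3 z.1 z.2) : ℝ)) -
        ∑ z ∈ Hk M N Y η k \ Gk, ((mm y K z.2 : ℝ) * (mm y K (E3 z.1 z.2) : ℝ))| :=
        mul_le_mul_of_nonneg_right h1 (abs_nonneg _)
    _ ≤ _ := by
      rw [one_mul]
      exact (abs_sub _ _).trans (add_le_add hTb h3)

lemma card_c {N : ℕ} (hN : 1 ≤ N) : (((N : ℤ) ^ 3 + 1 - -(N : ℤ) ^ 3).toNat : ℝ) ≤ 3 * (N : ℝ) ^ 3 := by
  have hNr : (1 : ℝ) ≤ N := by exact_mod_cast hN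
  have h3 : (((N : ℤ) ^ 3 + 1 - -(N : ℤ) ^ 3).toNat : ℤ) = 2 * (N : ℤ) ^ 3 + 1 := by
    have : 0 ≤ (N : ℤ) ^ 3 := by positivity
    omega
  have h4 : (((N : ℤ) ^ 3 + 1 - -(N : ℤ) ^ 3).toNat : ℝ) = 2 * (N : ℝ) ^ 3 + 1 := by exact_mod_cast h3
  rw [h4]
  have : (1 : ℝ) ≤ (N : ℝ) ^ 3 := one_le_pow₀ hNr
  linarith

/-- the pairs with a small first coordinate or first coordinate `2N` -/
lemma Bx_card_small {N : ℕ} {η : ℝ} (hη : 0 < η) (hN : 1 ≤ N) (hηN : 1 ≤ η * N) :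
    (((Bx3 N).filter fun z : ℤ × ℤ => ¬ (η * N ≤ (z.1 : ℝ) ∧ z.1 < 2 * (N : ℤ))).card : ℝ) ≤ 6 * η * (N : ℝ) ^ 4 := by
  have hNr : (1 : ℝ) ≤ N := by exact_mod_cast hN
  have hsub : (Bx3 N).filter (fun z : ℤ × ℤ => ¬ (η * N ≤ (z.1 : ℝ) ∧ z.1 < 2 * (N : ℤ))) ⊆
      (Icc 1 ⌊η * N⌋ ∪ {2 * (N : ℤ)}) ×ˢ Icc (-(N : ℤ) ^ 3) ((N : ℤ) ^ 3) := by
    intro z hz
    simp only [Bx3, mem_filter, mem_product, mem_Icc, mem_union, mem_singleton, not_and_or, not_le,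
      not_lt] at hz ⊢
    obtain ⟨⟨h1, h2⟩, h3⟩ := hz
    refine ⟨?_, h2⟩
    rcases h3 with h3 | h3
    · exact Or.inl ⟨h1.1, Int.le_floor.2 h3.le⟩
    · exact Or.inr (le_antisymm h1.2 h3)
  have h1 := card_le_card hsub
  rw [card_product, Int.card_Icc] at h1
  have h0 : 0 ≤ ⌊η * N⌋ := Int.floor_nonneg.2 (by positivity)
  have h2 : ((Icc 1 ⌊η * N⌋ ∪ {2 * (N : ℤ)}).card : ℝ) ≤ 2 * (η * N) := by
    have h3 := card_union_le (Icc 1 ⌊η * N⌋) {2 * (N : ℤ)}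
    rw [Int.card_Icc, card_singleton] at h3
    have h4 : ((⌊η * N⌋ + 1 - 1).toNat : ℤ) = ⌊η * N⌋ := by omega
    have h5 : ((⌊η * N⌋ + 1 - 1).toNat : ℝ) = (⌊η * N⌋ : ℝ) := by exact_mod_cast h4
    have h6 : ((Icc 1 ⌊η * N⌋ ∪ {2 * (N : ℤ)}).card : ℝ) ≤ ((⌊η * N⌋ + 1 - 1).toNat : ℝ) + 1 := by
      exact_mod_cast h3
    rw [h5] at h6
    have := Int.floor_le (η * N)
    linarith
  calc (((Bx3 N).filter fun z : ℤ × ℤ => ¬ (η * N ≤ (z.1 : ℝ) ∧ z.1 < 2 * (N : ℤ))).card : ℝ)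
      ≤ ((Icc 1 ⌊η * N⌋ ∪ {2 * (N : ℤ)}).card : ℝ) * (((N : ℤ) ^ 3 + 1 - -(N : ℤ) ^ 3).toNat : ℝ) := by
        exact_mod_cast h1
    _ ≤ (2 * (η * N)) * (3 * (N : ℝ) ^ 3) := mul_le_mul h2 (card_c hN) (by positivity) (by positivity)
    _ = _ := by ring

end ANA3

open Finset Filter Topology
open Pool.Agent.K1H81.TT (QQ gg mm)
open Pool.Agent.K1H81.TT.ANA (jac_abs mm_abs cast_abs_one Keys Keys_card QQ_pos gg_pos gg_dvd_QQ gg_dvd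
  gg_congr sg sg_or sg_pos)

open ANA3 in
theorem t_ANA3 (hReg : S_REG3) (hBad : S_BAD3) (hInv : S_INV3) (hCor : S_COR32) : S_ANA3 := by
  classical
  intro ε hε
  set ε0 := ε / 16 with hε0
  have hε0p : 0 < ε0 := by positivity
  obtain ⟨y, K, hK, N1, hN1⟩ := hBad (ε0 / 4) (by positivity)
  set η := ε0 / 24 with hη
  have hηp : 0 < η := by positivity
  obtain ⟨V, hV, N2, hN2⟩ := hReg η hηp
  set M := 24 * QQ y K with hM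
  have hMp : 0 < M := Nat.mul_pos (by norm_num) (QQ_pos y K)
  set J : ℝ := ((Keys M).card : ℝ) with hJ
  have hJp : 0 < J := by
    rw [hJ, Keys_card]; push_cast; positivity
  set ε2 := ε0 / (8 * J) with hε2
  have hε2p : 0 < ε2 := by positivity
  have hex : ∀ k : (ℤ × ℤ) × (Bool × Bool × Bool), ∃ N0 : ℕ, k ∈ Keys M → ¬ (3 : ℤ) ∣ k.1.1 →
      ∀ N : ℕ, N0 ≤ N → 1 ≤ N → ∀ (Y : ℝ) (L U : ℤ → ℤ),
      (∀ A, -(N : ℤ) ^ 3 ≤ L A ∧ L A ≤ U A ∧ U A ≤ (N : ℤ) ^ 3) →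
      (∑ A ∈ Ico (0 : ℤ) (2 * N), |((L (A + 1) - L A : ℤ) : ℝ)| ≤ V * (N : ℝ) ^ 3) →
      (∑ A ∈ Ico (0 : ℤ) (2 * N), |((U (A + 1) - U A : ℤ) : ℝ)| ≤ V * (N : ℝ) ^ 3) →
      (∀ a c : ℤ, η * N ≤ (a : ℝ) → (a : ℝ) ≤ 2 * N → ¬ (3 : ℤ) ∣ a →
        ((Reg3 Y a c ∧ 0 < sg k.2.1 * c ∧ 0 < sg k.2.2.1 * E3 a c ∧
          0 < sg k.2.2.2 * (12 * c - a ^ 3)) ↔ (L a < c ∧ c ≤ U a))) →
      |((∑ z ∈ Hk M N Y η k, mm y K z.2 * mm y K (E3 z.1 z.2) : ℤ) : ℝ)| ≤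
        2 * ε2 * (N : ℝ) ^ 4 := by
    intro k
    by_cases hk : k ∈ Keys M ∧ ¬ (3 : ℤ) ∣ k.1.1
    · obtain ⟨N0, h⟩ := Hk_bound hCor hηp hV hε2p k hk.1 hk.2
      exact ⟨N0, fun _ _ => h⟩
    · exact ⟨0, fun h h' => absurd ⟨h, h'⟩ hk⟩
  choose N3 hN3 using hex
  set N4 : ℕ := (Keys M).sup N3 with hN4
  refine ⟨max (max (N1 : ℝ) N2) (max (N4 : ℝ) (max 1 (1 / η))), fun Y hY => ?_⟩
  have hY1 : (N1 : ℝ) ≤ Y := le_trans (le_trans (le_max_left _ _) (le_max_left _ _)) hY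
  have hY2 : (N2 : ℝ) ≤ Y := le_trans (le_trans (le_max_right _ _) (le_max_left _ _)) hY
  have hY4 : (N4 : ℝ) ≤ Y := le_trans (le_trans (le_max_left _ _) (le_max_right _ _)) hY
  have hY5 : (1 : ℝ) ≤ Y :=
    le_trans (le_trans (le_trans (le_max_left _ _) (le_max_right _ _)) (le_max_right _ _)) hY
  have hY6 : 1 / η ≤ Y :=
    le_trans (le_trans (le_trans (le_max_right _ _) (le_max_right _ _)) (le_max_right _ _)) hY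
  set N := ⌈Y⌉₊ with hN
  have hNY : Y ≤ N := Nat.le_ceil Y
  have hNY1 : (N : ℝ) ≤ Y + 1 := (Nat.ceil_lt_add_one (by linarith)).le
  have hN1' : N1 ≤ N := by exact_mod_cast hY1.trans hNY
  have hN2' : N2 ≤ N := by exact_mod_cast hY2.trans hNY
  have hN4' : N4 ≤ N := by exact_mod_cast hY4.trans hNY
  have hN5 : 1 ≤ N := by exact_mod_cast hY5.trans hNY
  have hNr : (1 : ℝ) ≤ N := by exact_mod_cast hN5
  have hηN : 1 ≤ η * N := by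
    have := hY6.trans hNY
    rw [div_le_iff₀ hηp] at this
    linarith
  set F := FS3 Y with hF
  set S1 := F.filter (fun z : ℤ × ℤ => ¬ (η * N ≤ (z.1 : ℝ) ∧ z.1 < 2 * (N : ℤ))) with hS1
  set S2 := (F.filter (fun z : ℤ × ℤ => (η * N ≤ (z.1 : ℝ) ∧ z.1 < 2 * (N : ℤ)))).filter
    (fun z => Bad3 y K z.1 z.2) with hS2
  set S3 := (F.filter (fun z : ℤ × ℤ => (η * N ≤ (z.1 : ℝ) ∧ z.1 < 2 * (N : ℤ)))).filter
    (fun z => ¬ Bad3 y K z.1 z.2) with hS3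
  have e1 : ∑ z ∈ F, w3 z.1 z.2 =
      (∑ z ∈ S2, w3 z.1 z.2 + ∑ z ∈ S3, w3 z.1 z.2) + ∑ z ∈ S1, w3 z.1 z.2 := by
    rw [hS2, hS3, sum_filter_add_sum_filter_not, hS1, sum_filter_add_sum_filter_not]
  have hS3' : S3 = GG y K N Y η := by
    ext z
    simp only [hS3, hF, FS3, GG, mem_filter, ← hN]
    constructor
    · rintro ⟨⟨⟨h1, h2, h3⟩, h4, h5⟩, h6⟩
      exact ⟨h1, h2, h3, h4, h5, h6⟩
    · rintro ⟨h1, h2, h3, h4, h5, h6⟩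
      exact ⟨⟨⟨h1, h2, h3⟩, h4, h5⟩, h6⟩
  have b1 : |((∑ z ∈ S1, w3 z.1 z.2 : ℤ) : ℝ)| ≤ ε0 / 4 * (N : ℝ) ^ 4 := by
    push_cast
    refine (abs_sum_le_sum_abs _ _).trans ((sum_le_sum (fun z _ => cast_abs_one (w3_abs z.1 z.2))).trans ?_)
    rw [sum_const, nsmul_eq_mul, mul_one]
    have h1 : S1 ⊆ (Bx3 N).filter (fun z : ℤ × ℤ => ¬ (η * N ≤ (z.1 : ℝ) ∧ z.1 < 2 * (N : ℤ))) := by
      intro z hz
      simp only [hS1, hF, FS3, mem_filter, ← hN] at hz ⊢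
      exact ⟨hz.1.1, hz.2⟩
    have h2 : (S1.card : ℝ) ≤ 6 * η * (N : ℝ) ^ 4 :=
      le_trans (by exact_mod_cast card_le_card h1) (Bx_card_small hηp hN5 hηN)
    refine h2.trans (le_of_eq ?_)
    rw [hη]; ring
  have b2 : |((∑ z ∈ S2, w3 z.1 z.2 : ℤ) : ℝ)| ≤ ε0 / 4 * (N : ℝ) ^ 4 := by
    push_cast
    refine (abs_sum_le_sum_abs _ _).trans ((sum_le_sum (fun z _ => cast_abs_one (w3_abs z.1 z.2))).trans ?_)
    rw [sum_const, nsmul_eq_mul, mul_one]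
    have h1 : S2 ⊆ (Bx3 N).filter fun z => ¬ (3 : ℤ) ∣ z.1 ∧ z.2 ≠ 0 ∧ E3 z.1 z.2 ≠ 0 ∧
        Bad3 y K z.1 z.2 := by
      intro z hz
      simp only [hS2, hF, FS3, mem_filter, ← hN] at hz ⊢
      exact ⟨hz.1.1.1, hz.1.1.2.1.1, hz.1.1.2.1.2.1, hz.1.1.2.1.2.2.1, hz.2⟩
    exact le_trans (by exact_mod_cast card_le_card h1) (hN1 N hN1')
  have b3 : |((∑ z ∈ S3, w3 z.1 z.2 : ℤ) : ℝ)| ≤ ε0 / 4 * (N : ℝ) ^ 4 + ε0 / 4 * (N : ℝ) ^ 4 := by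
    rw [hS3']
    have e3 : ∑ z ∈ GG y K N Y η, w3 z.1 z.2 =
        ∑ k ∈ Keys M, ∑ z ∈ (GG y K N Y η).filter (fun z => key M z = k), w3 z.1 z.2 :=
      (sum_fiberwise_of_maps_to (fun z _ => key_mem hMp z) _).symm
    rw [e3]
    push_cast
    refine (abs_sum_le_sum_abs _ _).trans ?_
    have h4 : ∀ k ∈ Keys M, |∑ z ∈ (GG y K N Y η).filter (fun z => key M z = k), (w3 z.1 z.2 : ℝ)| ≤
        2 * ε2 * (N : ℝ) ^ 4 + (((BB y K N).filter (fun z => key M z = k)).card : ℝ) := by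
      intro k hk
      obtain ⟨L, U, hb, hL, hU, hR⟩ := hN2 N Y hN2' hY5 hNY hNY1 (sg k.2.1) (sg k.2.2.1) (sg k.2.2.2)
        (sg_or _) (sg_or _) (sg_or _)
      have h5 := fibre hInv (y := y) (N := N) hK (Y := Y) (η := η) k (2 * ε2 * (N : ℝ) ^ 4)
        (by positivity) (fun hα => hN3 k hk hα N ((le_sup hk).trans hN4') hN5 Y L U hb hL hU hR)
      push_cast at h5
      exact h5
    refine (sum_le_sum h4).trans ?_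
    rw [sum_add_distrib, sum_const, nsmul_eq_mul]
    have h7 : ∑ k ∈ Keys M, (((BB y K N).filter (fun z => key M z = k)).card : ℝ) = ((BB y K N).card : ℝ) := by
      have := card_eq_sum_card_fiberwise (s := BB y K N) (t := Keys M) (f := key M)
        (fun z _ => key_mem hMp z)
      rw [this]; push_cast; rfl
    rw [h7]
    refine add_le_add ?_ (hN1 N hN1')
    rw [← hJ, hε2]
    apply le_of_eq
    field_simp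
    ring
  rw [e1]
  push_cast
  push_cast at b1 b2 b3
  have h8 : |(∑ z ∈ S2, (w3 z.1 z.2 : ℝ) + ∑ z ∈ S3, (w3 z.1 z.2 : ℝ)) + ∑ z ∈ S1, (w3 z.1 z.2 : ℝ)| ≤
      ε0 * (N : ℝ) ^ 4 := by
    refine (abs_add_le _ _).trans ?_
    have := abs_add_le (∑ z ∈ S2, (w3 z.1 z.2 : ℝ)) (∑ z ∈ S3, (w3 z.1 z.2 : ℝ))
    linarith
  refine h8.trans ?_
  have h9 : (N : ℝ) ≤ 2 * Y := by linarith
  have h10 : (N : ℝ) ^ 4 ≤ 16 * Y ^ 4 := by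
    calc (N : ℝ) ^ 4 ≤ (2 * Y) ^ 4 := pow_le_pow_left₀ (by positivity) h9 4
      _ = _ := by ring
  calc ε0 * (N : ℝ) ^ 4 ≤ ε0 * (16 * Y ^ 4) := mul_le_mul_of_nonneg_left h10 hε0p.le
    _ = ε * Y ^ 4 := by rw [hε0]; ring

end Pool.Agent.K1H81.T3
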