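import Pool.Agent.K1H81.T3.Stm
import Pool.Agent.K1H81.TT.BAD

/-! Piece BAD3 of project T3 (helper81): few exceptional pairs. -/

set_option autoImplicit false

namespace Pool.Agent.K1H81.T3

open Finset
open Pool.Agent.K1H81.TT.BAD (cnt_mod prod_card sum_sq_le le_of_sq_le)

namespace BAD3

theorem card_A (N : ℕ) : ((Icc (1 : ℤ) (2 * N)).card : ℝ) = 2 * N := by
  rw [Int.card_Icc]
  have : (2 * (N : ℤ) + 1 - 1).toNat = 2 * N := by omega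
  rw [this]
  push_cast
  ring

/-- Fibrewise bound. -/
theorem fib (N : ℕ) (P : ℤ × ℤ → Prop) [DecidablePred P] (c : ℝ)
    (h : ∀ A : ℤ, ∀ [DecidablePred fun D => P (A, D)],
      (((Icc (-(N : ℤ) ^ 3) ((N : ℤ) ^ 3)).filter fun D => P (A, D)).card : ℝ) ≤ c) :
    (((Bx3 N).filter P).card : ℝ) ≤ 2 * N * c := by
  classical
  have e : ((Bx3 N).filter P).card = ∑ A ∈ Icc (1 : ℤ) (2 * N),
      ((Icc (-(N : ℤ) ^ 3) ((N : ℤ) ^ 3)).filter fun D => P (A, D)).card := prod_card _ _ P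
  rw [e]
  push_cast
  calc ∑ A ∈ Icc (1 : ℤ) (2 * N),
        (((Icc (-(N : ℤ) ^ 3) ((N : ℤ) ^ 3)).filter fun D => P (A, D)).card : ℝ)
      ≤ ∑ _A ∈ Icc (1 : ℤ) (2 * N), c := Finset.sum_le_sum fun A _ => h A
    _ = 2 * N * c := by rw [Finset.sum_const, nsmul_eq_mul, card_A]

theorem cnt_cube (N q : ℕ) (hq : 1 ≤ q) (v : ℤ) [DecidablePred fun D : ℤ => (q : ℤ) ∣ D - v] :
    (((Icc (-(N : ℤ) ^ 3) ((N : ℤ) ^ 3)).filter (fun D => (q : ℤ) ∣ D - v)).card : ℝ) ≤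
      2 * (N : ℝ) ^ 3 / q + 2 := by
  have h := cnt_mod (N ^ 3) q hq v
  push_cast at h
  exact h

open Classical in
theorem card_D (N q : ℕ) (hq : 1 ≤ q) :
    (((Bx3 N).filter fun z => (q : ℤ) ∣ z.2).card : ℝ) ≤
      2 * N * (2 * (N : ℝ) ^ 3 / q + 2) := by
  apply fib
  intro A _
  refine le_trans ?_ (cnt_cube N q hq 0)
  have h2 : ((Icc (-(N : ℤ) ^ 3) ((N : ℤ) ^ 3)).filter fun D => (q : ℤ) ∣ D).card ≤
      ((Icc (-(N : ℤ) ^ 3) ((N : ℤ) ^ 3)).filter fun D => (q : ℤ) ∣ D - 0).card := by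
    apply Finset.card_le_card
    intro D hD
    rw [Finset.mem_filter] at hD ⊢
    refine ⟨hD.1, ?_⟩
    rw [sub_zero]
    exact hD.2
  exact_mod_cast h2

open Classical in
theorem card_E (N q : ℕ) (hq : 1 ≤ q) (ho : Nat.Coprime q 3) :
    (((Bx3 N).filter fun z => (q : ℤ) ∣ E3 z.1 z.2).card : ℝ) ≤
      2 * N * (2 * (N : ℝ) ^ 3 / q + 2) := by
  apply fib
  intro A _
  by_cases he : ∃ D0 : ℤ, (q : ℤ) ∣ E3 A D0
  · obtain ⟨D0, hD0⟩ := he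
    refine le_trans ?_ (cnt_cube N q hq D0)
    have h2 : ((Icc (-(N : ℤ) ^ 3) ((N : ℤ) ^ 3)).filter fun D => (q : ℤ) ∣ E3 A D).card ≤
        ((Icc (-(N : ℤ) ^ 3) ((N : ℤ) ^ 3)).filter fun D => (q : ℤ) ∣ D - D0).card := by
      apply Finset.card_le_card
      intro D hD
      rw [Finset.mem_filter] at hD ⊢
      refine ⟨hD.1, ?_⟩
      have h3 : (q : ℤ) ∣ 27 * (D - D0) := by
        have h4 := dvd_sub hD0 hD.2
        have h5 : E3 A D0 - E3 A D = 27 * (D - D0) := by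
          unfold E3
          ring
        rwa [h5] at h4
      have h6 : IsCoprime (q : ℤ) 27 := by
        have h7 : Nat.Coprime q 27 := by
          have : Nat.Coprime q (3 ^ 3) := Nat.Coprime.pow_right 3 ho
          simpa using this
        exact_mod_cast Nat.isCoprime_iff_coprime.2 h7
      exact h6.dvd_of_dvd_mul_left h3
    exact_mod_cast h2
  · push Not at he
    rw [Finset.filter_false_of_mem (fun D _ => he D), Finset.card_empty,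
      Nat.cast_zero]
    positivity

open Classical in
theorem card_AD (N q : ℕ) (hq : 1 ≤ q) :
    (((Bx3 N).filter fun z => (q : ℤ) ∣ z.1 ∧ (q : ℤ) ∣ z.2).card : ℝ) ≤
      (2 * (2 * (N : ℝ)) / q + 2) * (2 * (N : ℝ) ^ 3 / q + 2) := by
  unfold Bx3
  have h1 := Finset.filter_product (s := Icc (1 : ℤ) (2 * N))
    (t := Icc (-(N : ℤ) ^ 3) ((N : ℤ) ^ 3)) (fun a => (q : ℤ) ∣ a) (fun a => (q : ℤ) ∣ a)
  have h2 : ((Icc (1 : ℤ) (2 * N) ×ˢ Icc (-(N : ℤ) ^ 3) ((N : ℤ) ^ 3)).filter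
      fun z => (q : ℤ) ∣ z.1 ∧ (q : ℤ) ∣ z.2).card =
      ((Icc (1 : ℤ) (2 * N)).filter fun a => (q : ℤ) ∣ a).card *
      ((Icc (-(N : ℤ) ^ 3) ((N : ℤ) ^ 3)).filter fun a => (q : ℤ) ∣ a).card := by
    rw [← Finset.card_product, ← h1]
  rw [h2]
  push_cast
  have h3 : (((Icc (1 : ℤ) (2 * N)).filter fun a => (q : ℤ) ∣ a).card : ℝ) ≤
      2 * (2 * (N : ℝ)) / q + 2 := by
    have h3 := cnt_mod (2 * N) q hq 0
    push_cast at h3
    refine le_trans ?_ h3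
    have h5 : ((Icc (1 : ℤ) (2 * N)).filter fun a => (q : ℤ) ∣ a).card ≤
        ((Icc (-(2 * (N : ℤ))) (2 * N)).filter fun a => (q : ℤ) ∣ a - 0).card := by
      apply Finset.card_le_card
      intro a ha
      rw [Finset.mem_filter, Finset.mem_Icc] at ha ⊢
      refine ⟨⟨by omega, ha.1.2⟩, ?_⟩
      rw [sub_zero]
      exact ha.2
    exact_mod_cast h5
  have h4 : (((Icc (-(N : ℤ) ^ 3) ((N : ℤ) ^ 3)).filter fun a => (q : ℤ) ∣ a).card : ℝ) ≤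
      2 * (N : ℝ) ^ 3 / q + 2 := by
    refine le_trans ?_ (cnt_cube N q hq 0)
    have h5 : ((Icc (-(N : ℤ) ^ 3) ((N : ℤ) ^ 3)).filter fun a => (q : ℤ) ∣ a).card ≤
        ((Icc (-(N : ℤ) ^ 3) ((N : ℤ) ^ 3)).filter fun a => (q : ℤ) ∣ a - 0).card := by
      apply Finset.card_le_card
      intro a ha
      rw [Finset.mem_filter] at ha ⊢
      refine ⟨ha.1, ?_⟩
      rw [sub_zero]
      exact ha.2
    exact_mod_cast h5
  exact mul_le_mul h3 h4 (by positivity) (by positivity)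

theorem cop_E3 {A D : ℤ} (hA : ¬ (3 : ℤ) ∣ A) {p : ℕ} (hp : p.Prime) (h : (p : ℤ) ∣ E3 A D) :
    Nat.Coprime p 3 := by
  rw [Nat.coprime_primes hp Nat.prime_three]
  rintro rfl
  apply hA
  have h1 : (3 : ℤ) ∣ A ^ 3 := by
    have h2 : A ^ 3 = E3 A D + 3 * (9 * D) := by unfold E3; ring
    rw [h2]
    exact dvd_add (by exact_mod_cast h) (dvd_mul_right _ _)
  exact Int.Prime.dvd_pow' Nat.prime_three h1

end BAD3

open BAD3 in
theorem t_BAD3 : S_BAD3 := by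
  classical
  intro ε hε
  obtain ⟨y, hy⟩ := exists_nat_ge (max 1 (40 * 4 / ε))
  have hy1 : 1 ≤ y := by exact_mod_cast (le_max_left _ _).trans hy
  have hyr : (1 : ℝ) ≤ y := by exact_mod_cast hy1
  have hy2 : 40 * (y : ℝ)⁻¹ ≤ ε / 4 := by
    have h1 := (le_max_right (1 : ℝ) (40 * 4 / ε)).trans hy
    rw [div_le_iff₀ hε] at h1
    rw [← div_eq_mul_inv, div_le_iff₀ (by linarith)]
    linarith
  obtain ⟨K, hK⟩ := exists_nat_ge (max 1 (8 * 4 * y / ε))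
  have hK1 : 1 ≤ K := by exact_mod_cast (le_max_left _ _).trans hK
  have hK2 : 8 * (y : ℝ) / 2 ^ K ≤ ε / 4 := by
    have h1 := (le_max_right (1 : ℝ) (8 * 4 * y / ε)).trans hK
    have h2 : (K : ℝ) ≤ 2 ^ K := by exact_mod_cast (Nat.lt_two_pow_self (n := K)).le
    have h3 := h1.trans h2
    rw [div_le_iff₀ hε] at h3
    rw [div_le_iff₀ (by positivity)]
    linarith
  obtain ⟨N0, hN0⟩ := exists_nat_ge (max 1 ((56 + 8 * y) * 2 / ε))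
  refine ⟨y, K, hK1, N0, fun N hN => ?_⟩
  have hNr : (N0 : ℝ) ≤ N := by exact_mod_cast hN
  have hN1 : (1 : ℝ) ≤ N := ((le_max_left _ _).trans hN0).trans hNr
  have hN1' : 1 ≤ N := by exact_mod_cast hN1
  have hN2 : (56 + 8 * (y : ℝ)) ≤ ε / 2 * N := by
    have h1 := ((le_max_right (1 : ℝ) ((56 + 8 * y) * 2 / ε)).trans hN0).trans hNr
    rw [div_le_iff₀ hε] at h1
    linarith
  -- the covering
  obtain ⟨Sa, hSa⟩ : ∃ Sa : ℕ → Finset (ℤ × ℤ), ∀ p, Sa p =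
    (Bx3 N).filter fun z => ((p ^ 2 : ℕ) : ℤ) ∣ z.2 := ⟨_, fun _ => rfl⟩
  obtain ⟨Sb, hSb⟩ : ∃ Sb : ℕ → Finset (ℤ × ℤ), ∀ p, Sb p = if Nat.Coprime p 3 then
    (Bx3 N).filter fun z => ((p ^ 2 : ℕ) : ℤ) ∣ E3 z.1 z.2 else ∅ := ⟨_, fun _ => rfl⟩
  obtain ⟨Sc, hSc⟩ : ∃ Sc : ℕ → Finset (ℤ × ℤ), ∀ p, Sc p =
    (Bx3 N).filter fun z => (p : ℤ) ∣ z.1 ∧ (p : ℤ) ∣ z.2 := ⟨_, fun _ => rfl⟩
  obtain ⟨Sd, hSd⟩ : ∃ Sd : ℕ → Finset (ℤ × ℤ), ∀ p, Sd p =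
    (Bx3 N).filter fun z => ((p ^ K : ℕ) : ℤ) ∣ z.2 := ⟨_, fun _ => rfl⟩
  obtain ⟨Se, hSe⟩ : ∃ Se : ℕ → Finset (ℤ × ℤ), ∀ p, Se p = if Nat.Coprime p 3 then
    (Bx3 N).filter fun z => ((p ^ K : ℕ) : ℤ) ∣ E3 z.1 z.2 else ∅ := ⟨_, fun _ => rfl⟩
  have hNZ : (1 : ℤ) ≤ N := by exact_mod_cast hN1'
  have hcov : ((Bx3 N).filter fun z => ¬ (3 : ℤ) ∣ z.1 ∧ z.2 ≠ 0 ∧ E3 z.1 z.2 ≠ 0 ∧
      Bad3 y K z.1 z.2) ⊆ (((Ioc y (6 * N ^ 2)).biUnion fun p => Sa p ∪ Sb p) ∪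
      ((Ioc y (2 * N)).biUnion fun p => Sc p)) ∪
      ((Icc 2 y).biUnion fun p => Sd p ∪ Se p) := by
    rintro ⟨A, D⟩ hz
    rw [Finset.mem_filter] at hz
    obtain ⟨hB, hA3, hD0, hE0, p, hp, hbad⟩ := hz
    simp only at hA3 hD0 hE0 hbad
    have hB' := hB
    unfold Bx3 at hB'
    rw [Finset.mem_product, Finset.mem_Icc, Finset.mem_Icc] at hB'
    simp only at hB'
    have hDa : |D| ≤ (N : ℤ) ^ 3 := abs_le.2 ⟨by linarith [hB'.2.1], hB'.2.2⟩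
    have hA1 : 1 ≤ A := hB'.1.1
    have hA2 : A ≤ 2 * (N : ℤ) := hB'.1.2
    have hN34 : (N : ℤ) ^ 3 ≤ (N : ℤ) ^ 4 := pow_le_pow_right₀ hNZ (by norm_num)
    rw [Finset.mem_union, Finset.mem_union, Finset.mem_biUnion, Finset.mem_biUnion,
      Finset.mem_biUnion]
    rcases hbad with ⟨hyp, h | h | h⟩ | ⟨hyp, h | h⟩
    · left; left
      refine ⟨p, ?_, ?_⟩
      · have hDb : |D| ≤ ((6 * N ^ 2 : ℕ) : ℤ) ^ 2 := by
          push_cast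
          have e1 : (6 * (N : ℤ) ^ 2) ^ 2 = 36 * (N : ℤ) ^ 4 := by ring
          rw [e1]
          have e2 : (0 : ℤ) ≤ (N : ℤ) ^ 4 := by positivity
          linarith
        have := le_of_sq_le hD0 h hDb
        rw [Finset.mem_Ioc]
        exact ⟨hyp, this⟩
      · rw [Finset.mem_union]
        left
        rw [hSa, Finset.mem_filter]
        refine ⟨hB, ?_⟩
        push_cast
        exact h
    · left; left
      have hpo : Nat.Coprime p 3 := cop_E3 hA3 hp ((dvd_pow_self _ (by norm_num)).trans h)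
      refine ⟨p, ?_, ?_⟩
      · have hEa : |E3 A D| ≤ ((6 * N ^ 2 : ℕ) : ℤ) ^ 2 := by
          unfold E3
          have e1 : |A ^ 3 - 27 * D| ≤ A ^ 3 + 27 * |D| := by
            have := abs_sub (A ^ 3) (27 * D)
            rw [abs_mul, abs_of_pos (by positivity : (0 : ℤ) < A ^ 3)] at this
            simpa using this
          have e2 : A ^ 3 ≤ (2 * (N : ℤ)) ^ 3 := pow_le_pow_left₀ (by omega) hA2 3
          have e3 : (2 * (N : ℤ)) ^ 3 = 8 * (N : ℤ) ^ 3 := by ring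
          push_cast
          have e4 : (6 * (N : ℤ) ^ 2) ^ 2 = 36 * (N : ℤ) ^ 4 := by ring
          rw [e4]
          have e5 : (0 : ℤ) ≤ (N : ℤ) ^ 4 := by positivity
          linarith
        have := le_of_sq_le hE0 h hEa
        rw [Finset.mem_Ioc]
        exact ⟨hyp, this⟩
      · rw [Finset.mem_union]
        right
        rw [hSb, if_pos hpo, Finset.mem_filter]
        refine ⟨hB, ?_⟩
        push_cast
        exact h
    · left; right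
      refine ⟨p, ?_, ?_⟩
      · have h1 := Int.le_of_dvd (by omega) h.1
        rw [Finset.mem_Ioc]
        refine ⟨hyp, ?_⟩
        have h2 : (p : ℤ) ≤ 2 * (N : ℤ) := h1.trans hA2
        exact_mod_cast h2
      · rw [hSc, Finset.mem_filter]
        exact ⟨hB, h⟩
    · right
      refine ⟨p, ?_, ?_⟩
      · rw [Finset.mem_Icc]
        exact ⟨hp.two_le, hyp⟩
      · rw [Finset.mem_union]
        left
        rw [hSd, Finset.mem_filter]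
        refine ⟨hB, ?_⟩
        push_cast
        exact h
    · right
      have hpo : Nat.Coprime p 3 := cop_E3 hA3 hp ((dvd_pow_self _ (by omega)).trans h)
      refine ⟨p, ?_, ?_⟩
      · rw [Finset.mem_Icc]
        exact ⟨hp.two_le, hyp⟩
      · rw [Finset.mem_union]
        right
        rw [hSe, if_pos hpo, Finset.mem_filter]
        refine ⟨hB, ?_⟩
        push_cast
        exact h
  -- bounds for the pieces
  have hN0' : (0 : ℝ) ≤ N := by linarith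
  have b1 : ∀ p ∈ Ioc y (6 * N ^ 2), (((Sa p ∪ Sb p).card : ℕ) : ℝ) ≤
      8 * (N : ℝ) ^ 4 * (((p : ℝ)) ^ 2)⁻¹ + 8 * N := by
    intro p hp
    rw [Finset.mem_Ioc] at hp
    have hp1 : 1 ≤ p := by omega
    have c1 : ((Sa p).card : ℝ) ≤ 2 * N * (2 * (N : ℝ) ^ 3 / (p : ℝ) ^ 2 + 2) := by
      rw [hSa]
      have := card_D N (p ^ 2) (Nat.one_le_pow _ _ hp1)
      push_cast at this ⊢
      exact this
    have c2 : ((Sb p).card : ℝ) ≤ 2 * N * (2 * (N : ℝ) ^ 3 / (p : ℝ) ^ 2 + 2) := by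
      rw [hSb]
      split_ifs with ho
      · have := card_E N (p ^ 2) (Nat.one_le_pow _ _ hp1) (Nat.Coprime.pow_left 2 ho)
        push_cast at this ⊢
        exact this
      · rw [Finset.card_empty, Nat.cast_zero]
        positivity
    have c4 : (((Sa p ∪ Sb p).card : ℕ) : ℝ) ≤ (Sa p).card + (Sb p).card := by
      exact_mod_cast Finset.card_union_le (Sa p) (Sb p)
    have e1 : 2 * (N : ℝ) * (2 * (N : ℝ) ^ 3 / (p : ℝ) ^ 2 + 2) =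
        4 * (N : ℝ) ^ 4 * ((p : ℝ) ^ 2)⁻¹ + 4 * N := by
      rw [div_eq_mul_inv]
      ring
    rw [e1] at c1 c2
    linarith
  have b3 : ∀ p ∈ Ioc y (2 * N), (((Sc p).card : ℕ) : ℝ) ≤
      8 * (N : ℝ) ^ 4 * (((p : ℝ)) ^ 2)⁻¹ + (12 * (N : ℝ) ^ 3 * (y : ℝ)⁻¹ + 4 * N) := by
    intro p hp
    rw [Finset.mem_Ioc] at hp
    have hp1 : 1 ≤ p := by omega
    have hpr : (1 : ℝ) ≤ p := by exact_mod_cast hp1
    have hyp : (y : ℝ) ≤ p := by exact_mod_cast hp.1.le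
    have c3 : ((Sc p).card : ℝ) ≤ (2 * (2 * (N : ℝ)) / p + 2) * (2 * (N : ℝ) ^ 3 / p + 2) := by
      rw [hSc]
      exact card_AD N p hp1
    have q1 : ((p : ℝ))⁻¹ ≤ (y : ℝ)⁻¹ := inv_anti₀ (by linarith) hyp
    have q3 : (0 : ℝ) ≤ (p : ℝ)⁻¹ := by positivity
    have f1 : (2 * (2 * (N : ℝ)) / p + 2) * (2 * (N : ℝ) ^ 3 / p + 2) =
        8 * (N : ℝ) ^ 4 * ((p : ℝ) ^ 2)⁻¹ + (8 * N + 4 * (N : ℝ) ^ 3) * (p : ℝ)⁻¹ + 4 := by
      field_simp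
      ring
    have f2 : (8 * (N : ℝ) + 4 * (N : ℝ) ^ 3) * (p : ℝ)⁻¹ ≤ (12 * (N : ℝ) ^ 3) * (y : ℝ)⁻¹ := by
      apply mul_le_mul _ q1 q3 (by positivity)
      have : (N : ℝ) ≤ (N : ℝ) ^ 3 := by
        calc (N : ℝ) = (N : ℝ) ^ 1 := (pow_one _).symm
          _ ≤ (N : ℝ) ^ 3 := pow_le_pow_right₀ hN1 (by norm_num)
      linarith
    rw [f1] at c3
    linarith
  have b2 : ∀ p ∈ Icc 2 y, (((Sd p ∪ Se p).card : ℕ) : ℝ) ≤
      8 * (N : ℝ) ^ 4 / 2 ^ K + 8 * N := by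
    intro p hp
    rw [Finset.mem_Icc] at hp
    have hp1 : 1 ≤ p := by omega
    have hpr : (2 : ℝ) ≤ p := by exact_mod_cast hp.1
    have hpK : (2 : ℝ) ^ K ≤ (p : ℝ) ^ K := pow_le_pow_left₀ (by norm_num) hpr K
    have hdiv : 2 * (N : ℝ) ^ 3 / (p : ℝ) ^ K ≤ 2 * (N : ℝ) ^ 3 / 2 ^ K :=
      div_le_div_of_nonneg_left (by positivity) (by positivity) hpK
    have e0 : 2 * (N : ℝ) * (2 * (N : ℝ) ^ 3 / (p : ℝ) ^ K + 2) ≤
        4 * (N : ℝ) ^ 4 / 2 ^ K + 4 * N := by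
      calc 2 * (N : ℝ) * (2 * (N : ℝ) ^ 3 / (p : ℝ) ^ K + 2)
          ≤ 2 * (N : ℝ) * (2 * (N : ℝ) ^ 3 / 2 ^ K + 2) :=
            mul_le_mul_of_nonneg_left (by linarith) (by positivity)
        _ = 4 * (N : ℝ) ^ 4 / 2 ^ K + 4 * N := by ring
    have c1 : ((Sd p).card : ℝ) ≤ 2 * N * (2 * (N : ℝ) ^ 3 / (p : ℝ) ^ K + 2) := by
      rw [hSd]
      have := card_D N (p ^ K) (Nat.one_le_pow _ _ hp1)
      push_cast at this ⊢
      exact this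
    have c2 : ((Se p).card : ℝ) ≤ 2 * N * (2 * (N : ℝ) ^ 3 / (p : ℝ) ^ K + 2) := by
      rw [hSe]
      split_ifs with ho
      · have := card_E N (p ^ K) (Nat.one_le_pow _ _ hp1) (Nat.Coprime.pow_left K ho)
        push_cast at this ⊢
        exact this
      · rw [Finset.card_empty, Nat.cast_zero]
        positivity
    have c4 : (((Sd p ∪ Se p).card : ℕ) : ℝ) ≤ (Sd p).card + (Se p).card := by
      exact_mod_cast Finset.card_union_le (Sd p) (Se p)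
    have e5 : 8 * (N : ℝ) ^ 4 / 2 ^ K + 8 * N = 2 * (4 * (N : ℝ) ^ 4 / 2 ^ K + 4 * N) := by
      ring
    rw [e5]
    linarith
  have t1 : ((((Bx3 N).filter fun z => ¬ (3 : ℤ) ∣ z.1 ∧ z.2 ≠ 0 ∧ E3 z.1 z.2 ≠ 0 ∧
      Bad3 y K z.1 z.2).card : ℕ) : ℝ) ≤
      (∑ p ∈ Ioc y (6 * N ^ 2), (((Sa p ∪ Sb p).card : ℕ) : ℝ) +
      ∑ p ∈ Ioc y (2 * N), (((Sc p).card : ℕ) : ℝ)) +
      ∑ p ∈ Icc 2 y, (((Sd p ∪ Se p).card : ℕ) : ℝ) := by
    have d1 := Finset.card_le_card hcov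
    have d2 := d1.trans (Finset.card_union_le _ _)
    have d0 := Finset.card_union_le ((Ioc y (6 * N ^ 2)).biUnion fun p => Sa p ∪ Sb p)
      ((Ioc y (2 * N)).biUnion fun p => Sc p)
    have d3 := Finset.card_biUnion_le (s := Ioc y (6 * N ^ 2)) (t := fun p => Sa p ∪ Sb p)
    have d3' := Finset.card_biUnion_le (s := Ioc y (2 * N)) (t := fun p => Sc p)
    have d4 := Finset.card_biUnion_le (s := Icc 2 y) (t := fun p => Sd p ∪ Se p)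
    have d5 := d2.trans (Nat.add_le_add (d0.trans (Nat.add_le_add d3 d3')) d4)
    exact_mod_cast d5
  have t2 : ∑ p ∈ Ioc y (6 * N ^ 2), (((Sa p ∪ Sb p).card : ℕ) : ℝ) ≤
      8 * (N : ℝ) ^ 4 * (y : ℝ)⁻¹ + 48 * (N : ℝ) ^ 3 := by
    refine (Finset.sum_le_sum b1).trans ?_
    rw [Finset.sum_add_distrib, ← Finset.mul_sum, Finset.sum_const, nsmul_eq_mul, Nat.card_Ioc]
    have s1 := sum_sq_le y (6 * N ^ 2) hy1
    have s2 : ((6 * N ^ 2 - y : ℕ) : ℝ) ≤ 6 * (N : ℝ) ^ 2 := by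
      have : 6 * N ^ 2 - y ≤ 6 * N ^ 2 := Nat.sub_le _ _
      exact_mod_cast this
    have s3 : 8 * (N : ℝ) ^ 4 * ∑ p ∈ Ioc y (6 * N ^ 2), (((p : ℝ)) ^ 2)⁻¹ ≤
        8 * (N : ℝ) ^ 4 * (y : ℝ)⁻¹ := mul_le_mul_of_nonneg_left s1 (by positivity)
    have s4 : ((6 * N ^ 2 - y : ℕ) : ℝ) * (8 * N) ≤ 6 * (N : ℝ) ^ 2 * (8 * N) :=
      mul_le_mul_of_nonneg_right s2 (by positivity)
    have s5 : 6 * (N : ℝ) ^ 2 * (8 * N) = 48 * (N : ℝ) ^ 3 := by ring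
    rw [s5] at s4
    linarith
  have t4 : ∑ p ∈ Ioc y (2 * N), (((Sc p).card : ℕ) : ℝ) ≤
      32 * (N : ℝ) ^ 4 * (y : ℝ)⁻¹ + 8 * (N : ℝ) ^ 2 := by
    refine (Finset.sum_le_sum b3).trans ?_
    rw [Finset.sum_add_distrib, ← Finset.mul_sum, Finset.sum_const, nsmul_eq_mul, Nat.card_Ioc]
    have s1 := sum_sq_le y (2 * N) hy1
    have s2 : ((2 * N - y : ℕ) : ℝ) ≤ 2 * (N : ℝ) := by
      have : 2 * N - y ≤ 2 * N := Nat.sub_le _ _
      exact_mod_cast this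
    have s3 : 8 * (N : ℝ) ^ 4 * ∑ p ∈ Ioc y (2 * N), (((p : ℝ)) ^ 2)⁻¹ ≤
        8 * (N : ℝ) ^ 4 * (y : ℝ)⁻¹ := mul_le_mul_of_nonneg_left s1 (by positivity)
    have s4 : ((2 * N - y : ℕ) : ℝ) * (12 * (N : ℝ) ^ 3 * (y : ℝ)⁻¹ + 4 * N) ≤
        2 * (N : ℝ) * (12 * (N : ℝ) ^ 3 * (y : ℝ)⁻¹ + 4 * N) :=
      mul_le_mul_of_nonneg_right s2 (by positivity)
    have s5 : 2 * (N : ℝ) * (12 * (N : ℝ) ^ 3 * (y : ℝ)⁻¹ + 4 * N) =
        24 * (N : ℝ) ^ 4 * (y : ℝ)⁻¹ + 8 * (N : ℝ) ^ 2 := by ring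
    rw [s5] at s4
    linarith
  have t3 : ∑ p ∈ Icc 2 y, (((Sd p ∪ Se p).card : ℕ) : ℝ) ≤
      y * (8 * (N : ℝ) ^ 4 / 2 ^ K + 8 * N) := by
    refine (Finset.sum_le_sum b2).trans ?_
    rw [Finset.sum_const, nsmul_eq_mul, Nat.card_Icc]
    apply mul_le_mul_of_nonneg_right _ (by positivity)
    have : y + 1 - 2 ≤ y := by omega
    exact_mod_cast this
  have u1 : 40 * (N : ℝ) ^ 4 * (y : ℝ)⁻¹ ≤ ε / 4 * (N : ℝ) ^ 4 := by
    have := mul_le_mul_of_nonneg_right hy2 (by positivity : (0 : ℝ) ≤ (N : ℝ) ^ 4)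
    linarith
  have n1 : (N : ℝ) ≤ (N : ℝ) ^ 3 := by
    calc (N : ℝ) = (N : ℝ) ^ 1 := (pow_one _).symm
      _ ≤ (N : ℝ) ^ 3 := pow_le_pow_right₀ hN1 (by norm_num)
  have n2 : (N : ℝ) ^ 2 ≤ (N : ℝ) ^ 3 := pow_le_pow_right₀ hN1 (by norm_num)
  have u2 : (y : ℝ) * (8 * (N : ℝ) ^ 4 / 2 ^ K + 8 * N) ≤
      ε / 4 * (N : ℝ) ^ 4 + 8 * y * (N : ℝ) ^ 3 := by
    have h1 := mul_le_mul_of_nonneg_right hK2 (by positivity : (0 : ℝ) ≤ (N : ℝ) ^ 4)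
    have h2 : (y : ℝ) * (8 * (N : ℝ) ^ 4 / 2 ^ K + 8 * N) =
        8 * (y : ℝ) / 2 ^ K * (N : ℝ) ^ 4 + 8 * y * N := by ring
    have h4 : 8 * (y : ℝ) * N ≤ 8 * y * (N : ℝ) ^ 3 :=
      mul_le_mul_of_nonneg_left n1 (by positivity)
    rw [h2]
    linarith
  have u3 : (56 + 8 * (y : ℝ)) * (N : ℝ) ^ 3 ≤ ε / 2 * (N : ℝ) ^ 4 := by
    have := mul_le_mul_of_nonneg_right hN2 (by positivity : (0 : ℝ) ≤ (N : ℝ) ^ 3)
    calc (56 + 8 * (y : ℝ)) * (N : ℝ) ^ 3 ≤ ε / 2 * N * (N : ℝ) ^ 3 := this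
      _ = ε / 2 * (N : ℝ) ^ 4 := by ring
  linarith

end Pool.Agent.K1H81.T3
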