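import Pool.Agent.K1H81.T3.Stm
import Pool.Agent.K1H81.TT.COR1

/-! Project T3, piece COR31: the correlation sums over boxes (circle method), the analogue for
`(c, a³ - 27 c)` of `Pool.Agent.K1H81.TT.COR1`. -/

set_option autoImplicit false

namespace Pool.Agent.K1H81.T3

open Finset Filter Topology
open Pool.Agent.K1H81.TT (chi e QQ gg mm S_DAV)
open Pool.Agent.K1H81.TT.COR1 (e_add norm_e conj_e orth parseval card_near norm_mu)

namespace COR31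

/-- the Weyl sum -/
noncomputable def CC (M : ℕ) (α a b : ℤ) (R : ℕ) (j : ℕ) : ℂ :=
  ∑ A ∈ (Ico a b).filter (fun A => A ≡ α [ZMOD M]), e (-((j : ℝ) / R) * (A : ℝ) ^ 3)

theorem major (hW : S_WEYL3) {M : ℕ} (hM : 0 < M) {η : ℝ} (hη : 0 < η) :
    ∃ K : ℕ, ∀ N : ℕ, 1 ≤ N → ∀ α a b : ℤ, -(2 * (N : ℤ)) ≤ a → b ≤ 2 * N →
      ((range (200 * N ^ 3)).filter fun j =>
        η * N ≤ ‖CC M α a b (200 * N ^ 3) j‖).card ≤ K := by
  obtain ⟨q1, w1, hw1, hw⟩ := hW M hM η hη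
  refine ⟨(Icc 1 q1 ×ˢ Icc (-(⌈w1⌉₊ : ℤ)) (q1 + ⌈w1⌉₊)).card * (⌊2 * (200 * w1)⌋₊ + 1), ?_⟩
  intro N hN α a b ha hb
  have hNr : (1 : ℝ) ≤ N := by exact_mod_cast hN
  have hN2 : (1 : ℝ) ≤ (N : ℝ) ^ 3 := one_le_pow₀ hNr
  have hR : ((200 * N ^ 3 : ℕ) : ℝ) = 200 * (N : ℝ) ^ 3 := by push_cast; ring
  have hRpos : (0 : ℝ) < ((200 * N ^ 3 : ℕ) : ℝ) := by rw [hR]; positivity
  have hceil : w1 ≤ (⌈w1⌉₊ : ℝ) := Nat.le_ceil w1
  refine le_trans (card_le_card (t := (Icc 1 q1 ×ˢ Icc (-(⌈w1⌉₊ : ℤ)) (q1 + ⌈w1⌉₊)).biUnion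
    fun z => (range (200 * N ^ 3)).filter fun j : ℕ =>
      |(j : ℝ) - (z.2 : ℝ) * ((200 * N ^ 3 : ℕ) : ℝ) / z.1| ≤ 200 * w1) ?_)
    (card_biUnion_le_card_mul _ _ _ fun z _ => card_near _ _ _)
  intro j hj
  rw [mem_filter, mem_range] at hj
  obtain ⟨hj1, hj2⟩ := hj
  have hjr : (j : ℝ) < ((200 * N ^ 3 : ℕ) : ℝ) := by exact_mod_cast hj1
  obtain ⟨q, hq1, hq2, k, hk⟩ := hw N hN α a b (-((j : ℝ) / ((200 * N ^ 3 : ℕ) : ℝ))) ha hb hj2
  have hqr : (1 : ℝ) ≤ q := by exact_mod_cast hq1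
  have hq1r : (q : ℝ) ≤ q1 := by exact_mod_cast hq2
  set R : ℝ := ((200 * N ^ 3 : ℕ) : ℝ) with hRdef
  have hk' : |(q : ℝ) * ((j : ℝ) / R) - ((-k : ℤ) : ℝ)| ≤ w1 / (N : ℝ) ^ 3 := by
    have h1 : (q : ℝ) * ((j : ℝ) / R) - ((-k : ℤ) : ℝ) = -((q : ℝ) * (-((j : ℝ) / R)) - k) := by
      push_cast; ring
    rw [h1, abs_neg]
    exact hk
  have hwN : w1 / (N : ℝ) ^ 3 ≤ w1 := div_le_self hw1.le hN2
  have hjR0 : 0 ≤ (q : ℝ) * ((j : ℝ) / R) := by positivity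
  have hjR1 : (q : ℝ) * ((j : ℝ) / R) ≤ q := by
    have h1 : (j : ℝ) / R ≤ 1 := (div_le_one hRpos).2 hjr.le
    nlinarith
  have hk2 := abs_le.1 hk'
  rw [mem_biUnion]
  refine ⟨(q, -k), ?_, ?_⟩
  · rw [mem_product, mem_Icc, mem_Icc]
    refine ⟨⟨hq1, hq2⟩, ?_, ?_⟩
    · have h1 : -((⌈w1⌉₊ : ℝ)) ≤ ((-k : ℤ) : ℝ) := by linarith [hk2.2]
      exact_mod_cast h1
    · have h1 : ((-k : ℤ) : ℝ) ≤ (q1 : ℝ) + (⌈w1⌉₊ : ℝ) := by linarith [hk2.1]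
      exact_mod_cast h1
  · rw [mem_filter, mem_range]
    refine ⟨hj1, ?_⟩
    simp only
    have h1 : (j : ℝ) - ((-k : ℤ) : ℝ) * R / q =
        ((q : ℝ) * ((j : ℝ) / R) - ((-k : ℤ) : ℝ)) * (R / q) := by
      field_simp
    rw [h1, abs_mul, abs_of_pos (div_pos hRpos (by linarith))]
    calc |(q : ℝ) * ((j : ℝ) / R) - ((-k : ℤ) : ℝ)| * (R / q)
        ≤ (w1 / (N : ℝ) ^ 3) * (R / 1) := by
          refine mul_le_mul hk' ?_ (by positivity) (by positivity)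
          exact div_le_div_of_nonneg_left hRpos.le one_pos hqr
      _ = 200 * w1 := by
          rw [hR, div_one]
          field_simp

/-- Davenport's estimate for multiples of `g` -/
theorem dav (hD : S_DAV) {M g : ℕ} (hM : 0 < M) (hg : 0 < g) (hgM : g ∣ M) {δ : ℤ}
    (hδ : (g : ℤ) ∣ δ) {ε : ℝ} (hε : 0 < ε) :
    ∃ N0 : ℕ, ∀ N : ℕ, N0 ≤ N → ∀ (t : ℤ) (β : ℝ), t ≤ (N : ℤ) ^ 3 →
      ‖∑ D ∈ (Ioc (-(N : ℤ) ^ 3) t).filter (fun D => D ≡ δ [ZMOD M]),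
        ((ArithmeticFunction.moebius (D.natAbs / g) : ℤ) : ℂ) * e ((D : ℝ) * β)‖ ≤
        ε * (N : ℝ) ^ 3 := by
  obtain ⟨M', rfl⟩ := hgM
  obtain ⟨δ', rfl⟩ := hδ
  have hM' : 0 < M' := Nat.pos_of_mul_pos_left hM
  obtain ⟨N0, hN0⟩ := hD M' hM' ε hε
  have hgz : (0 : ℤ) < g := by exact_mod_cast hg
  have hgz1 : (1 : ℤ) ≤ g := hgz
  refine ⟨N0, fun N hN t β ht => ?_⟩
  have hNN : N0 ≤ N ^ 3 := hN.trans (Nat.le_self_pow three_ne_zero N)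
  have hN3 : (0 : ℤ) ≤ (N : ℤ) ^ 3 := by positivity
  have h1 := hN0 (N ^ 3) hNN (g * β) δ' ((-(N : ℤ) ^ 3) / g) (t / g)
    (by
      push_cast
      rw [Int.le_ediv_iff_mul_le hgz]
      nlinarith [mul_nonneg hN3 (sub_nonneg.2 hgz1)])
    (by
      push_cast
      rw [← Int.lt_add_one_iff, Int.ediv_lt_iff_lt_mul hgz]
      nlinarith [mul_nonneg hN3 (sub_nonneg.2 hgz1)])
  push_cast at h1
  refine le_trans (le_of_eq ?_) h1
  congr 1
  symm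
  refine sum_bij (fun u _ => (g : ℤ) * u) ?_ ?_ ?_ ?_
  · intro u hu
    rw [mem_filter, mem_Ioc] at hu ⊢
    obtain ⟨⟨h2, h3⟩, h4⟩ := hu
    rw [Int.ediv_lt_iff_lt_mul hgz] at h2
    rw [Int.le_ediv_iff_mul_le hgz] at h3
    refine ⟨⟨by linarith, by linarith⟩, ?_⟩
    have h5 := h4.mul_left' (c := (g : ℤ))
    push_cast
    exact h5
  · intro u _ v _ huv
    exact mul_left_cancel₀ hgz.ne' huv
  · intro D hD'
    rw [mem_filter, mem_Ioc] at hD'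
    obtain ⟨⟨h2, h3⟩, h4⟩ := hD'
    have h5 : (g : ℤ) ∣ D := by
      have h6 : ((g * M' : ℕ) : ℤ) ∣ (g : ℤ) * δ' - D := h4.dvd
      have h7 : (g : ℤ) ∣ (g : ℤ) * δ' - D := dvd_trans (by push_cast; exact dvd_mul_right _ _) h6
      have h8 := dvd_sub (dvd_mul_right (g : ℤ) δ') h7
      simpa using h8
    obtain ⟨u, rfl⟩ := h5
    refine ⟨u, ?_, rfl⟩
    rw [mem_filter, mem_Ioc]
    refine ⟨⟨?_, ?_⟩, ?_⟩
    · rw [Int.ediv_lt_iff_lt_mul hgz]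
      linarith
    · rw [Int.le_ediv_iff_mul_le hgz]
      linarith
    · push_cast at h4
      exact Int.ModEq.mul_left_cancel' hgz.ne' h4
  · intro u _
    rw [Int.natAbs_mul, Int.natAbs_natCast, Nat.mul_div_cancel_left _ hg]
    congr 2
    push_cast
    ring

end COR31

open COR31

/-- **COR31.** -/
theorem t_COR31 (hD : Pool.Agent.K1H81.TT.S_DAV) (hW : S_WEYL3) : S_COR31 := by
  intro M g h hM hg hh hgM hhM α δ hδ _ ε hε
  obtain ⟨K, hK⟩ := major hW hM (η := ε / 40) (by positivity)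
  have hKpos : (0 : ℝ) < (K : ℝ) + 1 := by positivity
  obtain ⟨N1, hN1⟩ := dav hD hM hg hgM hδ (ε := ε / (8 * ((K : ℝ) + 1))) (by positivity)
  refine ⟨max N1 1, fun N hN a b t ha hb ht => ?_⟩
  have hN1' : N1 ≤ N := (le_max_left _ _).trans hN
  have hNpos : 1 ≤ N := (le_max_right _ _).trans hN
  have hNr : (1 : ℝ) ≤ N := by exact_mod_cast hNpos
  have hNz : (1 : ℤ) ≤ N := by exact_mod_cast hNpos
  set R : ℕ := 200 * N ^ 3 with hRdef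
  have hRpos : 0 < R := by positivity
  have hRr : (R : ℝ) = 200 * (N : ℝ) ^ 3 := by rw [hRdef]; push_cast; ring
  have hRz : (R : ℤ) = 200 * (N : ℤ) ^ 3 := by rw [hRdef]; push_cast; ring
  set SA := (Ico a b).filter (fun A => A ≡ α [ZMOD M]) with hSA
  set SD := (Ioc (-(N : ℤ) ^ 3) t).filter (fun D => D ≡ δ [ZMOD M]) with hSD
  set SE := Icc (-(35 * (N : ℤ) ^ 3)) (35 * (N : ℤ) ^ 3) with hSE
  set f : ℤ → ℂ := fun D => ((ArithmeticFunction.moebius (D.natAbs / g) : ℤ) : ℂ) with hf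
  set k : ℤ → ℂ := fun E => ((ArithmeticFunction.moebius (E.natAbs / h) : ℤ) : ℂ) with hk
  set U : ℕ → ℂ := fun j => ∑ D ∈ SD, f D * e (((27 * D : ℤ) : ℝ) * ((j : ℝ) / R)) with hU
  set V : ℕ → ℂ := fun j => ∑ E ∈ SE, k E * e (((E : ℤ) : ℝ) * ((j : ℝ) / R)) with hV
  set C : ℕ → ℂ := fun j => CC M α a b R j with hC
  have hN3z : (1 : ℤ) ≤ (N : ℤ) ^ 3 := one_le_pow₀ hNz
  have hA2 : ∀ A ∈ SA, 0 ≤ A ^ 3 ∧ A ^ 3 ≤ 8 * (N : ℤ) ^ 3 := by
    intro A hA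
    rw [hSA, mem_filter, mem_Ico] at hA
    have h1 : 0 ≤ A := ha.trans hA.1.1
    have h2 : A ≤ 2 * N := by linarith [hA.1.2]
    refine ⟨pow_nonneg h1 3, ?_⟩
    have h3 := pow_le_pow_left₀ h1 h2 3
    have h4 : (2 * (N : ℤ)) ^ 3 = 8 * (N : ℤ) ^ 3 := by ring
    linarith
  have hDb : ∀ D ∈ SD, -(N : ℤ) ^ 3 ≤ D ∧ D ≤ (N : ℤ) ^ 3 := by
    intro D hD'
    rw [hSD, mem_filter, mem_Ioc] at hD'
    exact ⟨hD'.1.1.le, hD'.1.2.trans ht⟩
  -- the sum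
  have hS1 : ((∑ A ∈ Ico a b, ∑ D ∈ Ioc (-(N : ℤ) ^ 3) t, cor3 M g h α δ A D : ℤ) : ℂ) =
      ∑ A ∈ SA, ∑ D ∈ SD, f D * k (E3 A D) := by
    rw [hSA, sum_filter, Int.cast_sum]
    refine sum_congr rfl fun A _ => ?_
    rw [Int.cast_sum]
    split_ifs with h1
    · rw [hSD, sum_filter]
      refine sum_congr rfl fun D _ => ?_
      unfold cor3
      by_cases h2 : D ≡ δ [ZMOD M]
      · rw [if_pos ⟨h1, h2⟩, if_pos h2, hf, hk]
        push_cast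
        rfl
      · rw [if_neg (fun h3 => h2 h3.2), if_neg h2, Int.cast_zero]
    · refine sum_eq_zero fun D _ => ?_
      unfold cor3
      rw [if_neg (fun h3 => h1 h3.1), Int.cast_zero]
  have hj : ∀ j, C j * U j * V j = ∑ A ∈ SA, ∑ D ∈ SD, ∑ E ∈ SE,
      f D * k E * e (((27 * D + E - A ^ 3 : ℤ) : ℝ) * ((j : ℝ) / R)) := by
    intro j
    simp only [hC, hU, hV, CC]
    rw [sum_mul_sum, sum_mul]
    refine sum_congr rfl fun A _ => ?_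
    rw [sum_mul]
    refine sum_congr rfl fun D _ => ?_
    rw [mul_sum]
    refine sum_congr rfl fun E _ => ?_
    have h1 : ((27 * D + E - A ^ 3 : ℤ) : ℝ) * ((j : ℝ) / R) =
        -((j : ℝ) / R) * (A : ℝ) ^ 3 + (((27 * D : ℤ) : ℝ) * ((j : ℝ) / R) +
          ((E : ℤ) : ℝ) * ((j : ℝ) / R)) := by
      push_cast; ring
    rw [h1, e_add, e_add]
    ring
  have hmain : ((∑ A ∈ Ico a b, ∑ D ∈ Ioc (-(N : ℤ) ^ 3) t, cor3 M g h α δ A D : ℤ) : ℂ) * R =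
      ∑ j ∈ range R, C j * U j * V j := by
    have hR1 : ∑ j ∈ range R, C j * U j * V j = ∑ A ∈ SA, ∑ D ∈ SD, ∑ E ∈ SE, ∑ j ∈ range R,
        f D * k E * e (((27 * D + E - A ^ 3 : ℤ) : ℝ) * ((j : ℝ) / R)) := by
      refine (Finset.sum_congr rfl (fun j _ => hj j)).trans ?_
      refine Finset.sum_comm.trans ?_
      refine sum_congr rfl fun A _ => ?_
      refine Finset.sum_comm.trans ?_
      refine sum_congr rfl fun D _ => ?_
      exact Finset.sum_comm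
    rw [hS1, hR1, sum_mul]
    refine sum_congr rfl fun A hA => ?_
    rw [sum_mul]
    refine sum_congr rfl fun D hD' => ?_
    obtain ⟨hAsq, hA'⟩ := hA2 A hA
    have hD'' := hDb D hD'
    have h1 : ∀ E ∈ SE, ∑ j ∈ range R, f D * k E *
        e (((27 * D + E - A ^ 3 : ℤ) : ℝ) * ((j : ℝ) / R)) =
        if E3 A D = E then f D * k E * R else 0 := by
      intro E hE
      rw [hSE, mem_Icc] at hE
      rw [← mul_sum, orth hRpos _ (by
        rw [hRz, abs_lt]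
        constructor <;> nlinarith [hE.1, hE.2])]
      unfold E3
      by_cases h2 : A ^ 3 - 27 * D = E
      · rw [if_pos (by linarith), if_pos h2]
      · rw [if_neg (fun h3 => h2 (by linarith)), if_neg h2, mul_zero]
    rw [sum_congr rfl h1, sum_ite_eq, if_pos]
    rw [hSE, mem_Icc]
    unfold E3
    constructor <;> nlinarith
  -- the bounds
  have hfle : ∀ D, ‖f D‖ ≤ 1 := fun D => norm_mu _
  have hkle : ∀ E, ‖k E‖ ≤ 1 := fun E => norm_mu _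
  have hcardD : ((SD.card : ℕ) : ℝ) ≤ 2 * (N : ℝ) ^ 3 := by
    have h1 : SD.card ≤ (Ioc (-(N : ℤ) ^ 3) ((N : ℤ) ^ 3)).card := by
      refine card_le_card fun D hD' => ?_
      rw [hSD, mem_filter, mem_Ioc] at hD'
      rw [mem_Ioc]
      exact ⟨hD'.1.1, hD'.1.2.trans ht⟩
    rw [Int.card_Ioc] at h1
    have h2 : ((((N : ℤ) ^ 3 - -(N : ℤ) ^ 3).toNat : ℕ) : ℤ) = 2 * (N : ℤ) ^ 3 := by
      rw [Int.toNat_of_nonneg (by nlinarith)]
      ring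
    have h3 : ((SD.card : ℕ) : ℤ) ≤ 2 * (N : ℤ) ^ 3 := by
      rw [← h2]; exact_mod_cast h1
    exact_mod_cast h3
  have hcardE : ((SE.card : ℕ) : ℝ) ≤ 71 * (N : ℝ) ^ 3 := by
    have h2 : ((SE.card : ℕ) : ℤ) ≤ 71 * (N : ℤ) ^ 3 := by
      rw [hSE, Int.card_Icc, Int.toNat_of_nonneg (by nlinarith)]
      nlinarith
    exact_mod_cast h2
  have hcardA : ((SA.card : ℕ) : ℝ) ≤ 4 * (N : ℝ) := by
    have h1 : SA.card ≤ (Ico a b).card := card_filter_le _ _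
    rw [Int.card_Ico] at h1
    have h3 : ((SA.card : ℕ) : ℤ) ≤ 4 * (N : ℤ) := by
      have h4 : ((SA.card : ℕ) : ℤ) ≤ ((b - a).toNat : ℤ) := by exact_mod_cast h1
      have h5 : ((b - a).toNat : ℤ) ≤ 4 * (N : ℤ) := by
        omega
      exact h4.trans h5
    exact_mod_cast h3
  have hCle : ∀ j, ‖C j‖ ≤ 4 * (N : ℝ) := by
    intro j
    refine le_trans (norm_sum_le _ _) ?_
    simp only [norm_e, sum_const, nsmul_eq_mul, mul_one]
    exact hcardA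
  have hVle : ∀ j, ‖V j‖ ≤ 71 * (N : ℝ) ^ 3 := by
    intro j
    have h1 : ‖V j‖ ≤ ∑ E ∈ SE, (1 : ℝ) := by
      refine norm_sum_le_of_le SE fun E _ => ?_
      rw [norm_mul, norm_e, mul_one]; exact hkle E
    rw [sum_const, nsmul_eq_mul, mul_one] at h1
    exact h1.trans hcardE
  have hUle : ∀ j, ‖U j‖ ≤ ε / (8 * ((K : ℝ) + 1)) * (N : ℝ) ^ 3 := by
    intro j
    have h1 := hN1 N hN1' t (27 * ((j : ℝ) / R)) ht
    refine le_trans (le_of_eq ?_) h1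
    congr 1
    refine sum_congr rfl fun D _ => ?_
    congr 2
    push_cast
    ring
  have hPU : ∑ j ∈ range R, ‖U j‖ ^ 2 ≤ R * (2 * (N : ℝ) ^ 3) := by
    have h1 := parseval hRpos SD (fun D => 27 * D) f
      (fun x hx y hy => by
        have h2 := hDb x hx
        have h3 := hDb y hy
        rw [hRz, abs_lt]
        constructor <;> nlinarith)
      (fun x _ y _ hxy => by simpa using hxy)
    rw [hU, h1]
    refine mul_le_mul_of_nonneg_left (le_trans (sum_le_card_nsmul _ _ 1 fun x _ => ?_) ?_)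
      (Nat.cast_nonneg _)
    · exact pow_le_one₀ (norm_nonneg _) (hfle x)
    · rw [nsmul_eq_mul, mul_one]
      exact hcardD
  have hPV : ∑ j ∈ range R, ‖V j‖ ^ 2 ≤ R * (71 * (N : ℝ) ^ 3) := by
    have h1 := parseval hRpos SE (fun D => D) k
      (fun x hx y hy => by
        rw [hSE, mem_Icc] at hx hy
        rw [hRz, abs_lt]
        constructor <;> nlinarith)
      (fun x _ y _ hxy => hxy)
    rw [hV, h1]
    refine mul_le_mul_of_nonneg_left (le_trans (sum_le_card_nsmul _ _ 1 fun x _ => ?_) ?_)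
      (Nat.cast_nonneg _)
    · exact pow_le_one₀ (norm_nonneg _) (hkle x)
    · rw [nsmul_eq_mul, mul_one]
      exact hcardE
  set B : ℝ := 4 * (N : ℝ) * (ε / (8 * ((K : ℝ) + 1)) * (N : ℝ) ^ 3) * (71 * (N : ℝ) ^ 3) with hB
  have hBpos : 0 ≤ B := by positivity
  have hpt : ∀ j, ‖C j * U j * V j‖ ≤
      ε / 40 * N * (4 * ‖U j‖ ^ 2 + ‖V j‖ ^ 2 / 16) +
        if ε / 40 * N ≤ ‖C j‖ then B else 0 := by
    intro j
    rw [norm_mul, norm_mul]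
    have h0 : 0 ≤ ε / 40 * N * (4 * ‖U j‖ ^ 2 + ‖V j‖ ^ 2 / 16) := by positivity
    split_ifs with h1
    · have h2 : ‖C j‖ * ‖U j‖ * ‖V j‖ ≤ B := by
        rw [hB]
        exact mul_le_mul (mul_le_mul (hCle j) (hUle j) (norm_nonneg _) (by positivity)) (hVle j)
          (norm_nonneg _) (by positivity)
      linarith
    · rw [not_le] at h1
      have h2 : ‖U j‖ * ‖V j‖ ≤ 4 * ‖U j‖ ^ 2 + ‖V j‖ ^ 2 / 16 := by
        nlinarith [sq_nonneg (2 * ‖U j‖ - ‖V j‖ / 4)]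
      calc ‖C j‖ * ‖U j‖ * ‖V j‖ = ‖C j‖ * (‖U j‖ * ‖V j‖) := by ring
        _ ≤ ε / 40 * N * (4 * ‖U j‖ ^ 2 + ‖V j‖ ^ 2 / 16) :=
          mul_le_mul h1.le h2 (by positivity) (by positivity)
        _ = _ := by rw [add_zero]
  have hsum : ∑ j ∈ range R, ‖C j * U j * V j‖ ≤
      ε / 40 * N * (4 * (R * (2 * (N : ℝ) ^ 3)) + R * (71 * (N : ℝ) ^ 3) / 16) + K * B := by
    refine le_trans (sum_le_sum fun j _ => hpt j) ?_
    rw [sum_add_distrib, ← mul_sum, sum_add_distrib, ← mul_sum, ← sum_div, ← sum_filter, sum_const,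
      nsmul_eq_mul]
    refine add_le_add ?_ ?_
    · refine mul_le_mul_of_nonneg_left ?_ (by positivity)
      linarith
    · refine mul_le_mul_of_nonneg_right ?_ hBpos
      exact_mod_cast hK N hNpos α a b (by linarith) hb
  have hfin : |((∑ A ∈ Ico a b, ∑ D ∈ Ioc (-(N : ℤ) ^ 3) t, cor3 M g h α δ A D : ℤ) : ℝ)| * R ≤
      ε / 40 * N * (4 * (R * (2 * (N : ℝ) ^ 3)) + R * (71 * (N : ℝ) ^ 3) / 16) + K * B := by
    refine le_trans (le_of_eq ?_) ((norm_sum_le _ _).trans hsum)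
    rw [← hmain, norm_mul, Complex.norm_natCast, Complex.norm_intCast]
  have hRrpos : (0 : ℝ) < R := by exact_mod_cast hRpos
  refine le_of_mul_le_mul_right (hfin.trans ?_) hRrpos
  have hKB : K * B ≤ 3 / 8 * ε * (N : ℝ) ^ 4 * R := by
    rw [hB, hRr]
    have h1 : (K : ℝ) * (4 * (N : ℝ) * (ε / (8 * ((K : ℝ) + 1)) * (N : ℝ) ^ 3) *
        (71 * (N : ℝ) ^ 3)) = ((K : ℝ) / ((K : ℝ) + 1)) * (284 / 8 * ε * (N : ℝ) ^ 7) := by
      field_simp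
      ring
    rw [h1]
    have h2 : (K : ℝ) / ((K : ℝ) + 1) ≤ 1 := (div_le_one hKpos).2 (by linarith)
    calc ((K : ℝ) / ((K : ℝ) + 1)) * (284 / 8 * ε * (N : ℝ) ^ 7)
        ≤ 1 * (284 / 8 * ε * (N : ℝ) ^ 7) := mul_le_mul_of_nonneg_right h2 (by positivity)
      _ ≤ 3 / 8 * ε * (N : ℝ) ^ 4 * (200 * (N : ℝ) ^ 3) := by
        have h3 : 0 ≤ ε * (N : ℝ) ^ 7 := by positivity
        nlinarith
  have h5 : ε / 40 * N * (4 * (R * (2 * (N : ℝ) ^ 3)) + R * (71 * (N : ℝ) ^ 3) / 16) ≤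
      1 / 2 * ε * (N : ℝ) ^ 4 * R := by
    have h6 : ε / 40 * N * (4 * (R * (2 * (N : ℝ) ^ 3)) + R * (71 * (N : ℝ) ^ 3) / 16) =
        (8 + 71 / 16) / 40 * (ε * (N : ℝ) ^ 4 * R) := by ring
    rw [h6]
    have h7 : 0 ≤ ε * (N : ℝ) ^ 4 * R := by positivity
    nlinarith
  have h8 : 0 ≤ ε * (N : ℝ) ^ 4 * R := by positivity
  nlinarith

end Pool.Agent.K1H81.T3
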