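import Pool.Agent.K1H81.T3.Stm
import Pool.Agent.K1H81.TT.COR2

/-!
Project T3, piece COR32: correlation sums below a function of bounded variation.
-/

set_option autoImplicit false

namespace Pool.Agent.K1H81.T3

open Finset
open Pool.Agent.K1H81.TT.COR2 (blocks)

namespace COR32

theorem cor_le (M g h : ℕ) (α δ A D : ℤ) : |((cor3 M g h α δ A D : ℤ) : ℝ)| ≤ 1 := by
  unfold cor3
  split_ifs
  · have h1 : ∀ n : ℕ, |((ArithmeticFunction.moebius n : ℤ) : ℝ)| ≤ 1 := by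
      intro n
      have := ArithmeticFunction.abs_moebius_le_one (n := n)
      exact_mod_cast this
    push_cast
    rw [abs_mul]
    have h2 := h1 (D.natAbs / g)
    have h3 := h1 ((E3 A D).natAbs / h)
    calc _ ≤ (1 : ℝ) * 1 := by gcongr
      _ = 1 := one_mul 1
  · simp

end COR32

open COR32 in
theorem t_COR32 (h1 : S_COR31) : S_COR32 := by
  intro M g h hM hg hh hgM hhM α δ hgδ hhE V ε hV hε
  obtain ⟨k, hk⟩ := exists_nat_ge (16 * V / ε + 1)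
  have hk0 : (0 : ℝ) < k := by
    have : 0 < 16 * V / ε + 1 := by positivity
    linarith
  have hkN : 0 < k := by exact_mod_cast hk0
  obtain ⟨N1, hN1⟩ := h1 M g h hM hg hh hgM hhM α δ hgδ hhE (ε / (2 * k)) (by positivity)
  obtain ⟨N2, hN2⟩ := exists_nat_ge (4 * V / ε)
  refine ⟨max N1 N2, fun N hN a b ha hb U hU hvar => ?_⟩
  have hNN1 : N1 ≤ N := (le_max_left _ _).trans hN
  have hNN2 : (4 * V / ε : ℝ) ≤ N := by
    refine hN2.trans ?_
    exact_mod_cast (le_max_right _ _).trans hN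
  set B : ℕ := 4 * N / k + 1 with hB
  have hBle : (B : ℝ) ≤ 4 * N / k + 1 := by
    rw [hB]
    push_cast
    gcongr
    calc ((4 * N / k : ℕ) : ℝ) ≤ ((4 * N : ℕ) : ℝ) / k := Nat.cast_div_le
      _ = 4 * N / k := by push_cast; ring
  have hkB : 4 * N ≤ k * B := by
    have := Nat.lt_mul_div_succ (4 * N) hkN
    rw [hB]
    exact this.le
  have hcast : ∀ (s : Finset ℤ) (T : ℤ → Finset ℤ),
      ((∑ A ∈ s, ∑ D ∈ T A, cor3 M g h α δ A D : ℤ) : ℝ) =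
      ∑ A ∈ s, ∑ D ∈ T A, ((cor3 M g h α δ A D : ℤ) : ℝ) := by
    intro s T
    push_cast
    rfl
  have h2 := blocks (fun A D => ((cor3 M g h α δ A D : ℤ) : ℝ)) (cor_le M g h α δ)
    (-(N : ℤ) ^ 3) ((N : ℤ) ^ 3) 0 (2 * N) (ε / (2 * k) * (N : ℝ) ^ 4)
    (by positivity) B U hU (fun a' b' t ha' hb' ht => by
      have := hN1 N hNN1 a' b' t ha' hb' ht
      rw [hcast] at this
      exact this) k a b ha hb (by
      have : (4 * N : ℤ) ≤ k * B := by exact_mod_cast hkB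
      have h0 : (0 : ℤ) ≤ N := Int.natCast_nonneg N
      linarith)
  rw [hcast]
  refine h2.trans ?_
  have h3 : ∑ A ∈ Ico a b, |((U (A + 1) - U A : ℤ) : ℝ)| ≤ V * (N : ℝ) ^ 3 := by
    refine le_trans (sum_le_sum_of_subset_of_nonneg ?_ (fun _ _ _ => abs_nonneg _)) hvar
    intro x hx
    simp only [mem_Ico] at hx ⊢
    omega
  have h4 : (k : ℝ) * (ε / (2 * k) * (N : ℝ) ^ 4) = ε / 2 * (N : ℝ) ^ 4 := by
    field_simp
  rw [h4]
  have h5 : (B : ℝ) * ∑ A ∈ Ico a b, |((U (A + 1) - U A : ℤ) : ℝ)| ≤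
      (4 * N / k + 1) * (V * (N : ℝ) ^ 3) := by
    have : 0 ≤ ∑ A ∈ Ico a b, |((U (A + 1) - U A : ℤ) : ℝ)| := sum_nonneg fun _ _ => abs_nonneg _
    gcongr
  have h6 : 4 * V / k ≤ ε / 4 := by
    rw [div_le_div_iff₀ hk0 (by norm_num)]
    have : 16 * V / ε ≤ k := by linarith
    rw [div_le_iff₀ hε] at this
    linarith
  have h7 : V ≤ ε / 4 * N := by
    rw [div_le_iff₀ hε] at hNN2
    linarith
  have hN0 : (0 : ℝ) ≤ N := Nat.cast_nonneg N
  calc ε / 2 * (N : ℝ) ^ 4 + (B : ℝ) * ∑ A ∈ Ico a b, |((U (A + 1) - U A : ℤ) : ℝ)|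
      ≤ ε / 2 * (N : ℝ) ^ 4 + (4 * N / k + 1) * (V * (N : ℝ) ^ 3) := by linarith
    _ = ε / 2 * (N : ℝ) ^ 4 + (4 * V / k) * (N : ℝ) ^ 4 + V * (N : ℝ) ^ 3 := by ring
    _ ≤ ε / 2 * (N : ℝ) ^ 4 + (ε / 4) * (N : ℝ) ^ 4 + (ε / 4 * N) * (N : ℝ) ^ 3 := by gcongr
    _ = ε * (N : ℝ) ^ 4 := by ring

end Pool.Agent.K1H81.T3
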