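import Pool.Agent.K1H81.T3.Stm

/-! Piece FA3 of project T3: classes and pairs (helper59). -/

set_option autoImplicit false

namespace Pool.Agent.K1H81.T3

open Finset Filter Topology
open Pool.Agent.K1H81.TT (ap Semistable rootNumber height chi e QQ gg mm S_AP S_DAV)

namespace FA3

theorem yh_nonneg (Z : ℕ) : 0 ≤ Yh3 Z := by
  unfold Yh3
  positivity

theorem yh_pow (Z : ℕ) : (Yh3 Z) ^ 12 = (Z : ℝ) / 78732 := by
  unfold Yh3
  rw [← Real.rpow_natCast, ← Real.rpow_mul (by positivity)]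
  norm_num

theorem hgt_iff (Z : ℕ) (u v : ℤ) : 78732 * max (u.natAbs ^ 3) (v.natAbs ^ 2) ≤ Z ↔
    |(u : ℝ)| ≤ (Yh3 Z) ^ 4 ∧ |(v : ℝ)| ≤ (Yh3 Z) ^ 6 := by
  have hY := yh_nonneg Z
  have h12 := yh_pow Z
  have e1 : (u.natAbs : ℝ) = |(u : ℝ)| := by rw [Nat.cast_natAbs, Int.cast_abs]
  have e2 : (v.natAbs : ℝ) = |(v : ℝ)| := by rw [Nat.cast_natAbs, Int.cast_abs]
  have k1 : (78732 * max (u.natAbs ^ 3) (v.natAbs ^ 2) ≤ Z) ↔
      ((u.natAbs : ℝ) ^ 3 ≤ (Z : ℝ) / 78732 ∧ (v.natAbs : ℝ) ^ 2 ≤ (Z : ℝ) / 78732) := by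
    rw [le_div_iff₀ (by norm_num), le_div_iff₀ (by norm_num)]
    constructor
    · intro h
      have a : u.natAbs ^ 3 * 78732 ≤ Z := by
        refine le_trans ?_ h
        rw [mul_comm]
        exact Nat.mul_le_mul_left _ (le_max_left _ _)
      have b : v.natAbs ^ 2 * 78732 ≤ Z := by
        refine le_trans ?_ h
        rw [mul_comm]
        exact Nat.mul_le_mul_left _ (le_max_right _ _)
      exact ⟨by exact_mod_cast a, by exact_mod_cast b⟩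
    · rintro ⟨a, b⟩
      have a' : u.natAbs ^ 3 * 78732 ≤ Z := by exact_mod_cast a
      have b' : v.natAbs ^ 2 * 78732 ≤ Z := by exact_mod_cast b
      rcases max_choice (u.natAbs ^ 3) (v.natAbs ^ 2) with h | h
      · rw [h, mul_comm]
        exact a'
      · rw [h, mul_comm]
        exact b'
  have e3 : Yh3 Z ^ 12 = (Yh3 Z ^ 4) ^ 3 := by rw [← pow_mul]
  have e4 : Yh3 Z ^ 12 = (Yh3 Z ^ 6) ^ 2 := by rw [← pow_mul]
  rw [k1, e1, e2, ← h12]
  nth_rewrite 1 [e3]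
  rw [e4, pow_le_pow_iff_left₀ (abs_nonneg _) (by positivity) (by norm_num),
    pow_le_pow_iff_left₀ (abs_nonneg _) (by positivity) (by norm_num)]

theorem mem_box (Y : ℝ) (hY : 0 ≤ Y) (hB : S_BOX3) (a c : ℤ) (ha : 0 < a) (hR : Reg3 Y a c) :
    (a, c) ∈ Bx3 ⌈Y⌉₊ := by
  obtain ⟨h1, h2⟩ := hB Y a c hY hR
  have hN : Y ≤ (⌈Y⌉₊ : ℝ) := Nat.le_ceil Y
  have h3 : (a : ℝ) ≤ 2 * (⌈Y⌉₊ : ℝ) := le_trans (le_abs_self _) (le_trans h1 (by linarith))
  have h4 : |(c : ℝ)| ≤ (⌈Y⌉₊ : ℝ) ^ 3 := le_trans h2 (pow_le_pow_left₀ hY hN 3)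
  obtain ⟨h5, h6⟩ := abs_le.mp h4
  unfold Bx3
  rw [mem_product, mem_Icc, mem_Icc]
  refine ⟨⟨ha, ?_⟩, ?_, ?_⟩
  · exact_mod_cast h3
  · exact_mod_cast h5
  · exact_mod_cast h6

end FA3

open FA3 in
theorem t_FA3 (hP : S_PAR3) (hC : S_CONV3) (hW : S_WRT3) (hH : S_HGT3) (hI : S_INJ3)
    (hB : S_BOX3) : S_FA3 := by
  classical
  intro Z P
  have key : Fam3 P Z = (fun z : ℤ × ℤ => (G4 z.1 z.2, G6 z.1 z.2)) ''
      (((FS3 (Yh3 Z)).filter fun z => P (w3 z.1 z.2) : Finset (ℤ × ℤ)) : Set (ℤ × ℤ)) := by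
    ext z
    constructor
    · rintro ⟨W, h1, h2, h3, h4, rfl⟩
      obtain ⟨a, c, ha, hadm, e4, e6⟩ := hP W h1 h2
      have hr := (hW W a c h1 hadm e4 e6).2
      have hh := hH W a c h1 hadm e4 e6
      rw [hh, hgt_iff, e4, e6] at h3
      have hR : Reg3 (Yh3 Z) a c := h3
      refine ⟨(a, c), ?_, ?_⟩
      · rw [mem_coe, mem_filter, FS3, mem_filter]
        refine ⟨⟨mem_box _ (yh_nonneg Z) hB a c ha hR, hadm, hR⟩, ?_⟩
        rw [hr] at h4
        exact h4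
      · show (G4 a c, G6 a c) = (W.c₄, W.c₆)
        rw [e4, e6]
    · rintro ⟨⟨a, c⟩, hm, rfl⟩
      rw [mem_coe, mem_filter, FS3, mem_filter] at hm
      obtain ⟨⟨-, hadm, hR⟩, hp⟩ := hm
      obtain ⟨W, h1, h2, e4, e6⟩ := hC a c hadm
      refine ⟨W, h1, h2, ?_, ?_, ?_⟩
      · rw [hH W a c h1 hadm e4 e6, hgt_iff, e4, e6]
        exact hR
      · rw [(hW W a c h1 hadm e4 e6).2]
        exact hp
      · show (G4 a c, G6 a c) = (W.c₄, W.c₆)
        rw [e4, e6]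
  have hinj : Set.InjOn (fun z : ℤ × ℤ => (G4 z.1 z.2, G6 z.1 z.2))
      (((FS3 (Yh3 Z)).filter fun z => P (w3 z.1 z.2) : Finset (ℤ × ℤ)) : Set (ℤ × ℤ)) := by
    rintro ⟨a, c⟩ h ⟨a', c'⟩ h' he
    rw [mem_coe, mem_filter, FS3, mem_filter] at h h'
    have ha : 0 < a := by
      have := h.1.1
      unfold Bx3 at this
      rw [mem_product, mem_Icc] at this
      have := this.1.1
      simp only at this
      omega
    have ha' : 0 < a' := by
      have := h'.1.1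
      unfold Bx3 at this
      rw [mem_product, mem_Icc] at this
      have := this.1.1
      simp only at this
      omega
    have he' := Prod.ext_iff.mp he
    obtain ⟨e1, e2⟩ := hI a c a' c' ha ha' h.1.2.1 h'.1.2.1 he'.1 he'.2
    rw [e1, e2]
  refine ⟨?_, ?_⟩
  · rw [key]
    exact (Finset.finite_toSet _).image _
  · rw [key, hinj.ncard_image, Set.ncard_coe_finset]

end Pool.Agent.K1H81.T3
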