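import Pool.Agent.K1H81.T3.Stm

/-! # T3-FB3: the limit (helper25 for helper81, project T3) -/

set_option autoImplicit false

namespace Pool.Agent.K1H81.T3

open Finset Filter Topology

namespace FB3

/-- for a set of signs -/
lemma sign_count (s : Finset (ℤ × ℤ)) (f : ℤ × ℤ → ℤ) (hf : ∀ z ∈ s, f z = 1 ∨ f z = -1) (e : ℤ)
    (he : e = 1 ∨ e = -1) : by classical exact
    2 * (((s.filter fun z => f z = e).card : ℕ) : ℤ) - (s.card : ℤ) = e * ∑ z ∈ s, f z := by
  classical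
  rw [Finset.card_filter, Finset.card_eq_sum_ones, Finset.mul_sum]
  push_cast
  rw [Finset.mul_sum, ← Finset.sum_sub_distrib]
  refine Finset.sum_congr rfl fun z hz => ?_
  rcases hf z hz with h | h <;> rcases he with h' | h' <;> simp [h, h']

lemma mem_adm {Y : ℝ} {z : ℤ × ℤ} (h : z ∈ FS3 Y) : Adm3 z.1 z.2 := by
  classical
  unfold FS3 at h
  rw [Finset.mem_filter] at h
  exact h.2.1

lemma Yh3_tendsto : Tendsto Yh3 atTop atTop := by
  show Tendsto (fun Z : ℕ => ((Z : ℝ) / 78732) ^ ((1 : ℝ) / 12)) atTop atTop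
  refine (tendsto_rpow_atTop (by norm_num : (0 : ℝ) < 1 / 12)).comp ?_
  exact tendsto_natCast_atTop_atTop.atTop_div_const (by norm_num)

end FB3

theorem w3_sign : ∀ a c : ℤ, Adm3 a c → w3 a c = 1 ∨ w3 a c = -1 := by
  intro a c h
  obtain ⟨h3, -, -, -⟩ := h
  rw [← Int.isUnit_iff, w3, IsUnit.neg_iff]
  refine IsUnit.mul ?_ ?_
  · exact Finset.prod_induction _ IsUnit (fun _ _ => IsUnit.mul) isUnit_one fun p _ =>
      Int.isUnit_iff.2 (Or.inr rfl)
  · refine Finset.prod_induction _ IsUnit (fun _ _ => IsUnit.mul) isUnit_one fun p hp => ?_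
    have hpp := Nat.prime_of_mem_primeFactors hp
    have hd : (p : ℤ) ∣ E3 a c := Int.natCast_dvd.2 (Nat.dvd_of_mem_primeFactors hp)
    have hp3 : p ≠ 3 := by
      rintro rfl
      have h1 : (3 : ℤ) ∣ a ^ 3 := by
        have h2 : (3 : ℤ) ∣ a ^ 3 - 27 * c := by
          have := hd
          unfold E3 at this
          exact_mod_cast this
        have h4 : (3 : ℤ) ∣ 27 * c := ⟨9 * c, by ring⟩
        have h5 := dvd_add h2 h4
        simpa using h5
      exact h3 (Int.prime_three.dvd_of_dvd_pow h1)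
    have hg : (p : ℤ).gcd (3 : ℕ) = 1 := by
      rw [Int.gcd_natCast_natCast]
      exact (Nat.coprime_primes hpp Nat.prime_three).2 hp3
    rw [Int.isUnit_iff]
    rcases jacobiSym.eq_one_or_neg_one hg with h | h <;> rw [h] <;> norm_num

theorem t_FB3 (hF : S_FA3) (hA : S_ANA3) (hL : S_LOW3) : S_FIN3 := by
  classical
  obtain ⟨c, hc, Y0, hL⟩ := hL
  have hlow : ∀ᶠ Z : ℕ in atTop, c * (Yh3 Z) ^ 4 ≤ ((Fam3 (fun _ => True) Z).ncard : ℝ) := by
    filter_upwards [FB3.Yh3_tendsto.eventually_ge_atTop Y0] with Z hZ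
    have h1 := hL _ hZ
    have h2 := (hF Z (fun _ => True)).2
    rw [Finset.filter_true] at h2
    rw [h2]
    exact h1
  have h4 : Tendsto (fun Z : ℕ => (Yh3 Z) ^ 4) atTop atTop :=
    (tendsto_pow_atTop (by norm_num : (4 : ℕ) ≠ 0)).comp FB3.Yh3_tendsto
  refine ⟨fun Z => (hF Z _).1, ?_, fun e he => ?_⟩
  · have h1 : Tendsto (fun Z : ℕ => ((Fam3 (fun _ => True) Z).ncard : ℝ)) atTop atTop :=
      tendsto_atTop_mono' _ hlow (h4.const_mul_atTop hc)
    exact tendsto_natCast_atTop_iff.1 h1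
  · rw [Metric.tendsto_nhds]
    intro ε hε
    obtain ⟨Y1, hA1⟩ := hA (ε * c) (by positivity)
    filter_upwards [FB3.Yh3_tendsto.eventually_ge_atTop Y1, hlow,
      FB3.Yh3_tendsto.eventually_gt_atTop 0] with Z h1 h2 h3
    have t1 := (hF Z (fun _ => True)).2
    rw [Finset.filter_true] at t1
    have p1 := (hF Z (fun w => w = e)).2
    have hs := FB3.sign_count (FS3 (Yh3 Z)) (fun z => w3 z.1 z.2)
      (fun z hz => w3_sign _ _ (FB3.mem_adm hz)) e he
    have hP : ((Fam3 (fun w => w = e) Z).ncard : ℤ) =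
        (((FS3 (Yh3 Z)).filter fun z => w3 z.1 z.2 = e).card : ℤ) := by
      rw [p1]
      congr!
    have hT : ((Fam3 (fun _ => True) Z).ncard : ℤ) = ((FS3 (Yh3 Z)).card : ℤ) := by
      rw [t1]
    have hs1 : 2 * ((Fam3 (fun w => w = e) Z).ncard : ℤ) - ((Fam3 (fun _ => True) Z).ncard : ℤ) =
        e * ∑ z ∈ FS3 (Yh3 Z), w3 z.1 z.2 := by
      rw [hP, hT]
      convert hs using 3
    have hs' : 2 * ((Fam3 (fun w => w = e) Z).ncard : ℝ) - ((Fam3 (fun _ => True) Z).ncard : ℝ) =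
        e * ((∑ z ∈ FS3 (Yh3 Z), w3 z.1 z.2 : ℤ) : ℝ) := by
      exact_mod_cast hs1
    have hab : |(e : ℝ) * ((∑ z ∈ FS3 (Yh3 Z), w3 z.1 z.2 : ℤ) : ℝ)| ≤ ε * c * (Yh3 Z) ^ 4 := by
      rw [abs_mul]
      rcases he with h | h <;> subst h
      · simpa using hA1 _ h1
      · simpa using hA1 _ h1
    have hTp : 0 < ((Fam3 (fun _ => True) Z).ncard : ℝ) := lt_of_lt_of_le (by positivity) h2
    rw [← hs'] at hab
    generalize ((Fam3 (fun _ => True) Z).ncard : ℝ) = T at *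
    generalize ((Fam3 (fun w => w = e) Z).ncard : ℝ) = P at *
    rw [Real.dist_eq, show P / T - 1 / 2 = (2 * P - T) / (2 * T) by field_simp, abs_div,
      abs_of_pos (show 0 < 2 * T by positivity), div_lt_iff₀ (by positivity)]
    refine hab.trans_lt ?_
    have h5 : ε * (c * (Yh3 Z) ^ 4) ≤ ε * T := mul_le_mul_of_nonneg_left h2 hε.le
    have h6 : 0 < ε * T := mul_pos hε hTp
    linarith

end Pool.Agent.K1H81.T3
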