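import Pool.Agent.K1H81.T3.Stm
import Pool.Agent.K1H81.TT.HGT

/-!
# Piece HGT3 of project T3: the naive height of a semistable curve with a point of order three
(helper37, after `TT.HGT`)
-/

set_option autoImplicit false

namespace Pool.Agent.K1H81.T3

open Pool.Agent.K1H81.TT (Semistable height)
open Pool.Agent.K1H81.TT.HGT (height_eq not_both pr_two pr_three)

namespace HGT3

lemma not_three {a c : ℤ} (h : ¬ (3 : ℤ) ∣ a) : ¬ (3 : ℤ) ∣ G4 a c := by
  intro h1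
  apply h
  have h2 : (3 : ℤ) ∣ a ^ 4 := by
    have e : a ^ 4 = G4 a c + 3 * (8 * a * c) := by unfold G4; ring
    rw [e]
    exact dvd_add h1 (dvd_mul_right _ _)
  exact Int.prime_three.dvd_of_dvd_pow h2

lemma odd_of {a c : ℤ} (h : (2 : ℤ) ∣ G4 a c) : (2 : ℤ) ∣ a := by
  have h2 : (2 : ℤ) ∣ a ^ 4 := by
    have e : a ^ 4 = G4 a c + 2 * (12 * a * c) := by unfold G4; ring
    rw [e]
    exact dvd_add h (dvd_mul_right _ _)
  exact Int.prime_two.dvd_of_dvd_pow h2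

lemma two_case {a c : ℤ} (hc : IsCoprime a c) (h4 : (2 : ℤ) ^ 4 ∣ 27 * G4 a c)
    (h6 : (2 : ℤ) ^ 6 ∣ 54 * G6 a c) : False := by
  have h4' : (2 : ℤ) ∣ G4 a c := by omega
  obtain ⟨b, rfl⟩ := odd_of h4'
  have hodd : ¬ (2 : ℤ) ∣ c := by
    intro h
    have h1 : IsUnit (2 : ℤ) := hc.isUnit_of_dvd' (dvd_mul_right 2 b) h
    rw [Int.isUnit_iff] at h1
    omega
  have e : G6 (2 * b) c = 8 * (2 * (-4 * b ^ 6 + 18 * b ^ 3 * c) - 27 * c ^ 2) := by
    unfold G6; ring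
  rw [e] at h6
  obtain ⟨k, hk⟩ : ∃ k, c = 2 * k + 1 := ⟨c / 2, by omega⟩
  have e2 : 27 * c ^ 2 = 2 * (27 * (2 * k ^ 2 + 2 * k)) + 27 := by rw [hk]; ring
  rw [e2] at h6
  omega

end HGT3

open HGT3 in
theorem t_HGT3 : S_HGT3 := by
  intro W a c hW hadm e4 e6
  obtain ⟨ha3, hc0, hE, hcop⟩ := hadm
  have h3 : ¬ (3 : ℤ) ∣ W.c₄ := by rw [e4]; exact not_three ha3
  have hno : ∀ q : ℕ, q.Prime → ¬ ((q : ℤ) ^ 4 ∣ -(27 * W.c₄) ∧ (q : ℤ) ^ 6 ∣ -(54 * W.c₆)) := by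
    rintro q hq ⟨h4, h6⟩
    rw [dvd_neg] at h4 h6
    by_cases hq3 : q = 3
    · subst hq3
      apply h3
      have e : ((3 : ℕ) : ℤ) ^ 4 = 27 * 3 := by norm_num
      rw [e] at h4
      exact Int.dvd_of_mul_dvd_mul_left (by norm_num) h4
    · by_cases hq2 : q = 2
      · subst hq2
        rw [e4] at h4
        rw [e6] at h6
        exact two_case hcop (by exact_mod_cast h4) (by exact_mod_cast h6)
      · have h4' : (q : ℤ) ∣ W.c₄ := pr_three hq hq3 ((dvd_pow_self _ (by norm_num)).trans h4)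
        refine not_both hW hq hq2 hq3 h4' ?_
        have e : 54 * W.c₆ = 2 * (27 * W.c₆) := by ring
        rw [e] at h6
        exact pr_three hq hq3 (pr_two hq hq2 ((dvd_pow_self _ (by norm_num)).trans h6))
  have h5 := height_eq (W := W) hno (t0 := 6) (by norm_num)
    (by push_cast; ring) (by push_cast; ring)
  rw [h5]
  simp only [Int.natAbs_neg, Int.natAbs_mul]
  have e27 : (27 : ℤ).natAbs = 27 := rfl
  have e54 : (54 : ℤ).natAbs = 54 := rfl
  rw [e27, e54, ← Nat.mul_max_mul_left]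
  congr 1
  · ring
  · ring

end Pool.Agent.K1H81.T3
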