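import Pool.Agent.K1H81.T3.Stm

set_option autoImplicit false

namespace Pool.Agent.K1H81.T3

/-- INJ3 (backup) -/
theorem t_INJ3' : S_INJ3 := by
  intro a c a' c' ha ha' hA hA' h4 h6
  unfold G4 at h4
  unfold G6 at h6
  have hc' : (c' : ℚ) ≠ 0 := by exact_mod_cast hA'.2.1
  have haq : (a : ℚ) ≠ 0 := by exact_mod_cast ha.ne'
  have g4 : (a : ℚ) ^ 4 - 24 * a * c = (a' : ℚ) ^ 4 - 24 * a' * c' := by exact_mod_cast h4
  have g6 : -(a : ℚ) ^ 6 + 36 * a ^ 3 * c - 216 * c ^ 2 = -(a' : ℚ) ^ 6 + 36 * a' ^ 3 * c' - 216 * c' ^ 2 := by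
    exact_mod_cast h6
  obtain ⟨x, hx⟩ : ∃ x : ℚ, x = ((a' : ℚ) ^ 2 - a ^ 2) / 12 := ⟨_, rfl⟩
  have e2 : (a' : ℚ) ^ 2 = a ^ 2 + 12 * x := by rw [hx]; ring
  have e4 : (a' : ℚ) * c' = a * c + a ^ 2 * x + 6 * x ^ 2 := by
    have h : (a' : ℚ) ^ 4 = (a ^ 2 + 12 * x) ^ 2 := by rw [← e2]; ring
    linear_combination (-1 / 24 : ℚ) * g4.symm + (1 / 24 : ℚ) * h
  have e6 : (c' : ℚ) ^ 2 = c ^ 2 + 2 * x * (a * c) + x ^ 2 * a ^ 2 + 4 * x ^ 3 := by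
    have h1 : (a' : ℚ) ^ 6 = (a ^ 2 + 12 * x) ^ 3 := by rw [← e2]; ring
    have h2 : (a' : ℚ) ^ 3 * c' = (a ^ 2 + 12 * x) * (a * c + a ^ 2 * x + 6 * x ^ 2) := by
      rw [← e2, ← e4]; ring
    linear_combination (1 / 216 : ℚ) * g6 - (1 / 216 : ℚ) * h1 + (1 / 6 : ℚ) * h2
  have e7 : 4 * x * (3 * c ^ 2 + 3 * a * c * x + a ^ 2 * x ^ 2 + 3 * x ^ 3) = 0 := by
    have h : ((a' : ℚ) ^ 2) * (c' : ℚ) ^ 2 = (a' * c') ^ 2 := by ring
    rw [e2, e6, e4] at h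
    linear_combination h
  by_cases hx0 : x = 0
  · have h1 : (a' : ℚ) ^ 2 = a ^ 2 := by rw [e2, hx0]; ring
    have h2 : a' ^ 2 = a ^ 2 := by exact_mod_cast h1
    have h3 : a' = a := by
      rcases sq_eq_sq_iff_eq_or_eq_neg.1 h2 with h | h
      · exact h
      · omega
    have h5 : (a : ℚ) * c' = a * c := by
      have := e4
      rw [hx0, h3] at this
      linarith
    refine ⟨h3.symm, ?_⟩
    have := mul_left_cancel₀ haq h5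
    exact_mod_cast this.symm
  · exfalso
    have h1 : 3 * (c : ℚ) ^ 2 + 3 * a * c * x + a ^ 2 * x ^ 2 + 3 * x ^ 3 = 0 := by
      rcases mul_eq_zero.1 e7 with h | h
      · exact absurd h (mul_ne_zero (by norm_num) hx0)
      · exact h
    have h2 : 3 * (c' : ℚ) ^ 2 + (a * x + 3 * c) ^ 2 = 0 := by
      linear_combination 3 * e6 + 4 * h1
    have h3 : 0 < (c' : ℚ) ^ 2 := by positivity
    nlinarith [sq_nonneg ((a : ℚ) * x + 3 * c)]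

end Pool.Agent.K1H81.T3
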