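import Pool.Agent.K1H81.T3.Stm
import Pool.Agent.K1H81.TT.Inv

set_option autoImplicit false

/-! Project T3, piece INV3: `w3` times the two Möbius functions is locally constant. -/

namespace Pool.Agent.K1H81.T3

namespace INV3

open Finset
open Pool.Agent.K1H81.TT (QQ gg mm)
open Pool.Agent.K1H81.TT.INV (Nice cof_sqfree cof_coprime mu_prod jac_left cast_pow_dvd gcd_eq)

theorem nice_c {y K : ℕ} {a c : ℤ} (hA : Adm3 a c) (hB : ¬ Bad3 y K a c) :
    Nice y K c.natAbs := by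
  refine ⟨Int.natAbs_ne_zero.2 hA.2.1, fun p hp h h' => hB ⟨p, hp, Or.inl ⟨h, Or.inl ?_⟩⟩,
    fun p hp h h' => hB ⟨p, hp, Or.inr ⟨h, Or.inl ?_⟩⟩⟩
  · exact cast_pow_dvd.2 h'
  · exact cast_pow_dvd.2 h'

theorem nice_E {y K : ℕ} {a c : ℤ} (hA : Adm3 a c) (hB : ¬ Bad3 y K a c) :
    Nice y K (E3 a c).natAbs := by
  refine ⟨Int.natAbs_ne_zero.2 hA.2.2.1,
    fun p hp h h' => hB ⟨p, hp, Or.inl ⟨h, Or.inr (Or.inl ?_)⟩⟩,
    fun p hp h h' => hB ⟨p, hp, Or.inr ⟨h, Or.inr ?_⟩⟩⟩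
  · exact cast_pow_dvd.2 h'
  · exact cast_pow_dvd.2 h'

theorem E3_not_dvd {a c : ℤ} (hA : Adm3 a c) : ¬ (3 : ℤ) ∣ E3 a c := by
  intro h
  apply hA.1
  have h1 : (3 : ℤ) ∣ a ^ 3 := by
    have h2 : a ^ 3 = E3 a c + 3 * (9 * c) := by unfold E3; ring
    rw [h2]
    exact dvd_add h (dvd_mul_right _ _)
  exact Int.prime_three.dvd_of_dvd_pow h1

theorem formula {y K : ℕ} {a c : ℤ} (hA : Adm3 a c) (hB : ¬ Bad3 y K a c) :
    w3 a c * mm y K c * mm y K (E3 a c) =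
      -((∏ _p ∈ (gg y K c).primeFactors, (-1 : ℤ)) *
        (∏ p ∈ (gg y K (E3 a c)).primeFactors, (-jacobiSym (p : ℤ) 3)) *
        jacobiSym ((E3 a c).natAbs : ℤ) 3 * jacobiSym (gg y K (E3 a c) : ℤ) 3) := by
  have hD := nice_c hA hB
  have hE := nice_E hA hB
  obtain ⟨g, hg⟩ : ∃ g, g = gg y K c := ⟨_, rfl⟩
  obtain ⟨h, hh⟩ : ∃ h, h = gg y K (E3 a c) := ⟨_, rfl⟩
  obtain ⟨m, hm⟩ : ∃ m, m = c.natAbs / g := ⟨_, rfl⟩
  obtain ⟨n, hn⟩ : ∃ n, n = (E3 a c).natAbs / h := ⟨_, rfl⟩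
  have hgD : g ∣ c.natAbs := by rw [hg]; exact Nat.gcd_dvd_left _ _
  have hhE : h ∣ (E3 a c).natAbs := by rw [hh]; exact Nat.gcd_dvd_left _ _
  have e1 : c.natAbs = g * m := by rw [hm, Nat.mul_div_cancel' hgD]
  have e2 : (E3 a c).natAbs = h * n := by rw [hn, Nat.mul_div_cancel' hhE]
  have sm : Squarefree m := by rw [hm, hg]; exact cof_sqfree hD
  have sn : Squarefree n := by rw [hn, hh]; exact cof_sqfree hE
  have cgm : Nat.Coprime g m := by rw [hm, hg]; exact cof_coprime hD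
  have chn : Nat.Coprime h n := by rw [hn, hh]; exact cof_coprime hE
  have mum : mm y K c = ArithmeticFunction.moebius m := by
    unfold mm
    rw [← hg, ← hm]
  have mun : mm y K (E3 a c) = ArithmeticFunction.moebius n := by
    unfold mm
    rw [← hh, ← hn]
  have sq1 : ArithmeticFunction.moebius m ^ 2 = 1 :=
    ArithmeticFunction.moebius_sq_eq_one_of_squarefree sm
  have sq2 : ArithmeticFunction.moebius n ^ 2 = 1 :=
    ArithmeticFunction.moebius_sq_eq_one_of_squarefree sn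
  -- the products
  have p1 : ∏ _p ∈ c.natAbs.primeFactors, (-1 : ℤ) =
      (∏ _p ∈ g.primeFactors, (-1 : ℤ)) * ArithmeticFunction.moebius m := by
    have h1 := mu_prod sm (fun _ => 1)
    simp only [prod_const_one, mul_one] at h1
    rw [e1, cgm.primeFactors_mul, prod_union cgm.disjoint_primeFactors, h1]
  have p2 : ∏ p ∈ (E3 a c).natAbs.primeFactors, (-jacobiSym (p : ℤ) 3) =
      (∏ p ∈ h.primeFactors, (-jacobiSym (p : ℤ) 3)) *
        (ArithmeticFunction.moebius n * jacobiSym (n : ℤ) 3) := by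
    rw [e2, chn.primeFactors_mul, prod_union chn.disjoint_primeFactors,
      mu_prod sn (fun p => jacobiSym (p : ℤ) 3)]
    congr 2
    conv_rhs => rw [← Nat.prod_primeFactors_of_squarefree sn]
    rw [jac_left]
  -- the symbols
  have q1 : jacobiSym (h : ℤ) 3 ^ 2 = 1 := by
    apply jacobiSym.sq_one
    have h1 : ¬ 3 ∣ h := by
      intro h3
      apply E3_not_dvd hA
      rw [← Int.natCast_dvd_natCast] at h3
      have h4 : ((h : ℕ) : ℤ) ∣ E3 a c := Int.natCast_dvd.2 hhE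
      exact (by exact_mod_cast h3 : (3 : ℤ) ∣ (h : ℤ)).trans h4
    have h2 : Nat.Coprime h 3 := ((Nat.Prime.coprime_iff_not_dvd Nat.prime_three).2 h1).symm
    rw [Int.gcd_natCast_natCast]
    exact h2
  have r1 : jacobiSym ((E3 a c).natAbs : ℤ) 3 = jacobiSym (h : ℤ) 3 * jacobiSym (n : ℤ) 3 := by
    rw [e2, Nat.cast_mul, jacobiSym.mul_left]
  rw [r1, ← hg, ← hh, mum, mun]
  unfold w3
  rw [p1, p2]
  generalize (∏ _p ∈ g.primeFactors, (-1 : ℤ)) = G1
  generalize (∏ p ∈ h.primeFactors, (-jacobiSym (p : ℤ) 3)) = G2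
  generalize jacobiSym (h : ℤ) 3 = x at *
  generalize jacobiSym (n : ℤ) 3 = z at *
  generalize ArithmeticFunction.moebius m = u at *
  generalize ArithmeticFunction.moebius n = v at *
  calc -(G1 * u * (G2 * (v * z))) * u * v = -(G1 * G2 * z) * (u ^ 2 * v ^ 2) := by ring
    _ = -(G1 * G2 * z) * 1 := by rw [sq1, sq2, one_mul]
    _ = -(G1 * G2 * z) * x ^ 2 := by rw [q1]
    _ = _ := by ring

theorem abs_congr {u v : ℤ} (h : u ≡ v [ZMOD 3]) (hs : 0 < u ↔ 0 < v) (hu : u ≠ 0)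
    (hv : v ≠ 0) : jacobiSym (u.natAbs : ℤ) 3 = jacobiSym (v.natAbs : ℤ) 3 := by
  apply jacobiSym.mod_left'
  rcases lt_trichotomy u 0 with h1 | h1 | h1
  · have h2 : v < 0 := by
      have : ¬ 0 < v := fun h3 => absurd (hs.2 h3) (by omega)
      omega
    rw [Int.ofNat_natAbs_of_nonpos h1.le, Int.ofNat_natAbs_of_nonpos h2.le]
    exact h.neg
  · exact absurd h1 hu
  · have h2 : 0 < v := hs.1 h1
    rw [Int.natAbs_of_nonneg h1.le, Int.natAbs_of_nonneg h2.le]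
    exact h

end INV3

open Pool.Agent.K1H81.TT (QQ) in
open Pool.Agent.K1H81.TT.INV (cof_sqfree gcd_eq) in
open INV3 in
theorem t_INV3 : S_INV3 := by
  intro y K _
  refine ⟨?_, ?_⟩
  · intro a c hA hB
    exact ⟨ArithmeticFunction.moebius_sq_eq_one_of_squarefree (cof_sqfree (nice_c hA hB)),
      ArithmeticFunction.moebius_sq_eq_one_of_squarefree (cof_sqfree (nice_E hA hB))⟩
  · intro a c a' c' hA hA' hB hB' haa hcc s1 s2
    have hEE : E3 a c ≡ E3 a' c' [ZMOD (24 * QQ y K : ℕ)] := by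
      unfold E3
      exact (haa.pow 3).sub (hcc.mul_left 27)
    rw [formula hA hB, formula hA' hB', gcd_eq hcc, gcd_eq hEE]
    have h3 : E3 a c ≡ E3 a' c' [ZMOD 3] := by
      apply hEE.of_dvd
      exact_mod_cast (⟨8 * QQ y K, by ring⟩ : 3 ∣ 24 * QQ y K)
    rw [abs_congr h3 s2 hA.2.2.1 hA'.2.2.1]

end Pool.Agent.K1H81.T3
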