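import Pool.Agent.K1H81.T3.Stm
import Pool.Agent.K1H81.TT.LOW

/-!
Project T3, pieces BOX3 and LOW3.
-/

set_option autoImplicit false

namespace Pool.Agent.K1H81.T3

open Finset

namespace LOW3

theorem quartic (s y x z : ℝ) (hs : 0 ≤ s) (hy : 0 ≤ y) (hx : |x| ≤ y ^ 2) (hz : |z| ≤ y ^ 3)
    (h : s ^ 4 - 6 * x * s ^ 2 - 8 * z * s - 3 * x ^ 2 = 0) : s ≤ 3 * y := by
  by_contra hc
  push Not at hc
  have hx1 := (abs_le.1 hx).2
  have hz1 := (abs_le.1 hz).2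
  have hx2 : x ^ 2 ≤ (y ^ 2) ^ 2 := by
    rw [← sq_abs]
    gcongr
  have h1 : s ^ 4 ≤ 6 * y ^ 2 * s ^ 2 + 8 * y ^ 3 * s + 3 * y ^ 4 := by
    have e1 : 6 * x * s ^ 2 ≤ 6 * y ^ 2 * s ^ 2 := by gcongr
    have e2 : 8 * z * s ≤ 8 * y ^ 3 * s := by gcongr
    have e3 : 3 * x ^ 2 ≤ 3 * y ^ 4 := by nlinarith
    linarith
  have h2 : 0 < (s - 3 * y) * (s + y) ^ 3 := by
    have : 0 < s - 3 * y := by linarith
    have : 0 < s + y := by linarith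
    positivity
  nlinarith

end LOW3

open LOW3 in
theorem t_BOX3 : S_BOX3 := by
  intro Y a c hY hReg
  obtain ⟨h4, h6⟩ := hReg
  unfold G4 at h4
  unfold G6 at h6
  push_cast at h4 h6
  have hs : (a : ℝ) ^ 2 ≤ 3 * Y ^ 2 := by
    refine quartic ((a : ℝ) ^ 2) (Y ^ 2) _ _ (sq_nonneg _) (sq_nonneg _) (h4.trans ?_) (h6.trans ?_) ?_
    · exact le_of_eq (by ring)
    · exact le_of_eq (by ring)
    · ring
  have ha : |(a : ℝ)| ≤ 2 * Y := by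
    apply abs_le_of_sq_le_sq _ (by positivity)
    nlinarith [sq_nonneg Y]
  refine ⟨ha, ?_⟩
  have hs3 : (a : ℝ) ^ 6 ≤ 27 * Y ^ 6 := by
    have : ((a : ℝ) ^ 2) ^ 3 ≤ (3 * Y ^ 2) ^ 3 := by gcongr
    calc (a : ℝ) ^ 6 = ((a : ℝ) ^ 2) ^ 3 := by ring
      _ ≤ (3 * Y ^ 2) ^ 3 := this
      _ = 27 * Y ^ 6 := by ring
  have hY3 : 0 ≤ Y ^ 3 := by positivity
  have hY6 : 0 ≤ Y ^ 6 := by positivity
  have h6' := (abs_le.1 h6).1
  have hu : |(c : ℝ) - (a : ℝ) ^ 3 / 12| ≤ 27 / 100 * Y ^ 3 := by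
    apply abs_le_of_sq_le_sq _ (by positivity)
    have e1 : 216 * ((c : ℝ) - (a : ℝ) ^ 3 / 12) ^ 2 = (a : ℝ) ^ 6 / 2 -
        (-(a : ℝ) ^ 6 + 36 * (a : ℝ) ^ 3 * c - 216 * (c : ℝ) ^ 2) := by ring
    have e2 : (27 / 100 * Y ^ 3) ^ 2 = (729 / 10000) * Y ^ 6 := by ring
    rw [e2]
    linarith
  have hv : |(a : ℝ) ^ 3 / 12| ≤ 44 / 100 * Y ^ 3 := by
    apply abs_le_of_sq_le_sq _ (by positivity)
    have e1 : ((a : ℝ) ^ 3 / 12) ^ 2 = (a : ℝ) ^ 6 / 144 := by ring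
    have e2 : (44 / 100 * Y ^ 3) ^ 2 = (1936 / 10000) * Y ^ 6 := by ring
    rw [e1, e2]
    linarith
  have e3 : (c : ℝ) = ((c : ℝ) - (a : ℝ) ^ 3 / 12) + (a : ℝ) ^ 3 / 12 := by ring
  rw [e3]
  refine (abs_add_le _ _).trans ?_
  linarith

theorem t_LOW3 : S_LOW3 := by
  refine ⟨1 / 4000, by norm_num, 1000, fun Y hY => ?_⟩
  have hY0 : 0 ≤ Y := by linarith
  set m := ⌊Y / 24⌋₊ with hm
  set n := ⌊Y ^ 3 / 20⌋₊ with hn
  have hm1 : (m : ℝ) ≤ Y / 24 := Nat.floor_le (by positivity)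
  have hm2 : Y / 24 < m + 1 := Nat.lt_floor_add_one _
  have hn1 : (n : ℝ) ≤ Y ^ 3 / 20 := Nat.floor_le (by positivity)
  have hn2 : Y ^ 3 / 20 < n + 1 := Nat.lt_floor_add_one _
  have hm40 : 40 ≤ m := by
    have : (39 : ℝ) < m := by linarith
    exact_mod_cast this
  have h1 := TT.LOW.count m n hm40
  have h2 : ((range m ×ˢ Ioc 0 n).filter fun z => Nat.Coprime (12 * z.1 + 1) z.2).card ≤
      (FS3 Y).card := by
    refine card_le_card_of_injOn (fun z => (((12 * z.1 + 1 : ℕ) : ℤ), ((z.2 : ℕ) : ℤ))) ?_ ?_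
    · rintro ⟨a, D⟩ hz
      simp only [coe_filter, Set.mem_setOf_eq, mem_product, mem_range, mem_Ioc] at hz
      obtain ⟨⟨ha, hD0, hDn⟩, hco⟩ := hz
      have hA : ((12 * a + 1 : ℕ) : ℝ) ≤ Y / 2 := by
        have : ((12 * a + 1 : ℕ) : ℝ) ≤ ((12 * m : ℕ) : ℝ) := by exact_mod_cast (by omega)
        push_cast at this ⊢
        linarith
      have hA0 : (0 : ℝ) < ((12 * a + 1 : ℕ) : ℝ) := by positivity
      have hD : (D : ℝ) ≤ Y ^ 3 / 20 := by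
        have : (D : ℝ) ≤ n := by exact_mod_cast hDn
        linarith
      have hD0' : (0 : ℝ) < D := by exact_mod_cast hD0
      have hY3 : 0 ≤ Y ^ 3 := by positivity
      have hY6 : 0 ≤ Y ^ 6 := by positivity
      set x : ℝ := ((12 * a + 1 : ℕ) : ℝ) with hx
      set d : ℝ := (D : ℝ) with hd
      have hx3 : x ^ 3 ≤ Y ^ 3 / 8 := by
        have : x ^ 3 ≤ (Y / 2) ^ 3 := by gcongr
        calc x ^ 3 ≤ (Y / 2) ^ 3 := this
          _ = Y ^ 3 / 8 := by ring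
      have hx30 : 0 < x ^ 3 := by positivity
      have h3a : ¬ (3 : ℤ) ∣ ((12 * a + 1 : ℕ) : ℤ) := by
        push_cast
        omega
      simp only [FS3, coe_filter, Set.mem_setOf_eq, Bx3, mem_product, mem_Icc]
      have hceil : Y ≤ (⌈Y⌉₊ : ℝ) := Nat.le_ceil Y
      refine ⟨⟨⟨?_, ?_⟩, ?_, ?_⟩, ⟨h3a, ?_, ?_, ?_⟩, ?_, ?_⟩
      · push_cast
        omega
      · have : ((12 * a + 1 : ℕ) : ℝ) ≤ 2 * (⌈Y⌉₊ : ℝ) := by linarith
        exact_mod_cast this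
      · have : (0 : ℤ) ≤ (⌈Y⌉₊ : ℤ) ^ 3 := by positivity
        have : (0 : ℤ) < (D : ℤ) := by exact_mod_cast hD0
        omega
      · have h3 : Y ^ 3 ≤ (⌈Y⌉₊ : ℝ) ^ 3 := by gcongr
        have : (D : ℝ) ≤ (⌈Y⌉₊ : ℝ) ^ 3 := by linarith
        exact_mod_cast this
      · exact_mod_cast hD0.ne'
      · unfold E3
        intro h3
        apply h3a
        have h4 : ((12 * a + 1 : ℕ) : ℤ) ^ 3 = 3 * (9 * (D : ℤ)) := by linarith
        exact Int.prime_three.dvd_of_dvd_pow (Dvd.intro _ h4.symm)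
      · exact Nat.isCoprime_iff_coprime.mpr hco
      · unfold G4
        have e1 : (((((12 * a + 1 : ℕ) : ℤ) ^ 4 - 24 * ((12 * a + 1 : ℕ) : ℤ) * ((D : ℕ) : ℤ) : ℤ)) : ℝ) =
            x * (x ^ 3 - 24 * d) := by
          rw [hx, hd]
          push_cast
          ring
        rw [e1, abs_mul, abs_of_pos hA0]
        have e2 : |x ^ 3 - 24 * d| ≤ 2 * Y ^ 3 := by
          rw [abs_le]
          constructor <;> linarith
        calc x * |x ^ 3 - 24 * d| ≤ (Y / 2) * (2 * Y ^ 3) := by gcongr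
          _ = Y ^ 4 := by ring
      · unfold G6
        have e1 : ((((-((12 * a + 1 : ℕ) : ℤ) ^ 6 + 36 * ((12 * a + 1 : ℕ) : ℤ) ^ 3 * ((D : ℕ) : ℤ) -
            216 * ((D : ℕ) : ℤ) ^ 2 : ℤ))) : ℝ) = -(x ^ 3) ^ 2 + 36 * (x ^ 3 * d) - 216 * d ^ 2 := by
          rw [hx, hd]
          push_cast
          ring
        rw [e1]
        have e2 : (x ^ 3) ^ 2 ≤ (Y ^ 3 / 8) ^ 2 := by gcongr
        have e3 : x ^ 3 * d ≤ (Y ^ 3 / 8) * (Y ^ 3 / 20) := by gcongr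
        have e4 : d ^ 2 ≤ (Y ^ 3 / 20) ^ 2 := by gcongr
        have e5 : 0 ≤ x ^ 3 * d := by positivity
        have e6 : (Y ^ 3 / 8) ^ 2 = Y ^ 6 / 64 := by ring
        have e7 : (Y ^ 3 / 8) * (Y ^ 3 / 20) = Y ^ 6 / 160 := by ring
        have e8 : (Y ^ 3 / 20) ^ 2 = Y ^ 6 / 400 := by ring
        have e9 : 0 ≤ (x ^ 3) ^ 2 := by positivity
        have e10 : 0 ≤ d ^ 2 := by positivity
        rw [abs_le]
        constructor <;> linarith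
    · rintro ⟨a, D⟩ _ ⟨b, D'⟩ _ h
      simp only [Prod.mk.injEq] at h
      obtain ⟨h3, h4⟩ := h
      have h5 : a = b := by
        have : 12 * a + 1 = 12 * b + 1 := by exact_mod_cast h3
        omega
      have h6 : D = D' := by exact_mod_cast h4
      rw [h5, h6]
  have h3 : ((((range m ×ˢ Ioc 0 n).filter fun z => Nat.Coprime (12 * z.1 + 1) z.2).card : ℕ) : ℝ) ≤
      ((FS3 Y).card : ℝ) := by exact_mod_cast h2
  refine le_trans ?_ (h1.trans h3)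
  have h4 : Y / 48 ≤ m := by linarith
  have h5 : Y ^ 3 / 40 ≤ n := by
    have : (1000 : ℝ) ^ 3 ≤ Y ^ 3 := by gcongr
    linarith
  calc 1 / 4000 * Y ^ 4 ≤ (Y / 48) * (Y ^ 3 / 40) / 2 := by nlinarith [pow_nonneg hY0 4]
    _ ≤ (m : ℝ) * n / 2 := by gcongr

end Pool.Agent.K1H81.T3
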