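import Pool.Agent.K1H81.T3.Stm

/-!
# PAR3 and CONV3: parametrization of the semistable curves with a rational point of order three
-/

set_option autoImplicit false

namespace Pool.Agent.K1H81.T3

open Pool.Agent.K1H81.TT (Semistable)

namespace PAR3

theorem int_root4 (b c d e : ℤ) (r : ℚ) (h : r ^ 4 + b * r ^ 3 + c * r ^ 2 + d * r + e = 0) :
    ∃ z : ℤ, (z : ℚ) = r := by
  have hm : (Polynomial.X ^ 4 + Polynomial.C b * Polynomial.X ^ 3 + Polynomial.C c *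
      Polynomial.X ^ 2 + Polynomial.C d * Polynomial.X + Polynomial.C e : Polynomial ℤ).Monic := by
    monicity!
  have := isInteger_of_is_root_of_monic hm (r := r) (by simpa using h)
  obtain ⟨z, hz⟩ := this
  exact ⟨z, by simpa using hz⟩

theorem int_sq (n : ℤ) (r : ℚ) (h : r ^ 2 = n) : ∃ z : ℤ, (z : ℚ) = r := by
  refine int_root4 0 (-n) 0 0 r ?_
  push_cast
  have : r ^ 4 + 0 * r ^ 3 + -(n : ℚ) * r ^ 2 + 0 * r + 0 = r ^ 2 * (r ^ 2 - n) := by ring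
  rw [this, h]
  ring

theorem adm_of (W : WeierstrassCurve ℤ) (hs : Semistable W) (a c : ℤ)
    (h4 : W.c₄ = G4 a c) (hd : W.Δ = D3 a c) : Adm3 a c := by
  have hne := hs.1
  refine ⟨?_, ?_, ?_, ?_⟩
  · rintro ⟨k, rfl⟩
    refine hs.2 3 Nat.prime_three ?_ ?_
    · rw [hd]
      exact ⟨c ^ 3 * (9 * k ^ 3 - 9 * c), by unfold D3 E3; push_cast; ring⟩
    · rw [h4]
      exact ⟨27 * k ^ 4 - 24 * k * c, by unfold G4; push_cast; ring⟩
  · rintro rfl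
    apply hne
    rw [hd]
    simp [D3]
  · intro h
    apply hne
    rw [hd]
    simp [D3, h]
  · rw [Int.isCoprime_iff_gcd_eq_one]
    by_contra hg
    obtain ⟨p, hp, hpg⟩ := Nat.exists_prime_and_dvd hg
    have hpA : (p : ℤ) ∣ a := (Int.natCast_dvd_natCast.2 hpg).trans (Int.gcd_dvd_left ..)
    have hpD : (p : ℤ) ∣ c := (Int.natCast_dvd_natCast.2 hpg).trans (Int.gcd_dvd_right ..)
    refine hs.2 p hp ?_ ?_
    · rw [hd]
      exact ((hpD.pow (by norm_num)).mul_right _)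
    · rw [h4]
      exact dvd_sub (hpA.pow (by norm_num)) (hpD.mul_left _)

end PAR3

open PAR3

theorem t_PAR3 : S_PAR3 := by
  rintro W hs ⟨x, y, hxy, hpsi⟩
  have h8 := W.b_relation
  have h8q : (4 : ℚ) * W.b₈ = W.b₂ * W.b₆ - W.b₄ ^ 2 := by exact_mod_cast h8
  -- `B6` is a square
  have hB6 : (2 * y + W.a₁ * x + W.a₃) ^ 2 =
      4 * x ^ 3 + W.b₂ * x ^ 2 + 2 * W.b₄ * x + W.b₆ := by
    simp only [WeierstrassCurve.b₂, WeierstrassCurve.b₄, WeierstrassCurve.b₆]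
    push_cast
    linear_combination 4 * hxy
  -- `3 x` is an integer
  obtain ⟨m, hm⟩ := int_root4 W.b₂ (9 * W.b₄) (27 * W.b₆) (27 * W.b₈) (3 * x) (by
    push_cast
    linear_combination 27 * hpsi)
  -- `x` is an integer
  obtain ⟨X, hX⟩ : ∃ X : ℤ, (X : ℚ) = x := by
    have h3 : (3 : ℤ) ∣ m := by
      by_contra hnd
      obtain ⟨M, hM⟩ : ∃ M : ℤ, M = 4 * m ^ 3 + 3 * W.b₂ * m ^ 2 + 18 * W.b₄ * m + 27 * W.b₆ :=
        ⟨_, rfl⟩
      have hMq : (M : ℚ) = 27 * (2 * y + W.a₁ * x + W.a₃) ^ 2 := by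
        rw [hB6, hM]
        push_cast
        rw [hm]
        ring
      obtain ⟨k, hk⟩ := int_sq (3 * M) (9 * (2 * y + W.a₁ * x + W.a₃)) (by
        push_cast
        rw [hMq]
        ring)
      have hk2 : k ^ 2 = 3 * M := by
        have : (k : ℚ) ^ 2 = 3 * M := by
          rw [hk, hMq]
          ring
        exact_mod_cast this
      have h3k : (3 : ℤ) ∣ k := Int.prime_three.dvd_of_dvd_pow ⟨M, hk2⟩
      obtain ⟨k', rfl⟩ := h3k
      have h3M : (3 : ℤ) ∣ M := ⟨k' ^ 2, by linarith⟩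
      have h3m : (3 : ℤ) ∣ 4 * m ^ 3 := by
        obtain ⟨q, hq⟩ := h3M
        exact ⟨q - W.b₂ * m ^ 2 - 6 * W.b₄ * m - 9 * W.b₆, by linarith⟩
      rcases Int.prime_three.dvd_or_dvd h3m with h | h
      · omega
      · exact hnd (Int.prime_three.dvd_of_dvd_pow h)
    obtain ⟨X, rfl⟩ := h3
    refine ⟨X, ?_⟩
    push_cast at hm
    linarith
  subst hX
  -- the `b`-invariants of the translated curve
  obtain ⟨c, hc⟩ := int_sq (4 * X ^ 3 + W.b₂ * X ^ 2 + 2 * W.b₄ * X + W.b₆)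
    (2 * y + W.a₁ * X + W.a₃) (by
      push_cast
      exact hB6)
  obtain ⟨B2, hB2⟩ : ∃ B2 : ℤ, B2 = W.b₂ + 12 * X := ⟨_, rfl⟩
  obtain ⟨B4, hB4⟩ : ∃ B4 : ℤ, B4 = W.b₄ + X * W.b₂ + 6 * X ^ 2 := ⟨_, rfl⟩
  have hc2 : c ^ 2 = 4 * X ^ 3 + W.b₂ * X ^ 2 + 2 * W.b₄ * X + W.b₆ := by
    have : (c : ℚ) ^ 2 = 4 * (X : ℚ) ^ 3 + W.b₂ * (X : ℚ) ^ 2 + 2 * W.b₄ * (X : ℚ) + W.b₆ := by
      rw [hc]
      exact hB6
    exact_mod_cast this
  have hpsiZ : 3 * X ^ 4 + W.b₂ * X ^ 3 + 3 * W.b₄ * X ^ 2 + 3 * W.b₆ * X + W.b₈ = 0 := by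
    exact_mod_cast hpsi
  have hrel : B2 * c ^ 2 = B4 ^ 2 := by
    rw [hc2, hB2, hB4]
    linear_combination 4 * hpsiZ - h8
  have hc4 : W.c₄ = B2 ^ 2 - 24 * B4 := by
    rw [hB2, hB4]
    unfold WeierstrassCurve.c₄
    ring
  have hc6 : W.c₆ = -B2 ^ 3 + 36 * B2 * B4 - 216 * c ^ 2 := by
    rw [hc2, hB2, hB4]
    unfold WeierstrassCurve.c₆
    ring
  have hΔ : W.Δ = -8 * B4 ^ 3 - 27 * c ^ 4 + 9 * B2 * B4 * c ^ 2 := by
    have hd : W.Δ = -W.b₂ ^ 2 * W.b₈ - 8 * W.b₄ ^ 3 - 27 * W.b₆ ^ 2 + 9 * W.b₂ * W.b₄ * W.b₆ := rfl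
    have e4 : c ^ 4 = (4 * X ^ 3 + W.b₂ * X ^ 2 + 2 * W.b₄ * X + W.b₆) ^ 2 := by
      rw [← hc2]; ring
    rw [hd, e4, hc2, hB2, hB4]
    linear_combination (-(W.b₂ + 12 * X) ^ 2) * hpsiZ + (6 * W.b₂ * X + 36 * X ^ 2) * h8
  have hc0 : c ≠ 0 := by
    rintro rfl
    have h1 : B4 = 0 := by
      have : B4 ^ 2 = 0 := by rw [← hrel]; ring
      exact pow_eq_zero_iff (by norm_num) |>.1 this
    apply hs.1
    rw [hΔ, h1]
    ring
  obtain ⟨a, ha⟩ := int_sq B2 ((B4 : ℚ) / c) (by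
    have hcq : (c : ℚ) ≠ 0 := by exact_mod_cast hc0
    have h1 : (B2 : ℚ) * (c : ℚ) ^ 2 = (B4 : ℚ) ^ 2 := by exact_mod_cast hrel
    rw [div_pow, div_eq_iff (pow_ne_zero _ hcq), h1])
  have hac : B4 = a * c := by
    have hcq : (c : ℚ) ≠ 0 := by exact_mod_cast hc0
    rw [eq_div_iff hcq] at ha
    exact_mod_cast ha.symm
  have ha2 : B2 = a ^ 2 := by
    have h1 : B2 * c ^ 2 = a ^ 2 * c ^ 2 := by rw [hrel, hac]; ring
    exact mul_right_cancel₀ (pow_ne_zero 2 hc0) h1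
  have e4 : W.c₄ = G4 a c := by
    rw [hc4, hac, ha2]
    unfold G4
    ring
  have e6 : W.c₆ = G6 a c := by
    rw [hc6, hac, ha2]
    unfold G6
    ring
  have eD : W.Δ = D3 a c := by
    rw [hΔ, hac, ha2]
    unfold D3 E3
    ring
  have hadm := adm_of W hs a c e4 eD
  have ha0 : a ≠ 0 := by
    rintro rfl
    exact hadm.1 (dvd_zero _)
  rcases lt_or_gt_of_ne ha0 with hneg | hpos
  · have e4' : W.c₄ = G4 (-a) (-c) := by
      rw [e4]; unfold G4; ring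
    have e6' : W.c₆ = G6 (-a) (-c) := by
      rw [e6]; unfold G6; ring
    have eD' : W.Δ = D3 (-a) (-c) := by
      rw [eD]; unfold D3 E3; ring
    exact ⟨-a, -c, by omega, adm_of W hs _ _ e4' eD', e4', e6'⟩
  · exact ⟨a, c, hpos, hadm, e4, e6⟩

theorem t_CONV3 : S_CONV3 := by
  intro a c h
  obtain ⟨h3, hc0, hE, hcop⟩ := h
  have e4 : (⟨a, 0, c, 0, 0⟩ : WeierstrassCurve ℤ).c₄ = G4 a c := by
    simp only [G4, WeierstrassCurve.c₄, WeierstrassCurve.b₂, WeierstrassCurve.b₄]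
    ring
  have e6 : (⟨a, 0, c, 0, 0⟩ : WeierstrassCurve ℤ).c₆ = G6 a c := by
    simp only [G6, WeierstrassCurve.c₆, WeierstrassCurve.b₂, WeierstrassCurve.b₄,
      WeierstrassCurve.b₆]
    ring
  have eD : (⟨a, 0, c, 0, 0⟩ : WeierstrassCurve ℤ).Δ = D3 a c := by
    simp only [D3, E3, WeierstrassCurve.Δ, WeierstrassCurve.b₂, WeierstrassCurve.b₄,
      WeierstrassCurve.b₆, WeierstrassCurve.b₈]
    ring
  refine ⟨⟨a, 0, c, 0, 0⟩, ⟨?_, ?_⟩, ⟨0, 0, ?_, ?_⟩, e4, e6⟩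
  · rw [eD]
    exact mul_ne_zero (pow_ne_zero _ hc0) hE
  · intro p hp hpd hpc
    rw [eD] at hpd
    rw [e4] at hpc
    have hpp : Prime (p : ℤ) := Nat.prime_iff_prime_int.1 hp
    have key : (p : ℤ) ∣ c → False := by
      intro hpc'
      have h1 : (p : ℤ) ∣ a ^ 4 := (dvd_sub_left (hpc'.mul_left (24 * a))).1 hpc
      exact hpp.not_isUnit (hcop.isUnit_of_dvd' (hpp.dvd_of_dvd_pow h1) hpc')
    have key3 : (p : ℤ) ∣ 3 → (p : ℤ) ∣ E3 a c → False := by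
      intro hp3 hpE
      have h3' : p = 3 := by
        have := Int.natCast_dvd_natCast.1 (by exact_mod_cast hp3 : (p : ℤ) ∣ ((3 : ℕ) : ℤ))
        exact (Nat.prime_dvd_prime_iff_eq hp Nat.prime_three).1 this
      subst h3'
      have h1 : ((3 : ℕ) : ℤ) ∣ a ^ 3 - 27 * c := hpE
      have h2 : (3 : ℤ) ∣ a ^ 3 := by
        have h4 : (3 : ℤ) ∣ a ^ 3 - 27 * c := by exact_mod_cast h1
        exact (dvd_sub_left ⟨9 * c, by ring⟩).1 h4
      exact h3 (Int.prime_three.dvd_of_dvd_pow h2)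
    rcases hpp.dvd_or_dvd hpd with hpD | hpE
    · exact key (hpp.dvd_of_dvd_pow hpD)
    · have h1 : (p : ℤ) ∣ a * (a ^ 3 - 24 * c) := by
        have : G4 a c = a * (a ^ 3 - 24 * c) := by unfold G4; ring
        rwa [this] at hpc
      have hE' : (p : ℤ) ∣ a ^ 3 - 27 * c := hpE
      rcases hpp.dvd_or_dvd h1 with h2 | h2
      · -- `p ∣ a`
        have h4 : (p : ℤ) ∣ 3 ^ 3 * c := by
          have h5 := dvd_sub (h2.pow (by norm_num : (3 : ℕ) ≠ 0)) hE'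
          have h6 : a ^ 3 - (a ^ 3 - 27 * c) = 3 ^ 3 * c := by ring
          rwa [h6] at h5
        rcases hpp.dvd_or_dvd h4 with h5 | h5
        · exact key3 (hpp.dvd_of_dvd_pow h5) hpE
        · exact key h5
      · have h4 : (p : ℤ) ∣ 3 * c := by
          have h5 := dvd_sub h2 hE'
          have h6 : a ^ 3 - 24 * c - (a ^ 3 - 27 * c) = 3 * c := by ring
          rwa [h6] at h5
        rcases hpp.dvd_or_dvd h4 with h5 | h5
        · exact key3 h5 hpE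
        · exact key h5
  · simp
  · simp [WeierstrassCurve.b₈]

end Pool.Agent.K1H81.T3
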