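import Pool.Agent.K1H81.T3.Stm

/-!
# Project T3, piece REG3: the region of bounded height is an interval in `c` whose end points have
bounded variation (adapted from `Pool/Agent/K1H81/TT/REG.lean`)
-/

set_option autoImplicit false

namespace Pool.Agent.K1H81.T3

open Finset

namespace REG3

/-- total variation on `[0, 2 N]` -/
noncomputable def TV (N : ℕ) (f : ℤ → ℝ) : ℝ := ∑ A ∈ Ico (0 : ℤ) (2 * N), |f (A + 1) - f A|

theorem TV_nonneg (N : ℕ) (f : ℤ → ℝ) : 0 ≤ TV N f := sum_nonneg fun _ _ => abs_nonneg _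

theorem TV_const (N : ℕ) (c : ℝ) : TV N (fun _ => c) = 0 := by
  unfold TV
  simp

theorem TV_le_add {N : ℕ} {f g h : ℤ → ℝ}
    (H : ∀ A, |f (A + 1) - f A| ≤ |g (A + 1) - g A| + |h (A + 1) - h A|) :
    TV N f ≤ TV N g + TV N h := by
  unfold TV
  rw [← sum_add_distrib]
  exact sum_le_sum fun A _ => H A

theorem TV_add (N : ℕ) (g h : ℤ → ℝ) : TV N (fun A => g A + h A) ≤ TV N g + TV N h := by
  refine TV_le_add fun A => ?_
  have e : g (A + 1) + h (A + 1) - (g A + h A) = (g (A + 1) - g A) + (h (A + 1) - h A) := by ring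
  rw [e]
  exact abs_add_le _ _

theorem TV_smul (N : ℕ) (g : ℤ → ℝ) (c : ℝ) (hc : |c| ≤ 1) : TV N (fun A => c * g A) ≤ TV N g := by
  unfold TV
  refine sum_le_sum fun A _ => ?_
  rw [← mul_sub, abs_mul]
  exact mul_le_of_le_one_left (abs_nonneg _) hc

theorem TV_max (N : ℕ) (g h : ℤ → ℝ) : TV N (fun A => max (g A) (h A)) ≤ TV N g + TV N h := by
  refine TV_le_add fun A => ?_
  refine (abs_max_sub_max_le_max _ _ _ _).trans (max_le ?_ ?_)
  · linarith [abs_nonneg (h (A + 1) - h A)]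
  · linarith [abs_nonneg (g (A + 1) - g A)]

theorem TV_min (N : ℕ) (g h : ℤ → ℝ) : TV N (fun A => min (g A) (h A)) ≤ TV N g + TV N h := by
  refine TV_le_add fun A => ?_
  refine (abs_min_sub_min_le_max _ _ _ _).trans (max_le ?_ ?_)
  · linarith [abs_nonneg (h (A + 1) - h A)]
  · linarith [abs_nonneg (g (A + 1) - g A)]

theorem tele (f : ℤ → ℝ) (M : ℕ) : ∑ A ∈ Ico (0 : ℤ) M, (f (A + 1) - f A) = f M - f 0 := by
  induction M with
  | zero => simp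
  | succ M ih =>
    have e : Ico (0 : ℤ) ((M + 1 : ℕ) : ℤ) = insert (M : ℤ) (Ico (0 : ℤ) M) := by
      ext x
      rw [mem_insert, mem_Ico, mem_Ico]
      push_cast
      omega
    rw [e, sum_insert (by simp), ih]
    push_cast
    ring

theorem TV_mono {N : ℕ} {f : ℤ → ℝ} (hf : Monotone f) : TV N f = f (2 * N) - f 0 := by
  have h := tele f (2 * N)
  push_cast at h
  rw [← h]
  unfold TV
  refine sum_congr rfl fun A _ => ?_
  rw [abs_of_nonneg (sub_nonneg.2 (hf (by omega)))]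

theorem TV_anti {N : ℕ} {f : ℤ → ℝ} (hf : Antitone f) : TV N f = f 0 - f (2 * N) := by
  have h := TV_mono (N := N) (f := fun A => -f A) (fun a b hab => neg_le_neg (hf hab))
  have h2 : TV N (fun A => -f A) = TV N f := by
    unfold TV
    refine sum_congr rfl fun A _ => ?_
    rw [← abs_neg]
    congr 1
    ring
  rw [← h2, h]
  ring

theorem floor_step (x y : ℝ) : |(⌊x⌋ : ℝ) - (⌊y⌋ : ℝ)| ≤ |x - y| + 1 := by
  have h1 := Int.floor_le x
  have h2 := Int.lt_floor_add_one x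
  have h3 := Int.floor_le y
  have h4 := Int.lt_floor_add_one y
  have h5 := abs_le.1 (le_refl |x - y|)
  rw [abs_le]
  constructor <;> linarith [h5.1, h5.2]

theorem ceil_step (x y : ℝ) :
    |((⌈x⌉ - 1 : ℤ) : ℝ) - ((⌈y⌉ - 1 : ℤ) : ℝ)| ≤ |x - y| + 1 := by
  have h1 := Int.le_ceil x
  have h2 := Int.ceil_lt_add_one x
  have h3 := Int.le_ceil y
  have h4 := Int.ceil_lt_add_one y
  have h5 := abs_le.1 (le_refl |x - y|)
  push_cast
  rw [abs_le]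
  constructor <;> linarith [h5.1, h5.2]

theorem TV_step {N : ℕ} {f : ℤ → ℤ} {x : ℤ → ℝ}
    (H : ∀ A, |(f (A + 1) : ℝ) - (f A : ℝ)| ≤ |x (A + 1) - x A| + 1) :
    TV N (fun A => (f A : ℝ)) ≤ TV N x + 2 * N := by
  unfold TV
  have h1 : ∑ A ∈ Ico (0 : ℤ) (2 * N), |(f (A + 1) : ℝ) - (f A : ℝ)| ≤
      ∑ A ∈ Ico (0 : ℤ) (2 * N), (|x (A + 1) - x A| + 1) := sum_le_sum fun A _ => H A
  refine h1.trans ?_
  rw [sum_add_distrib, sum_const, nsmul_eq_mul, Int.card_Ico, mul_one]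
  have h2 : ((2 * (N : ℤ) - 0).toNat : ℝ) = 2 * N := by
    have : (2 * (N : ℤ) - 0).toNat = 2 * N := by omega
    rw [this]
    push_cast
    ring
  rw [h2]

/-- interval condition -/
def IC (N : ℕ) (η K : ℝ) (P : ℤ → ℤ → Prop) : Prop :=
  ∃ l u : ℤ → ℤ, TV N (fun A => (l A : ℝ)) ≤ K ∧ TV N (fun A => (u A : ℝ)) ≤ K ∧
    ∀ a c : ℤ, η * N ≤ (a : ℝ) → (a : ℝ) ≤ 2 * N → -(N : ℤ) ^ 3 < c → c ≤ (N : ℤ) ^ 3 →
      (P a c ↔ (l a < c ∧ c ≤ u a))

variable {N : ℕ} {η K K' : ℝ}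

theorem IC.and {P Q : ℤ → ℤ → Prop} (hP : IC N η K P) (hQ : IC N η K' Q) :
    IC N η (K + K') (fun a c => P a c ∧ Q a c) := by
  obtain ⟨l, u, h1, h2, h3⟩ := hP
  obtain ⟨l', u', h1', h2', h3'⟩ := hQ
  refine ⟨fun A => max (l A) (l' A), fun A => min (u A) (u' A), ?_, ?_, ?_⟩
  · push_cast
    exact (TV_max N _ _).trans (add_le_add h1 h1')
  · push_cast
    exact (TV_min N _ _).trans (add_le_add h2 h2')
  · intro a c ha ha' hc hc'
    beta_reduce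
    rw [h3 a c ha ha' hc hc', h3' a c ha ha' hc hc', max_lt_iff, le_min_iff]
    tauto

theorem IC.congr {P Q : ℤ → ℤ → Prop} (hP : IC N η K P)
    (h : ∀ a c : ℤ, η * N ≤ (a : ℝ) → (a : ℝ) ≤ 2 * N → (Q a c ↔ P a c)) : IC N η K Q := by
  obtain ⟨l, u, h1, h2, h3⟩ := hP
  refine ⟨l, u, h1, h2, ?_⟩
  intro a c ha ha' hc hc'
  rw [h a c ha ha', h3 a c ha ha' hc hc']

theorem cst {x : ℤ → ℝ} (hx : TV N x ≤ K) (z : ℤ) : TV N (fun _ => (z : ℝ)) ≤ K + 2 * N := by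
  rw [TV_const]
  have h1 := TV_nonneg N x
  have h2 : (0 : ℝ) ≤ N := Nat.cast_nonneg N
  linarith

theorem IC.ge (x : ℤ → ℝ) (hx : TV N x ≤ K) : IC N η (K + 2 * N) (fun a c => x a ≤ c) := by
  refine ⟨fun A => ⌈x A⌉ - 1, fun _ => (N : ℤ) ^ 3, ?_, cst hx _, ?_⟩
  · exact (TV_step (x := x) fun A => ceil_step _ _).trans (by linarith)
  · intro a c _ _ _ hc'
    beta_reduce
    rw [← Int.ceil_le, Int.sub_one_lt_iff]
    exact ⟨fun h => ⟨h, hc'⟩, fun h => h.1⟩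

theorem IC.le (x : ℤ → ℝ) (hx : TV N x ≤ K) : IC N η (K + 2 * N) (fun a c => (c : ℝ) ≤ x a) := by
  refine ⟨fun _ => -(N : ℤ) ^ 3, fun A => ⌊x A⌋, cst hx _, ?_, ?_⟩
  · exact (TV_step (x := x) fun A => floor_step _ _).trans (by linarith)
  · intro a c _ _ hc _
    beta_reduce
    rw [← Int.le_floor]
    exact ⟨fun h => ⟨hc, h⟩, fun h => h.2⟩

theorem IC.gt (x : ℤ → ℝ) (hx : TV N x ≤ K) : IC N η (K + 2 * N) (fun a c => x a < c) := by
  refine ⟨fun A => ⌊x A⌋, fun _ => (N : ℤ) ^ 3, ?_, cst hx _, ?_⟩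
  · exact (TV_step (x := x) fun A => floor_step _ _).trans (by linarith)
  · intro a c _ _ _ hc'
    beta_reduce
    rw [← Int.floor_lt]
    exact ⟨fun h => ⟨h, hc'⟩, fun h => h.1⟩

theorem IC.lt (x : ℤ → ℝ) (hx : TV N x ≤ K) : IC N η (K + 2 * N) (fun a c => (c : ℝ) < x a) := by
  refine ⟨fun _ => -(N : ℤ) ^ 3, fun A => ⌈x A⌉ - 1, cst hx _, ?_, ?_⟩
  · exact (TV_step (x := x) fun A => ceil_step _ _).trans (by linarith)
  · intro a c _ _ hc _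
    beta_reduce
    rw [← Int.lt_ceil, Int.le_sub_one_iff]
    exact ⟨fun h => ⟨hc, h⟩, fun h => h.2⟩

/-- the clipped value -/
noncomputable def cl (N : ℕ) (η : ℝ) (A : ℤ) : ℝ := max (η * N) (min (2 * N) (A : ℝ))

theorem cl_eq {A : ℤ} (h1 : η * N ≤ (A : ℝ)) (h2 : (A : ℝ) ≤ 2 * N) : cl N η A = (A : ℝ) := by
  unfold cl
  rw [min_eq_right h2, max_eq_right h1]

theorem cl_mono (N : ℕ) (η : ℝ) : Monotone (cl N η) := by
  intro a b hab
  unfold cl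
  exact max_le_max le_rfl (min_le_min le_rfl (by exact_mod_cast hab))

theorem cl_low (A : ℤ) : η * N ≤ cl N η A := le_max_left _ _

theorem cl_up (hη : 0 < η) (A : ℤ) : cl N η A ≤ (2 + η) * N := by
  unfold cl
  have hN : (0 : ℝ) ≤ N := Nat.cast_nonneg N
  apply max_le
  · nlinarith
  · refine (min_le_left _ _).trans ?_
    nlinarith

/-- the square roots -/
noncomputable def rt (N : ℕ) (η Z : ℝ) (A : ℤ) : ℝ := Real.sqrt ((cl N η A ^ 6 / 2 + Z) / 216)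

theorem TV_bd {f : ℤ → ℝ} (hf : Monotone f) (h0 : ∀ A, 0 ≤ f A) (hB : ∀ A, f A ≤ K) :
    TV N f ≤ K := by
  rw [TV_mono hf]
  linarith [h0 0, hB (2 * N)]

theorem TV_bd' {f : ℤ → ℝ} (hf : Antitone f) (h0 : ∀ A, 0 ≤ f A) (hB : ∀ A, f A ≤ K) :
    TV N f ≤ K := by
  rw [TV_anti hf]
  linarith [h0 (2 * N), hB 0]

/-- the thresholds -/
noncomputable def th (N : ℕ) (η Y α β γ δ ε : ℝ) (A : ℤ) : ℝ :=
  α * cl N η A ^ 3 + β * (Y ^ 4 / cl N η A) + γ + (δ * rt N η (-Y ^ 6) A + ε * rt N η (Y ^ 6) A)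

theorem th_tv (hη : 0 < η) (hN : 1 ≤ N) {Y : ℝ} (hY : 0 ≤ Y) (hYN : Y ≤ N) {α β γ δ ε : ℝ}
    (hα : |α| ≤ 1) (hβ : |β| ≤ 1) (hδ : |δ| ≤ 1) (hε : |ε| ≤ 1) :
    TV N (th N η Y α β γ δ ε) ≤ 4 * (((2 + η) ^ 3 + 1 + 1 / η) * N ^ 3) := by
  have hN1 : (1 : ℝ) ≤ N := by exact_mod_cast hN
  have hN0 : (0 : ℝ) < N := by linarith
  obtain ⟨B, hB⟩ : ∃ B : ℝ, B = ((2 + η) ^ 3 + 1 + 1 / η) * N ^ 3 := ⟨_, rfl⟩
  rw [← hB]
  have hηN : 0 < η * N := by positivity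
  have hc0 : ∀ A, 0 < cl N η A := fun A => lt_of_lt_of_le hηN (cl_low A)
  have hc3 : ∀ A, cl N η A ^ 3 ≤ (2 + η) ^ 3 * N ^ 3 := by
    intro A
    rw [← mul_pow]
    exact pow_le_pow_left₀ (hc0 A).le (cl_up hη A) 3
  have hY3 : Y ^ 3 ≤ (N : ℝ) ^ 3 := pow_le_pow_left₀ hY hYN 3
  have hi : 0 < 1 / η := by positivity
  have hN3 : (0 : ℝ) < (N : ℝ) ^ 3 := by positivity
  have b1 : TV N (fun A => cl N η A ^ 3) ≤ B := by
    refine TV_bd (fun a b hab => pow_le_pow_left₀ (hc0 a).le (cl_mono N η hab) 3)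
      (fun A => pow_nonneg (hc0 A).le 3) (fun A => (hc3 A).trans ?_)
    rw [hB]
    nlinarith
  have b2 : TV N (fun A => Y ^ 4 / cl N η A) ≤ B := by
    refine TV_bd' (fun a b hab => div_le_div_of_nonneg_left (pow_nonneg hY 4) (hc0 a) (cl_mono N η hab))
      (fun A => div_nonneg (pow_nonneg hY 4) (hc0 A).le) (fun A => ?_)
    have h1 : Y ^ 4 / cl N η A ≤ (N : ℝ) ^ 4 / (η * N) :=
      div_le_div₀ (by positivity) (pow_le_pow_left₀ hY hYN 4) hηN (cl_low A)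
    have h2 : (N : ℝ) ^ 4 / (η * N) = 1 / η * N ^ 3 := by
      field_simp
    rw [h2] at h1
    refine h1.trans ?_
    rw [hB]
    have h3 : 0 ≤ ((2 + η) ^ 3 + 1) * (N : ℝ) ^ 3 := by positivity
    nlinarith
  have b3 : ∀ Z : ℝ, Z ≤ Y ^ 6 → TV N (rt N η Z) ≤ B := by
    intro Z hZ
    refine TV_bd (fun a b hab => ?_) (fun A => Real.sqrt_nonneg _) (fun A => ?_)
    · unfold rt
      apply Real.sqrt_le_sqrt
      have h1 : cl N η a ^ 6 ≤ cl N η b ^ 6 := pow_le_pow_left₀ (hc0 a).le (cl_mono N η hab) 6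
      linarith
    · have h1 : rt N η Z A ≤ cl N η A ^ 3 + Y ^ 3 := by
        unfold rt
        have h3 := pow_nonneg (hc0 A).le 3
        have h4 := pow_nonneg hY 3
        rw [Real.sqrt_le_iff]
        refine ⟨by positivity, ?_⟩
        have h5 : (cl N η A ^ 3 + Y ^ 3) ^ 2 = cl N η A ^ 6 + 2 * (cl N η A ^ 3 * Y ^ 3) + Y ^ 6 := by
          ring
        have h6 : 0 ≤ cl N η A ^ 6 := pow_nonneg (hc0 A).le 6
        have h7 : 0 ≤ Y ^ 6 := pow_nonneg hY 6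
        have h8 : 0 ≤ cl N η A ^ 3 * Y ^ 3 := mul_nonneg h3 h4
        rw [h5]
        linarith
      refine h1.trans ?_
      rw [hB]
      have h3 : 0 ≤ 1 / η * (N : ℝ) ^ 3 := by positivity
      nlinarith [hc3 A]
  have hY6 : 0 ≤ Y ^ 6 := pow_nonneg hY 6
  have s1 : TV N (th N η Y α β γ δ ε) ≤
      TV N (fun A => α * cl N η A ^ 3 + β * (Y ^ 4 / cl N η A) + γ) +
        TV N (fun A => δ * rt N η (-Y ^ 6) A + ε * rt N η (Y ^ 6) A) := TV_add N _ _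
  have s2 : TV N (fun A => α * cl N η A ^ 3 + β * (Y ^ 4 / cl N η A) + γ) ≤
      TV N (fun A => α * cl N η A ^ 3 + β * (Y ^ 4 / cl N η A)) + TV N (fun _ => γ) := TV_add N _ _
  have s3 : TV N (fun A => α * cl N η A ^ 3 + β * (Y ^ 4 / cl N η A)) ≤
      TV N (fun A => α * cl N η A ^ 3) + TV N (fun A => β * (Y ^ 4 / cl N η A)) := TV_add N _ _
  have s4 : TV N (fun A => δ * rt N η (-Y ^ 6) A + ε * rt N η (Y ^ 6) A) ≤
      TV N (fun A => δ * rt N η (-Y ^ 6) A) + TV N (fun A => ε * rt N η (Y ^ 6) A) := TV_add N _ _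
  have c1 := (TV_smul N (fun A => cl N η A ^ 3) α hα).trans b1
  have c2 := (TV_smul N (fun A => Y ^ 4 / cl N η A) β hβ).trans b2
  have c3 := (TV_smul N (rt N η (-Y ^ 6)) δ hδ).trans (b3 _ (by linarith))
  have c4 := (TV_smul N (rt N η (Y ^ 6)) ε hε).trans (b3 _ le_rfl)
  rw [TV_const] at s2
  linarith

theorem th_eq {Y α β γ δ ε : ℝ} {A : ℤ} (h1 : η * N ≤ (A : ℝ)) (h2 : (A : ℝ) ≤ 2 * N) :
    th N η Y α β γ δ ε A = α * (A : ℝ) ^ 3 + β * (Y ^ 4 / (A : ℝ)) + γ +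
      (δ * Real.sqrt (((A : ℝ) ^ 6 / 2 + -Y ^ 6) / 216) +
        ε * Real.sqrt (((A : ℝ) ^ 6 / 2 + Y ^ 6) / 216)) := by
  unfold th rt
  rw [cl_eq h1 h2]

end REG3

open REG3 in
theorem t_REG3 (hB : S_BOX3) : S_REG3 := by
  intro η hη
  obtain ⟨b, hb⟩ : ∃ b : ℝ, b = (2 + η) ^ 3 + 1 + 1 / η := ⟨_, rfl⟩
  have hb0 : 0 < b := by rw [hb]; positivity
  refine ⟨14 * (4 * b + 2), by positivity, 1, ?_⟩
  intro N Y hN hY1 hYN hNY sD sE sF hsD hsE hsF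
  have hN1 : (1 : ℝ) ≤ N := by exact_mod_cast hN
  have hN0 : (0 : ℝ) < N := by linarith
  have hY0 : 0 ≤ Y := by linarith
  obtain ⟨K, hK⟩ : ∃ K : ℝ, K = 4 * (b * N ^ 3) := ⟨_, rfl⟩
  have hθ : ∀ α β γ δ ε : ℝ, |α| ≤ 1 → |β| ≤ 1 → |δ| ≤ 1 → |ε| ≤ 1 →
      TV N (th N η Y α β γ δ ε) ≤ K := by
    intro α β γ δ ε hα hβ hδ hε
    have h := th_tv (γ := γ) hη hN hY0 hYN hα hβ hδ hε
    rw [hK, hb]
    exact h
  have h24 : |(1 / 24 : ℝ)| ≤ 1 := by rw [abs_le]; norm_num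
  have h24' : |(-1 / 24 : ℝ)| ≤ 1 := by rw [abs_le]; norm_num
  have h12 : |(1 / 12 : ℝ)| ≤ 1 := by rw [abs_le]; norm_num
  have h27 : |(1 / 27 : ℝ)| ≤ 1 := by rw [abs_le]; norm_num
  have h0 : |(0 : ℝ)| ≤ 1 := by simp
  have h1 : |(1 : ℝ)| ≤ 1 := by simp
  have h1' : |(-1 : ℝ)| ≤ 1 := by simp
  have hApos : ∀ A : ℤ, η * N ≤ (A : ℝ) → 0 < (A : ℝ) := fun A hA =>
    lt_of_lt_of_le (by positivity) hA
  -- the condition of `G4`
  have hG4 : IC N η (K + 2 * N + (K + 2 * N)) (fun a c => |(G4 a c : ℝ)| ≤ Y ^ 4) := by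
    refine ((IC.ge _ (hθ (1 / 24) (-1 / 24) 0 0 0 h24 h24' h0 h0)).and
      (IC.le _ (hθ (1 / 24) (1 / 24) 0 0 0 h24 h24 h0 h0))).congr ?_
    intro a c ha ha'
    have hp := hApos a ha
    rw [th_eq ha ha', th_eq ha ha']
    unfold G4
    push_cast
    have e : (a : ℝ) ^ 4 - 24 * a * c = a * ((a : ℝ) ^ 3 - 24 * c) := by ring
    rw [e, abs_mul, abs_of_pos hp, ← le_div_iff₀' hp, abs_le]
    constructor
    · rintro ⟨h1, h2⟩
      constructor <;> linarith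
    · rintro ⟨h1, h2⟩
      constructor <;> linarith
  -- the condition of `G6` and the sign of `12 c - a ^ 3`
  have key : ∀ a c : ℤ, (|(G6 a c : ℝ)| ≤ Y ^ 6 ↔
      ((a : ℝ) ^ 6 / 2 + -Y ^ 6) / 216 ≤ ((c : ℝ) - (a : ℝ) ^ 3 / 12) ^ 2 ∧
        ((c : ℝ) - (a : ℝ) ^ 3 / 12) ^ 2 ≤ ((a : ℝ) ^ 6 / 2 + Y ^ 6) / 216) := by
    intro a c
    have e : (G6 a c : ℝ) = -(216 * ((c : ℝ) - (a : ℝ) ^ 3 / 12) ^ 2 - (a : ℝ) ^ 6 / 2) := by
      unfold G6
      push_cast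
      ring
    rw [e, abs_neg, abs_le]
    constructor
    · rintro ⟨h1, h2⟩
      constructor <;> linarith
    · rintro ⟨h1, h2⟩
      constructor <;> linarith
  have hG6 : IC N η (K + 2 * N + (K + 2 * N) + (K + 2 * N))
      (fun a c => |(G6 a c : ℝ)| ≤ Y ^ 6 ∧ 0 < sF * (12 * c - a ^ 3)) := by
    rcases hsF with rfl | rfl
    · refine (((IC.ge _ (hθ (1 / 12) 0 0 1 0 h12 h0 h1 h0)).and
        (IC.le _ (hθ (1 / 12) 0 0 0 1 h12 h0 h0 h1))).and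
        (IC.gt _ (hθ (1 / 12) 0 0 0 0 h12 h0 h0 h0))).congr ?_
      intro a c ha ha'
      rw [th_eq ha ha', th_eq ha ha', th_eq ha ha', key]
      have e : (0 < 1 * (12 * c - a ^ 3)) ↔ (0 : ℝ) < (c : ℝ) - (a : ℝ) ^ 3 / 12 := by
        rw [one_mul]
        constructor
        · intro h
          have h' : (0 : ℝ) < 12 * (c : ℝ) - (a : ℝ) ^ 3 := by exact_mod_cast h
          linarith
        · intro h
          have h' : (0 : ℝ) < 12 * (c : ℝ) - (a : ℝ) ^ 3 := by linarith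
          exact_mod_cast h'
      rw [e]
      constructor
      · rintro ⟨⟨h1, h2⟩, h3⟩
        have h4 := Real.sqrt_le_iff.2 ⟨h3.le, h1⟩
        have h5 := (Real.le_sqrt' h3).2 h2
        refine ⟨⟨?_, ?_⟩, ?_⟩ <;> linarith
      · rintro ⟨⟨h1, h2⟩, h3⟩
        have h3' : 0 < (c : ℝ) - (a : ℝ) ^ 3 / 12 := by linarith
        refine ⟨⟨?_, ?_⟩, h3'⟩
        · exact (Real.sqrt_le_iff.1 (by linarith :
            Real.sqrt (((a : ℝ) ^ 6 / 2 + -Y ^ 6) / 216) ≤ (c : ℝ) - (a : ℝ) ^ 3 / 12)).2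
        · exact (Real.le_sqrt' h3').1 (by linarith)
    · refine (((IC.le _ (hθ (1 / 12) 0 0 (-1) 0 h12 h0 h1' h0)).and
        (IC.ge _ (hθ (1 / 12) 0 0 0 (-1) h12 h0 h0 h1'))).and
        (IC.lt _ (hθ (1 / 12) 0 0 0 0 h12 h0 h0 h0))).congr ?_
      intro a c ha ha'
      rw [th_eq ha ha', th_eq ha ha', th_eq ha ha', key]
      have e : (0 < -1 * (12 * c - a ^ 3)) ↔ (0 : ℝ) < (a : ℝ) ^ 3 / 12 - (c : ℝ) := by
        rw [neg_one_mul, neg_pos]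
        constructor
        · intro h
          have h' : 12 * (c : ℝ) - (a : ℝ) ^ 3 < 0 := by exact_mod_cast h
          linarith
        · intro h
          have h' : 12 * (c : ℝ) - (a : ℝ) ^ 3 < 0 := by linarith
          exact_mod_cast h'
      have e2 : ((c : ℝ) - (a : ℝ) ^ 3 / 12) ^ 2 = ((a : ℝ) ^ 3 / 12 - (c : ℝ)) ^ 2 := by ring
      rw [e, e2]
      constructor
      · rintro ⟨⟨h1, h2⟩, h3⟩
        have h4 := Real.sqrt_le_iff.2 ⟨h3.le, h1⟩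
        have h5 := (Real.le_sqrt' h3).2 h2
        refine ⟨⟨?_, ?_⟩, ?_⟩ <;> linarith
      · rintro ⟨⟨h1, h2⟩, h3⟩
        have h3' : 0 < (a : ℝ) ^ 3 / 12 - (c : ℝ) := by linarith
        refine ⟨⟨?_, ?_⟩, h3'⟩
        · exact (Real.sqrt_le_iff.1 (by linarith :
            Real.sqrt (((a : ℝ) ^ 6 / 2 + -Y ^ 6) / 216) ≤ (a : ℝ) ^ 3 / 12 - (c : ℝ))).2
        · exact (Real.le_sqrt' h3').1 (by linarith)
  -- the sign of `c`
  have hD : IC N η (K + 2 * N) (fun _ c => 0 < sD * c) := by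
    rcases hsD with rfl | rfl
    · refine (IC.gt _ (hθ 0 0 0 0 0 h0 h0 h0 h0)).congr ?_
      intro a c ha ha'
      rw [th_eq ha ha']
      simp
    · refine (IC.lt _ (hθ 0 0 0 0 0 h0 h0 h0 h0)).congr ?_
      intro a c ha ha'
      rw [th_eq ha ha']
      simp
  -- the sign of `E3`
  have hE : IC N η (K + 2 * N) (fun a c => 0 < sE * E3 a c) := by
    rcases hsE with rfl | rfl
    · refine (IC.lt _ (hθ (1 / 27) 0 0 0 0 h27 h0 h0 h0)).congr ?_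
      intro a c ha ha'
      rw [th_eq ha ha']
      have e : (0 < 1 * E3 a c) ↔ (0 : ℝ) < (a : ℝ) ^ 3 - 27 * c := by
        rw [one_mul]
        unfold E3
        constructor
        · intro h; exact_mod_cast h
        · intro h; exact_mod_cast h
      rw [e]
      constructor <;> intro h <;> linarith
    · refine (IC.gt _ (hθ (1 / 27) 0 0 0 0 h27 h0 h0 h0)).congr ?_
      intro a c ha ha'
      rw [th_eq ha ha']
      have e : (0 < -1 * E3 a c) ↔ (a : ℝ) ^ 3 - 27 * c < 0 := by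
        rw [neg_one_mul, neg_pos]
        unfold E3
        constructor
        · intro h; exact_mod_cast h
        · intro h; exact_mod_cast h
      rw [e]
      constructor <;> intro h <;> linarith
  obtain ⟨l, u, hl, hu, hlu⟩ := (hG4.and hG6).and (hD.and hE)
  obtain ⟨K7, hK7⟩ : ∃ K7 : ℝ, K7 = 7 * (K + 2 * N) := ⟨_, rfl⟩
  have hl' : TV N (fun A => (l A : ℝ)) ≤ K7 := by rw [hK7]; linarith
  have hu' : TV N (fun A => (u A : ℝ)) ≤ K7 := by rw [hK7]; linarith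
  -- the region is small
  have hsmall : ∀ a c : ℤ, η * N ≤ (a : ℝ) → Reg3 Y a c → -(N : ℤ) ^ 3 < c ∧ c ≤ (N : ℤ) ^ 3 := by
    intro a c ha h
    have hp := hApos a ha
    have hc := (hB Y a c hY0 h).2
    have hY3 : Y ^ 3 ≤ (N : ℝ) ^ 3 := pow_le_pow_left₀ hY0 hYN 3
    have hY3' : 1 ≤ Y ^ 3 := one_le_pow₀ hY1
    have hc1 : (c : ℝ) ≤ (N : ℝ) ^ 3 := (le_abs_self _).trans (hc.trans hY3)
    refine ⟨?_, by exact_mod_cast hc1⟩
    have hc2 : -(N : ℝ) ^ 3 < (c : ℝ) := by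
      by_contra hcon
      push Not at hcon
      have hc3 : (c : ℝ) ≤ -Y ^ 3 := by linarith
      have h6 := (abs_le.1 h.2).1
      unfold G6 at h6
      push_cast at h6
      have h7 : (c : ℝ) ^ 2 ≥ Y ^ 6 := by
        have : (Y ^ 3) ^ 2 ≤ (-(c : ℝ)) ^ 2 := pow_le_pow_left₀ (by linarith) (by linarith) 2
        calc Y ^ 6 = (Y ^ 3) ^ 2 := by ring
          _ ≤ (-(c : ℝ)) ^ 2 := this
          _ = (c : ℝ) ^ 2 := by ring
      have h8 : 0 ≤ (a : ℝ) ^ 6 := pow_nonneg hp.le 6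
      have h9 : (a : ℝ) ^ 3 * c ≤ 0 :=
        mul_nonpos_of_nonneg_of_nonpos (pow_nonneg hp.le 3) (by linarith)
      have h10 : 1 ≤ Y ^ 6 := one_le_pow₀ hY1
      linarith
    exact_mod_cast hc2
  have hNN : -(N : ℤ) ^ 3 ≤ (N : ℤ) ^ 3 := by
    have : (0 : ℤ) ≤ (N : ℤ) ^ 3 := by positivity
    linarith
  -- the functions
  obtain ⟨L, hL⟩ : ∃ L : ℤ → ℤ, ∀ A, L A = max (-(N : ℤ) ^ 3) (min ((N : ℤ) ^ 3) (l A)) :=
    ⟨_, fun _ => rfl⟩
  obtain ⟨U, hU⟩ : ∃ U : ℤ → ℤ, ∀ A, U A = max (L A) (min ((N : ℤ) ^ 3) (u A)) :=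
    ⟨_, fun _ => rfl⟩
  have hLtv : TV N (fun A => (L A : ℝ)) ≤ K7 := by
    have e : (fun A => (L A : ℝ)) =
        fun A => max (-(N : ℝ) ^ 3) (min ((N : ℝ) ^ 3) (l A : ℝ)) := by
      funext A
      rw [hL]
      push_cast
      rfl
    rw [e]
    have s1 := TV_max N (fun _ => -(N : ℝ) ^ 3) (fun A => min ((N : ℝ) ^ 3) (l A : ℝ))
    have s2 := TV_min N (fun _ => (N : ℝ) ^ 3) (fun A => (l A : ℝ))
    rw [TV_const] at s1 s2
    linarith
  have hUtv : TV N (fun A => (U A : ℝ)) ≤ 2 * K7 := by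
    have e : (fun A => (U A : ℝ)) =
        fun A => max (L A : ℝ) (min ((N : ℝ) ^ 3) (u A : ℝ)) := by
      funext A
      rw [hU]
      push_cast
      rfl
    rw [e]
    have s1 := TV_max N (fun A => (L A : ℝ)) (fun A => min ((N : ℝ) ^ 3) (u A : ℝ))
    have s2 := TV_min N (fun _ => (N : ℝ) ^ 3) (fun A => (u A : ℝ))
    rw [TV_const] at s2
    linarith
  have hfin : 2 * K7 ≤ 14 * (4 * b + 2) * (N : ℝ) ^ 3 := by
    have hNN3 : (N : ℝ) ≤ (N : ℝ) ^ 3 := le_self_pow₀ hN1 (by norm_num)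
    rw [hK7, hK]
    linarith
  have hK70 : 0 ≤ K7 := (TV_nonneg N _).trans hl'
  have conv : ∀ f : ℤ → ℤ, ∑ A ∈ Ico (0 : ℤ) (2 * N), |((f (A + 1) - f A : ℤ) : ℝ)| =
      TV N (fun A => (f A : ℝ)) := by
    intro f
    unfold TV
    refine sum_congr rfl fun A _ => ?_
    rw [Int.cast_sub]
  refine ⟨L, U, ?_, ?_, ?_, ?_⟩
  · intro A
    rw [hU, hL]
    refine ⟨le_max_left _ _, le_max_left _ _, ?_⟩
    exact max_le (max_le hNN (min_le_left _ _)) (min_le_left _ _)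
  · rw [conv]; linarith
  · rw [conv]; linarith
  · intro a c ha ha' _
    rw [hU, hL]
    constructor
    · rintro ⟨hR, h3, h4, h5⟩
      obtain ⟨hD1, hD2⟩ := hsmall a c ha hR
      obtain ⟨h6, h7⟩ := (hlu a c ha ha' hD1 hD2).1 ⟨⟨hR.1, hR.2, h5⟩, h3, h4⟩
      refine ⟨max_lt hD1 (lt_of_le_of_lt (min_le_right _ _) h6), ?_⟩
      exact (le_min hD2 h7).trans (le_max_right _ _)
    · rintro ⟨h1, h2⟩
      have h3 : -(N : ℤ) ^ 3 < c := lt_of_le_of_lt (le_max_left _ _) h1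
      have h4 : c ≤ min ((N : ℤ) ^ 3) (u a) := by
        rcases le_max_iff.1 h2 with h | h
        · exact absurd h1 (not_lt.2 h)
        · exact h
      have h5 : c ≤ (N : ℤ) ^ 3 := h4.trans (min_le_left _ _)
      have h6 : c ≤ u a := h4.trans (min_le_right _ _)
      have h7 : l a < c := by
        have h8 : min ((N : ℤ) ^ 3) (l a) < c := lt_of_le_of_lt (le_max_right _ _) h1
        rcases min_lt_iff.1 h8 with h | h
        · exact absurd h5 (not_le.2 h)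
        · exact h
      obtain ⟨⟨h9, h10, h11⟩, h12, h13⟩ := (hlu a c ha ha' h3 h5).2 ⟨h7, h6⟩
      exact ⟨⟨h9, h10⟩, h12, h13, h11⟩

end Pool.Agent.K1H81.T3
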