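import Pool.Agent.K1H81.TT.Stm

/-!
Interface of project T3 (MP_6073f3_nt): the root numbers of the semistable elliptic curves over `ℚ`
with a rational point of order three, ordered by naive height, are equidistributed.
Same plan as project TT (`Pool.Agent.K1H81.TT.Stm`), with `(D, A² - 64 D)` replaced by
`(c, a³ - 27 c)`. The curve definitions, `chi`, `e`, `QQ`, `gg`, `mm` are those of TT.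
-/

set_option autoImplicit false

namespace Pool.Agent.K1H81.T3

open Finset Filter Topology
open Pool.Agent.K1H81.TT (ap Semistable rootNumber height chi e QQ gg mm S_AP S_DAV)

/-- there is a rational point of order three: a point of the curve whose abscissa is a root of the
3-division polynomial -/
def ThreeTors (W : WeierstrassCurve ℤ) : Prop :=
  ∃ x y : ℚ, y ^ 2 + W.a₁ * x * y + W.a₃ * y = x ^ 3 + W.a₂ * x ^ 2 + W.a₄ * x + W.a₆ ∧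
    3 * x ^ 4 + W.b₂ * x ^ 3 + 3 * W.b₄ * x ^ 2 + 3 * W.b₆ * x + W.b₈ = 0

/-! ### the parametrization: `y² + a x y + c y = x³` -/

def E3 (a c : ℤ) : ℤ := a ^ 3 - 27 * c

def Adm3 (a c : ℤ) : Prop := ¬ (3 : ℤ) ∣ a ∧ c ≠ 0 ∧ E3 a c ≠ 0 ∧ IsCoprime a c

def G4 (a c : ℤ) : ℤ := a ^ 4 - 24 * a * c

def G6 (a c : ℤ) : ℤ := -a ^ 6 + 36 * a ^ 3 * c - 216 * c ^ 2

def D3 (a c : ℤ) : ℤ := c ^ 3 * E3 a c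

/-- the root number in terms of `a, c` -/
def w3 (a c : ℤ) : ℤ :=
  -((∏ _p ∈ c.natAbs.primeFactors, (-1 : ℤ)) *
    ∏ p ∈ (E3 a c).natAbs.primeFactors, (-jacobiSym (p : ℤ) 3))

/-- PAR3 -/
def S_PAR3 : Prop := ∀ W : WeierstrassCurve ℤ, Semistable W → ThreeTors W →
  ∃ a c : ℤ, 0 < a ∧ Adm3 a c ∧ W.c₄ = G4 a c ∧ W.c₆ = G6 a c

/-- CONV3 -/
def S_CONV3 : Prop := ∀ a c : ℤ, Adm3 a c →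
  ∃ W : WeierstrassCurve ℤ, Semistable W ∧ ThreeTors W ∧ W.c₄ = G4 a c ∧ W.c₆ = G6 a c

/-- WRT3 (to be deduced from `S_AP`) -/
def S_WRT3 : Prop := ∀ (W : WeierstrassCurve ℤ) (a c : ℤ), Semistable W → Adm3 a c →
  W.c₄ = G4 a c → W.c₆ = G6 a c → W.Δ = D3 a c ∧ rootNumber W = w3 a c

/-- HGT3 -/
def S_HGT3 : Prop := ∀ (W : WeierstrassCurve ℤ) (a c : ℤ), Semistable W → Adm3 a c →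
  W.c₄ = G4 a c → W.c₆ = G6 a c →
  height W = 78732 * max (W.c₄.natAbs ^ 3) (W.c₆.natAbs ^ 2)

/-- INJ3 -/
def S_INJ3 : Prop := ∀ a c a' c' : ℤ, 0 < a → 0 < a' → Adm3 a c → Adm3 a' c' →
  G4 a c = G4 a' c' → G6 a c = G6 a' c' → a = a' ∧ c = c'

/-! ### the region of bounded height -/

def Reg3 (Y : ℝ) (a c : ℤ) : Prop :=
  |(G4 a c : ℝ)| ≤ Y ^ 4 ∧ |(G6 a c : ℝ)| ≤ Y ^ 6

/-- BOX3 -/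
def S_BOX3 : Prop := ∀ (Y : ℝ) (a c : ℤ), 0 ≤ Y → Reg3 Y a c →
  |(a : ℝ)| ≤ 2 * Y ∧ |(c : ℝ)| ≤ Y ^ 3

/-- the box `1 ≤ a ≤ 2N`, `|c| ≤ N³` -/
noncomputable def Bx3 (N : ℕ) : Finset (ℤ × ℤ) :=
  Icc 1 (2 * (N : ℤ)) ×ˢ Icc (-(N : ℤ) ^ 3) ((N : ℤ) ^ 3)

open Classical in
/-- the admissible pairs of the region with `a > 0` -/
noncomputable def FS3 (Y : ℝ) : Finset (ℤ × ℤ) :=
  (Bx3 ⌈Y⌉₊).filter fun z => Adm3 z.1 z.2 ∧ Reg3 Y z.1 z.2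

/-- REG3 -/
def S_REG3 : Prop := ∀ η : ℝ, 0 < η → ∃ V : ℝ, 0 < V ∧ ∃ N0 : ℕ, ∀ (N : ℕ) (Y : ℝ), N0 ≤ N → 1 ≤ Y →
  Y ≤ N → (N : ℝ) ≤ Y + 1 → ∀ sD sE sF : ℤ, (sD = 1 ∨ sD = -1) → (sE = 1 ∨ sE = -1) →
  (sF = 1 ∨ sF = -1) →
  ∃ L U : ℤ → ℤ, (∀ A, -(N : ℤ) ^ 3 ≤ L A ∧ L A ≤ U A ∧ U A ≤ (N : ℤ) ^ 3) ∧
    (∑ A ∈ Ico (0 : ℤ) (2 * N), |((L (A + 1) - L A : ℤ) : ℝ)| ≤ V * (N : ℝ) ^ 3) ∧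
    (∑ A ∈ Ico (0 : ℤ) (2 * N), |((U (A + 1) - U A : ℤ) : ℝ)| ≤ V * (N : ℝ) ^ 3) ∧
    ∀ a c : ℤ, η * N ≤ (a : ℝ) → (a : ℝ) ≤ 2 * N → ¬ (3 : ℤ) ∣ a →
      ((Reg3 Y a c ∧ 0 < sD * c ∧ 0 < sE * E3 a c ∧ 0 < sF * (12 * c - a ^ 3)) ↔
        (L a < c ∧ c ≤ U a))

/-- LOW3 -/
def S_LOW3 : Prop := ∃ c0 : ℝ, 0 < c0 ∧ ∃ Y0 : ℝ, ∀ Y : ℝ, Y0 ≤ Y →
  c0 * Y ^ 4 ≤ ((FS3 Y).card : ℝ)

/-! ### exceptional pairs, local constancy -/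

def Bad3 (y K : ℕ) (a c : ℤ) : Prop := ∃ p : ℕ, p.Prime ∧
  ((y < p ∧ ((p : ℤ) ^ 2 ∣ c ∨ (p : ℤ) ^ 2 ∣ E3 a c ∨ ((p : ℤ) ∣ a ∧ (p : ℤ) ∣ c))) ∨
    (p ≤ y ∧ ((p : ℤ) ^ K ∣ c ∨ (p : ℤ) ^ K ∣ E3 a c)))

open Classical in
/-- BAD3 -/
def S_BAD3 : Prop := ∀ ε : ℝ, 0 < ε → ∃ y K : ℕ, 1 ≤ K ∧ ∃ N0 : ℕ, ∀ N : ℕ, N0 ≤ N →
  ((((Bx3 N).filter fun z => ¬ (3 : ℤ) ∣ z.1 ∧ z.2 ≠ 0 ∧ E3 z.1 z.2 ≠ 0 ∧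
    Bad3 y K z.1 z.2).card : ℕ) : ℝ) ≤ ε * (N : ℝ) ^ 4

/-- INV3 -/
def S_INV3 : Prop := ∀ y K : ℕ, 1 ≤ K →
  (∀ a c : ℤ, Adm3 a c → ¬ Bad3 y K a c → mm y K c ^ 2 = 1 ∧ mm y K (E3 a c) ^ 2 = 1) ∧
  ∀ a c a' c' : ℤ, Adm3 a c → Adm3 a' c' → ¬ Bad3 y K a c → ¬ Bad3 y K a' c' →
    a ≡ a' [ZMOD (24 * QQ y K : ℕ)] → c ≡ c' [ZMOD (24 * QQ y K : ℕ)] →
    (0 < c ↔ 0 < c') → (0 < E3 a c ↔ 0 < E3 a' c') →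
    w3 a c * mm y K c * mm y K (E3 a c) = w3 a' c' * mm y K c' * mm y K (E3 a' c')

/-! ### the correlation sums -/

/-- the summand -/
noncomputable def cor3 (M g h : ℕ) (α δ a c : ℤ) : ℤ :=
  if a ≡ α [ZMOD M] ∧ c ≡ δ [ZMOD M] then
    ArithmeticFunction.moebius (c.natAbs / g) * ArithmeticFunction.moebius ((E3 a c).natAbs / h)
  else 0

/-- WEYL3 (from `Pool.Agent.H373R2.NB.IW_all 3`) -/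
def S_WEYL3 : Prop := ∀ M : ℕ, 0 < M → ∀ η : ℝ, 0 < η → ∃ (q1 : ℕ) (w1 : ℝ), 0 < w1 ∧
  ∀ N : ℕ, 1 ≤ N → ∀ (α a b : ℤ) (θ : ℝ), -(2 * (N : ℤ)) ≤ a → b ≤ 2 * N →
    η * N ≤ ‖∑ A ∈ (Ico a b).filter (fun A => A ≡ α [ZMOD M]), e (θ * (A : ℝ) ^ 3)‖ →
    ∃ q : ℕ, 1 ≤ q ∧ q ≤ q1 ∧ ∃ k : ℤ, |q * θ - k| ≤ w1 / (N : ℝ) ^ 3

/-- COR31: the correlation sums over boxes (from `S_DAV`, `S_WEYL3`) -/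
def S_COR31 : Prop := ∀ M g h : ℕ, 0 < M → 0 < g → 0 < h → g ∣ M → h ∣ M → ∀ α δ : ℤ, (g : ℤ) ∣ δ →
  (h : ℤ) ∣ E3 α δ → ∀ ε : ℝ, 0 < ε → ∃ N0 : ℕ, ∀ N : ℕ, N0 ≤ N → ∀ a b t : ℤ,
    0 ≤ a → b ≤ 2 * N → t ≤ (N : ℤ) ^ 3 →
    |((∑ A ∈ Ico a b, ∑ c ∈ Ioc (-(N : ℤ) ^ 3) t, cor3 M g h α δ A c : ℤ) : ℝ)| ≤ ε * (N : ℝ) ^ 4

/-- COR32: the same below a function of bounded variation (from `S_COR31`) -/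
def S_COR32 : Prop := ∀ M g h : ℕ, 0 < M → 0 < g → 0 < h → g ∣ M → h ∣ M → ∀ α δ : ℤ, (g : ℤ) ∣ δ →
  (h : ℤ) ∣ E3 α δ → ∀ V ε : ℝ, 0 < V → 0 < ε → ∃ N0 : ℕ, ∀ N : ℕ, N0 ≤ N → ∀ a b : ℤ,
    0 ≤ a → b ≤ 2 * N → ∀ U : ℤ → ℤ,
    (∀ A, -(N : ℤ) ^ 3 ≤ U A ∧ U A ≤ (N : ℤ) ^ 3) →
    (∑ A ∈ Ico (0 : ℤ) (2 * N), |((U (A + 1) - U A : ℤ) : ℝ)| ≤ V * (N : ℝ) ^ 3) →
    |((∑ A ∈ Ico a b, ∑ c ∈ Ioc (-(N : ℤ) ^ 3) (U A), cor3 M g h α δ A c : ℤ) : ℝ)| ≤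
      ε * (N : ℝ) ^ 4

/-- ANA3 (from `S_REG3`, `S_BAD3`, `S_INV3`, `S_COR32`) -/
def S_ANA3 : Prop := ∀ ε : ℝ, 0 < ε → ∃ Y0 : ℝ, ∀ Y : ℝ, Y0 ≤ Y →
  |((∑ z ∈ FS3 Y, w3 z.1 z.2 : ℤ) : ℝ)| ≤ ε * Y ^ 4

/-! ### the final statement -/

/-- the classes `(c₄, c₆)` of the semistable curves with a rational point of order three, height at
most `Z`, and root number satisfying `P` -/
def Fam3 (P : ℤ → Prop) (Z : ℕ) : Set (ℤ × ℤ) :=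
  {z | ∃ W : WeierstrassCurve ℤ, Semistable W ∧ ThreeTors W ∧ height W ≤ Z ∧ P (rootNumber W) ∧
    z = (W.c₄, W.c₆)}

/-- the scale: `height ≤ Z` iff `max (|c₄|³, c₆²) ≤ (Yh3 Z)¹²` -/
noncomputable def Yh3 (Z : ℕ) : ℝ := ((Z : ℝ) / 78732) ^ ((1 : ℝ) / 12)

open Classical in
/-- FA3 -/
def S_FA3 : Prop := ∀ (Z : ℕ) (P : ℤ → Prop), (Fam3 P Z).Finite ∧
  (Fam3 P Z).ncard = ((FS3 (Yh3 Z)).filter fun z => P (w3 z.1 z.2)).card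

/-- FIN3 -/
def S_FIN3 : Prop :=
  (∀ Z, (Fam3 (fun _ => True) Z).Finite) ∧
  Tendsto (fun Z => (Fam3 (fun _ => True) Z).ncard) atTop atTop ∧
  ∀ e : ℤ, e = 1 ∨ e = -1 →
    Tendsto (fun Z => ((Fam3 (fun w => w = e) Z).ncard : ℝ) / ((Fam3 (fun _ => True) Z).ncard : ℝ))
      atTop (𝓝 (1 / 2))

end Pool.Agent.K1H81.T3
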