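import Pool.Agent.K1H81.T3.Stm

/-!
# Project T3, piece WRT3: the root number in terms of `a`, `c`
-/

set_option autoImplicit false

namespace Pool.Agent.K1H81.T3

open Finset

open Pool.Agent.K1H81.TT (ap Semistable rootNumber height chi e QQ gg mm S_AP S_DAV)

namespace WRT3

theorem gcd_one {p : ℕ} (hp : p.Prime) {n : ℤ} (h : ¬ (p : ℤ) ∣ n) : n.gcd p = 1 := by
  have h1 : Nat.Coprime p n.natAbs :=
    (Nat.Prime.coprime_iff_not_dvd hp).2 fun h' => h (Int.natCast_dvd.2 h')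
  have h2 : n.gcd p = Nat.gcd n.natAbs p := rfl
  rw [h2]
  exact h1.symm

theorem js_sq {p : ℕ} (hp : p.Prime) {n : ℤ} (h : ¬ (p : ℤ) ∣ n) : jacobiSym (n ^ 2) p = 1 :=
  jacobiSym.sq_one' (gcd_one hp h)

theorem js_mod {p : ℕ} {a b : ℤ} (h : (p : ℤ) ∣ a - b) : jacobiSym a p = jacobiSym b p :=
  jacobiSym.mod_left' (Int.emod_eq_emod_iff_emod_sub_eq_zero.2 (Int.emod_eq_zero_of_dvd h))

theorem disc (a c : ℤ) : G4 a c ^ 3 - G6 a c ^ 2 = 1728 * D3 a c := by
  unfold G4 G6 D3 E3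
  ring

theorem pf (a c : ℤ) (hc : c ≠ 0) (hE : E3 a c ≠ 0) :
    (D3 a c).natAbs.primeFactors = c.natAbs.primeFactors ∪ (E3 a c).natAbs.primeFactors := by
  have h1 : c.natAbs ≠ 0 := Int.natAbs_ne_zero.2 hc
  have h2 : (E3 a c).natAbs ≠ 0 := Int.natAbs_ne_zero.2 hE
  unfold D3
  rw [Int.natAbs_mul, Int.natAbs_pow, Nat.primeFactors_mul (pow_ne_zero _ h1) h2,
    Nat.primeFactors_pow _ (by norm_num)]

theorem cop (a c : ℤ) (h : IsCoprime a c) : IsCoprime c (E3 a c) := by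
  have h1 : IsCoprime c (a ^ 3) := (h.symm).pow_right
  have h2 := h1.add_mul_left_right (-27)
  have h3 : a ^ 3 + c * -27 = E3 a c := by
    unfold E3
    ring
  rwa [h3] at h2

theorem disj (a c : ℤ) (h : IsCoprime a c) :
    Disjoint c.natAbs.primeFactors (E3 a c).natAbs.primeFactors :=
  Nat.Coprime.disjoint_primeFactors (Int.isCoprime_iff_gcd_eq_one.1 (cop a c h))

theorem chi_c (a c : ℤ) (h : IsCoprime a c) (p : ℕ) (hp : p.Prime) (hpc : (p : ℤ) ∣ c) :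
    chi (-G6 a c) p = 1 := by
  have hpI : Prime (p : ℤ) := Nat.prime_iff_prime_int.1 hp
  have hpa : ¬ (p : ℤ) ∣ a := fun h5 => hpI.not_isUnit (h.isUnit_of_dvd' h5 hpc)
  unfold chi
  by_cases h2 : p = 2
  · rw [if_pos h2]
    subst h2
    rw [if_pos]
    obtain ⟨k, hk⟩ := hpc
    push_cast at hk hpa
    have ha : a % 2 = 1 := by omega
    obtain ⟨m, hm⟩ : ∃ m : ℤ, a ^ 2 = 8 * m + 1 := by
      have h5 : a ^ 2 % 8 = 1 := by
        have h6 : a % 8 = 1 ∨ a % 8 = 3 ∨ a % 8 = 5 ∨ a % 8 = 7 := by omega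
        rcases h6 with h6 | h6 | h6 | h6 <;> rw [pow_two, Int.mul_emod, h6] <;> norm_num
      exact ⟨a ^ 2 / 8, by omega⟩
    have h7 : -G6 a c = 8 * (64 * m ^ 3 + 24 * m ^ 2 + 3 * m - 9 * a ^ 3 * k + 108 * k ^ 2) + 1 := by
      unfold G6
      have h8 : a ^ 6 = (8 * m + 1) ^ 3 := by
        rw [← hm]
        ring
      rw [hk]
      linear_combination h8
    rw [h7]
    omega
  · rw [if_neg h2]
    have h3 : (p : ℤ) ∣ -G6 a c - (a ^ 3) ^ 2 := by
      obtain ⟨k, hk⟩ := hpc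
      refine ⟨k * (-36 * a ^ 3 + 216 * c), ?_⟩
      unfold G6
      linear_combination (-36 * a ^ 3 + 216 * c) * hk
    have h4 : ¬ (p : ℤ) ∣ a ^ 3 := fun h5 => hpa (hpI.dvd_of_dvd_pow h5)
    rw [js_mod h3, js_sq hp h4]

/-- `(-3 / p) = (p / 3)` -/
theorem recip (p : ℕ) (hp : p.Prime) (h2 : p ≠ 2) : jacobiSym (-3) p = jacobiSym p 3 := by
  have ho : Odd p := hp.odd_of_ne_two h2
  have h3 : jacobiSym (-3) p = ZMod.χ₄ p * jacobiSym 3 p := by
    have := jacobiSym.neg 3 ho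
    simpa using this
  rw [h3]
  have h4 : p % 4 = 1 ∨ p % 4 = 3 := by
    obtain ⟨k, hk⟩ := ho
    omega
  rcases h4 with h4 | h4
  · rw [ZMod.χ₄_nat_one_mod_four h4, one_mul]
    have := jacobiSym.quadratic_reciprocity_one_mod_four (a := p) (b := 3) h4 (by decide)
    rw [this]
    norm_num
  · rw [ZMod.χ₄_nat_three_mod_four h4]
    have := jacobiSym.quadratic_reciprocity_three_mod_four (a := p) (b := 3) h4 (by norm_num)
    rw [this]
    push_cast
    ring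

theorem chi_E (a c : ℤ) (ha3 : ¬ (3 : ℤ) ∣ a) (h : IsCoprime a c) (p : ℕ) (hp : p.Prime)
    (hpE : (p : ℤ) ∣ E3 a c) : chi (-G6 a c) p = jacobiSym (p : ℤ) 3 := by
  have hpI : Prime (p : ℤ) := Nat.prime_iff_prime_int.1 hp
  have h3p : p ≠ 3 := by
    rintro rfl
    have h3 : ((3 : ℕ) : ℤ) ∣ a ^ 3 := by
      have h4 : a ^ 3 = E3 a c + ((3 : ℕ) : ℤ) * (9 * c) := by
        unfold E3
        push_cast
        ring
      rw [h4]
      exact dvd_add hpE (dvd_mul_right _ _)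
    exact ha3 (by exact_mod_cast hpI.dvd_of_dvd_pow h3)
  have hp3 : ¬ (p : ℤ) ∣ 3 := by
    intro h3
    have h4 : p ∣ 3 := by exact_mod_cast h3
    exact h3p ((Nat.prime_dvd_prime_iff_eq hp Nat.prime_three).1 h4)
  have hpc : ¬ (p : ℤ) ∣ c := by
    intro h3
    have h4 : (p : ℤ) ∣ a ^ 3 := by
      have h5 : a ^ 3 = E3 a c + 27 * c := by
        unfold E3
        ring
      rw [h5]
      exact dvd_add hpE (Dvd.dvd.mul_left h3 _)
    exact hpI.not_isUnit (h.isUnit_of_dvd' (hpI.dvd_of_dvd_pow h4) h3)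
  have hpa : ¬ (p : ℤ) ∣ a := by
    intro h3
    have h4 : (p : ℤ) ∣ 3 ^ 3 * c := by
      have h5 : 3 ^ 3 * c = a ^ 3 - E3 a c := by
        unfold E3
        ring
      rw [h5]
      exact dvd_sub (dvd_pow h3 (by norm_num)) hpE
    rcases hpI.dvd_or_dvd h4 with h5 | h5
    · exact hp3 (hpI.dvd_of_dvd_pow h5)
    · exact hpc h5
  obtain ⟨k, hk⟩ := hpE
  have hk' : a ^ 3 = 27 * c + p * k := by
    unfold E3 at hk
    linarith
  unfold chi
  by_cases h2 : p = 2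
  · subst h2
    rw [if_pos rfl, if_neg]
    · push_cast
      norm_num
    · push_cast at hpa hpc
      have ha : a % 2 = 1 := by omega
      have hc : c % 2 = 1 := by omega
      have h5 : ∀ n : ℤ, n % 2 = 1 → ∃ m : ℤ, n ^ 2 = 8 * m + 1 := by
        intro n hn
        have h6 : n ^ 2 % 8 = 1 := by
          have h6 : n % 8 = 1 ∨ n % 8 = 3 ∨ n % 8 = 5 ∨ n % 8 = 7 := by omega
          rcases h6 with h6 | h6 | h6 | h6 <;> rw [pow_two, Int.mul_emod, h6] <;> norm_num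
        exact ⟨n ^ 2 / 8, by omega⟩
      obtain ⟨m, hm⟩ := h5 a ha
      obtain ⟨m', hm'⟩ := h5 c hc
      obtain ⟨u, hu⟩ : ∃ u : ℤ, a ^ 3 * c = 2 * u + 1 := by
        have h6 : (a ^ 3 * c) % 2 = 1 := by
          have h7 : Odd (a ^ 3 * c) :=
            (Int.odd_iff.2 ha).pow.mul (Int.odd_iff.2 hc)
          exact Int.odd_iff.1 h7
        exact ⟨(a ^ 3 * c) / 2, by omega⟩
      have h8 : a ^ 6 = (8 * m + 1) ^ 3 := by
        rw [← hm]
        ring
      have h9 : -G6 a c = 8 * (64 * m ^ 3 + 24 * m ^ 2 + 3 * m - 9 * u - 5 + 27 * (8 * m' + 1)) + 5 := by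
        unfold G6
        linear_combination h8 - 36 * hu + 216 * hm'
      rw [h9]
      omega
  · rw [if_neg h2]
    have h3 : (p : ℤ) ∣ -G6 a c - (-3) * (3 * c) ^ 2 := by
      refine ⟨k * (a ^ 3 - 9 * c), ?_⟩
      unfold G6
      linear_combination (a ^ 3 - 9 * c) * hk'
    have h4 : ¬ (p : ℤ) ∣ 3 * c := by
      intro h5
      rcases hpI.dvd_or_dvd h5 with h6 | h6
      · exact hp3 h6
      · exact hpc h6
    rw [js_mod h3, jacobiSym.mul_left, js_sq hp h4, mul_one, recip p hp h2]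

end WRT3

theorem t_WRT3 (hAP : S_AP) : S_WRT3 := by
  rintro W a c hW ⟨h3, hc, hE, hco⟩ h4 h6
  have hΔ : W.Δ = D3 a c := by
    have h1 := W.c_relation
    rw [h4, h6, WRT3.disc a c] at h1
    linarith
  refine ⟨hΔ, ?_⟩
  have hap : ∀ p : ℕ, p.Prime → (p : ℤ) ∣ D3 a c → ap W p = chi (-G6 a c) p := by
    intro p hp hd
    rw [← hΔ] at hd
    rw [hAP W p hp hd (hW.2 p hp hd), h6]
  have hdc : ∀ p ∈ c.natAbs.primeFactors, ap W p = 1 := by
    intro p hp
    have hp1 : p.Prime := Nat.prime_of_mem_primeFactors hp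
    have hp2 : (p : ℤ) ∣ c := Int.natCast_dvd.2 (Nat.dvd_of_mem_primeFactors hp)
    have hp3 : (p : ℤ) ∣ D3 a c := by
      unfold D3
      exact Dvd.dvd.mul_right (dvd_pow hp2 (by norm_num)) _
    rw [hap p hp1 hp3, WRT3.chi_c a c hco p hp1 hp2]
  have hdE : ∀ p ∈ (E3 a c).natAbs.primeFactors, ap W p = jacobiSym (p : ℤ) 3 := by
    intro p hp
    have hp1 : p.Prime := Nat.prime_of_mem_primeFactors hp
    have hp2 : (p : ℤ) ∣ E3 a c := Int.natCast_dvd.2 (Nat.dvd_of_mem_primeFactors hp)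
    have hp3 : (p : ℤ) ∣ D3 a c := by
      unfold D3
      exact Dvd.dvd.mul_left hp2 _
    rw [hap p hp1 hp3, WRT3.chi_E a c h3 hco p hp1 hp2]
  unfold rootNumber w3
  rw [hΔ, WRT3.pf a c hc hE, prod_union (WRT3.disj a c hco)]
  congr 2
  · exact prod_congr rfl fun p hp => by rw [hdc p hp]
  · exact prod_congr rfl fun p hp => by rw [hdE p hp]

end Pool.Agent.K1H81.T3
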