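import Pool.Agent.K1H81.T3.Stm
import Pool.Agent.K1H81.TT.WRT

set_option autoImplicit false

namespace Pool.Agent.K1H81.T3

open Finset
open Pool.Agent.K1H81.TT (ap chi rootNumber S_AP)
open Pool.Agent.K1H81.TT.WRT (js_sq js_mod)

namespace WRT3b

theorem disc (a c : ℤ) : G4 a c ^ 3 - G6 a c ^ 2 = 1728 * D3 a c := by
  unfold G4 G6 D3 E3
  ring

theorem pf (a c : ℤ) (hD : c ≠ 0) (hE : E3 a c ≠ 0) :
    (D3 a c).natAbs.primeFactors = c.natAbs.primeFactors ∪ (E3 a c).natAbs.primeFactors := by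
  have h1 : c.natAbs ≠ 0 := Int.natAbs_ne_zero.2 hD
  have h2 : (E3 a c).natAbs ≠ 0 := Int.natAbs_ne_zero.2 hE
  unfold D3
  rw [Int.natAbs_mul, Int.natAbs_pow, Nat.primeFactors_mul (pow_ne_zero _ h1) h2,
    Nat.primeFactors_pow _ (by norm_num)]

theorem cop (a c : ℤ) (h : IsCoprime a c) : IsCoprime c (E3 a c) := by
  have h1 : IsCoprime c (a ^ 3) := (h.symm).pow_right
  have h2 := h1.add_mul_left_right (-27)
  have h3 : a ^ 3 + c * -27 = E3 a c := by
    unfold E3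
    ring
  rwa [h3] at h2

theorem disj (a c : ℤ) (h : IsCoprime a c) :
    Disjoint c.natAbs.primeFactors (E3 a c).natAbs.primeFactors :=
  Nat.Coprime.disjoint_primeFactors (Int.isCoprime_iff_gcd_eq_one.1 (cop a c h))

theorem js_neg_three {p : ℕ} (hp : p.Prime) (h2 : p ≠ 2) : jacobiSym (-3) p = jacobiSym (p : ℤ) 3 := by
  have hodd : Odd p := hp.odd_of_ne_two h2
  have h : jacobiSym (-3) p = jacobiSym (-1) p * jacobiSym ((3 : ℕ) : ℤ) p := by
    rw [← jacobiSym.mul_left]; norm_num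
  rw [h, jacobiSym.at_neg_one hodd]
  have hm : p % 4 = 1 ∨ p % 4 = 3 := by
    have := Nat.odd_iff.1 hodd
    omega
  rcases hm with hm | hm
  · rw [ZMod.χ₄_nat_one_mod_four hm, jacobiSym.quadratic_reciprocity_one_mod_four' (by decide) hm, one_mul]
  · rw [ZMod.χ₄_nat_three_mod_four hm, jacobiSym.quadratic_reciprocity_three_mod_four (by norm_num) hm]
    ring

theorem not_dvd_a {a c : ℤ} (h : Adm3 a c) {p : ℕ} (hp : p.Prime) (hd : (p : ℤ) ∣ c ∨ (p : ℤ) ∣ E3 a c) :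
    ¬ (p : ℤ) ∣ a := by
  have hpI : Prime (p : ℤ) := Nat.prime_iff_prime_int.1 hp
  intro h3
  rcases hd with hd | hd
  · exact hpI.not_isUnit (h.2.2.2.isUnit_of_dvd' h3 hd)
  · have h4 : (p : ℤ) ∣ 3 ^ 3 * c := by
      have h5 : 3 ^ 3 * c = a * a ^ 2 - E3 a c := by
        unfold E3
        ring
      rw [h5]
      exact dvd_sub (Dvd.dvd.mul_right h3 _) hd
    rcases hpI.dvd_or_dvd h4 with h5 | h5
    · have h6 : (p : ℤ) ∣ 3 := hpI.dvd_of_dvd_pow h5
      have h7 : p ∣ 3 := by exact_mod_cast h6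
      have h8 := (Nat.prime_dvd_prime_iff_eq hp Nat.prime_three).1 h7
      subst h8
      exact h.1 (by exact_mod_cast h3)
    · exact hpI.not_isUnit (h.2.2.2.isUnit_of_dvd' h3 h5)

theorem odd_of {a : ℤ} (h : ¬ ((2 : ℕ) : ℤ) ∣ a) : a % 2 = 1 := by
  push_cast at h
  omega

theorem pow6 {a : ℤ} (h : a % 2 = 1) : a ^ 6 % 8 = 1 := by
  have h1 : a % 8 = 1 ∨ a % 8 = 3 ∨ a % 8 = 5 ∨ a % 8 = 7 := by omega
  have h2 : a ^ 2 % 8 = 1 := by
    rcases h1 with h1 | h1 | h1 | h1 <;> rw [pow_two, Int.mul_emod, h1] <;> norm_num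
  have h3 : a ^ 6 = a ^ 2 * a ^ 2 * a ^ 2 := by ring
  rw [h3, Int.mul_emod, Int.mul_emod (a ^ 2) (a ^ 2), h2]
  norm_num

theorem chi_c {a c : ℤ} (h : Adm3 a c) {p : ℕ} (hp : p.Prime) (hd : (p : ℤ) ∣ c) :
    chi (-G6 a c) p = 1 := by
  have hpa := not_dvd_a h hp (Or.inl hd)
  unfold chi
  by_cases h2 : p = 2
  · subst h2
    rw [if_pos rfl, if_pos]
    obtain ⟨k, hk⟩ := hd
    push_cast at hk
    have h3 : -G6 a c = a ^ 6 + 8 * (-(9 * a ^ 3 * k) + 108 * k ^ 2) := by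
      unfold G6
      rw [hk]
      ring
    rw [h3]
    have := pow6 (odd_of hpa)
    omega
  · rw [if_neg h2]
    have h3 : (p : ℤ) ∣ -G6 a c - (a ^ 3) ^ 2 := by
      obtain ⟨k, hk⟩ := hd
      refine ⟨k * (-(36 * a ^ 3) + 216 * c), ?_⟩
      unfold G6
      linear_combination (-(36 * a ^ 3) + 216 * c) * hk
    rw [js_mod h3, js_sq hp]
    intro h4
    exact hpa ((Nat.prime_iff_prime_int.1 hp).dvd_of_dvd_pow h4)

theorem chi_E {a c : ℤ} (h : Adm3 a c) {p : ℕ} (hp : p.Prime) (hd : (p : ℤ) ∣ E3 a c) :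
    chi (-G6 a c) p = jacobiSym (p : ℤ) 3 := by
  have hpI : Prime (p : ℤ) := Nat.prime_iff_prime_int.1 hp
  have hpa := not_dvd_a h hp (Or.inr hd)
  have hpc : ¬ (p : ℤ) ∣ c := by
    intro h3
    exact hpI.not_isUnit ((cop a c h.2.2.2).isUnit_of_dvd' h3 hd)
  have hp3 : ¬ (p : ℤ) ∣ 3 := by
    intro h3
    have h7 : p ∣ 3 := by exact_mod_cast h3
    have h8 := (Nat.prime_dvd_prime_iff_eq hp Nat.prime_three).1 h7
    subst h8
    apply hpa
    have h9 : ((3 : ℕ) : ℤ) ∣ a ^ 3 := by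
      have h10 : a ^ 3 = E3 a c + ((3 : ℕ) : ℤ) * (9 * c) := by
        unfold E3
        push_cast
        ring
      rw [h10]
      exact dvd_add hd (dvd_mul_right _ _)
    exact hpI.dvd_of_dvd_pow h9
  unfold chi
  by_cases h2 : p = 2
  · subst h2
    rw [if_pos rfl, if_neg]
    · norm_num
    · have ha := odd_of hpa
      have hc := odd_of hpc
      obtain ⟨k, hk⟩ : ∃ k : ℤ, a ^ 3 * c = 2 * k + 1 := by
        have h5 : (a ^ 3 * c) % 2 = 1 := by
          have h6 : a ^ 3 * c = a * a * a * c := by ring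
          rw [h6, Int.mul_emod, Int.mul_emod (a * a) a, Int.mul_emod a a, ha, hc]
          norm_num
        exact ⟨(a ^ 3 * c) / 2, by omega⟩
      have h3 : -G6 a c = a ^ 6 - 36 * (a ^ 3 * c) + 8 * (27 * c ^ 2) := by
        unfold G6
        ring
      rw [h3, hk]
      have := pow6 ha
      omega
  · rw [if_neg h2]
    have h3 : (p : ℤ) ∣ -G6 a c - (-3) * (3 * c) ^ 2 := by
      obtain ⟨k, hk⟩ := hd
      unfold E3 at hk
      refine ⟨k * (a ^ 3 - 9 * c), ?_⟩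
      unfold G6
      linear_combination (a ^ 3 - 9 * c) * hk
    rw [js_mod h3, jacobiSym.mul_left, js_sq hp, mul_one, js_neg_three hp h2]
    intro h4
    rcases hpI.dvd_or_dvd h4 with h5 | h5
    · exact hp3 h5
    · exact hpc h5

end WRT3b

theorem t_WRT3' (hAP : S_AP) : S_WRT3 := by
  intro W a c hW hA h4 h6
  have hΔ : W.Δ = D3 a c := by
    have h1 := W.c_relation
    rw [h4, h6, WRT3b.disc a c] at h1
    linarith
  refine ⟨hΔ, ?_⟩
  have hap : ∀ p : ℕ, p.Prime → (p : ℤ) ∣ D3 a c → ap W p = chi (-G6 a c) p := by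
    intro p hp hd
    rw [← hΔ] at hd
    rw [hAP W p hp hd (hW.2 p hp hd), h6]
  have hdD : ∀ p ∈ c.natAbs.primeFactors, -ap W p = -1 := by
    intro p hp
    have hp1 : p.Prime := Nat.prime_of_mem_primeFactors hp
    have hp2 : (p : ℤ) ∣ c := Int.natCast_dvd.2 (Nat.dvd_of_mem_primeFactors hp)
    have hp3 : (p : ℤ) ∣ D3 a c := by
      unfold D3
      exact Dvd.dvd.mul_right (dvd_pow hp2 (by norm_num)) _
    rw [hap p hp1 hp3, WRT3b.chi_c hA hp1 hp2]
  have hdE : ∀ p ∈ (E3 a c).natAbs.primeFactors, -ap W p = -jacobiSym (p : ℤ) 3 := by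
    intro p hp
    have hp1 : p.Prime := Nat.prime_of_mem_primeFactors hp
    have hp2 : (p : ℤ) ∣ E3 a c := Int.natCast_dvd.2 (Nat.dvd_of_mem_primeFactors hp)
    have hp3 : (p : ℤ) ∣ D3 a c := by
      unfold D3
      exact Dvd.dvd.mul_left hp2 _
    rw [hap p hp1 hp3, WRT3b.chi_E hA hp1 hp2]
  unfold rootNumber w3
  rw [hΔ, WRT3b.pf a c hA.2.1 hA.2.2.1, prod_union (WRT3b.disj a c hA.2.2.2)]
  congr 2
  · exact prod_congr rfl fun p hp => hdD p hp
  · exact prod_congr rfl fun p hp => hdE p hp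

end Pool.Agent.K1H81.T3
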